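import Mathlib

/-!
# Cover cost and cover time of simple random walk (MP_c99e7e_pr): definitions and statements

`V` finite, `G` connected graph on `V`, `μ x` the law of simple random walk from `x` on `ℕ → V`.
-/

set_option autoImplicit false

open MeasureTheory ProbabilityTheory Finset
open scoped ENNReal

namespace Pool.Agent.R695.CC

variable {V : Type} [Fintype V]

open Classical in
/-- degree -/
noncomputable def dg (G : SimpleGraph V) (x : V) : ℝ :=
  ((Finset.univ.filter fun y => G.Adj x y).card : ℝ)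

open Classical in
/-- transition probabilities of simple random walk -/
noncomputable def tp (G : SimpleGraph V) (x y : V) : ℝ := if G.Adj x y then 1 / dg G x else 0

/-- sum of the degrees, `2m` -/
noncomputable def DD (G : SimpleGraph V) : ℝ := ∑ x, dg G x

/-- put `x` in front of a trajectory -/
def cons (x : V) (ω : ℕ → V) : ℕ → V
  | 0 => x
  | n + 1 => ω n

/-- `μ x` is the law of simple random walk from `x` (first step decomposition) -/
structure Fam (G : SimpleGraph V) [MeasurableSpace V] (μ : V → Measure (ℕ → V)) : Prop where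
  prob : ∀ x, IsProbabilityMeasure (μ x)
  step : ∀ (x : V) (A : Set (ℕ → V)), MeasurableSet A →
    (μ x).real A = ∑ y, tp G x y * (μ y).real {ω | cons x ω ∈ A}

/-- `y` is visited -/
def hits (y : V) : Set (ℕ → V) := {ω | ∃ n, ω n = y}

/-- `y` is not visited up to time `t` -/
def avd (y : V) (t : ℕ) : Set (ℕ → V) := {ω | ∀ s ≤ t, ω s ≠ y}

/-- some point of `S` is not visited up to time `t` -/
def unc (S : Set V) (t : ℕ) : Set (ℕ → V) := {ω | ∃ y ∈ S, ∀ s ≤ t, ω s ≠ y}

/-- `a` is visited, and `b` is not visited before the first visit to `a` -/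
def bef (a b : V) : Set (ℕ → V) := {ω | ∃ n, ω n = a ∧ ∀ m < n, ω m ≠ b}

/-- time shift -/
def shf (n : ℕ) (ω : ℕ → V) : ℕ → V := fun k => ω (n + k)

/-- the first visit to `y` is at time `n` -/
def fst (y : V) (n : ℕ) : Set (ℕ → V) := {ω | ω n = y ∧ ∀ m < n, ω m ≠ y}

/-- `y` is visited, and the trajectory from the first visit on is in `F` -/
def aft (y : V) (F : Set (ℕ → V)) : Set (ℕ → V) := {ω | ∃ n, ω ∈ fst y n ∧ shf n ω ∈ F}

/-- `E` is determined by the trajectory up to the first visit to `y` -/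
def Det (y : V) (E : Set (ℕ → V)) : Prop :=
  ∀ (ω ω' : ℕ → V) (n : ℕ), ω ∈ fst y n → (∀ m ≤ n, ω' m = ω m) → ω ∈ E → ω' ∈ E

/-- expected hitting time -/
noncomputable def h [MeasurableSpace V] (μ : V → Measure (ℕ → V)) (x y : V) : ℝ :=
  ∑' t, (μ x).real (avd y t)

/-- expected time to cover `S` -/
noncomputable def cv [MeasurableSpace V] (μ : V → Measure (ℕ → V)) (x : V) (S : Set V) : ℝ :=
  ∑' t, (μ x).real (unc S t)

/-- probability to visit `a` before `b` from `x` -/
noncomputable def pb [MeasurableSpace V] (μ : V → Measure (ℕ → V)) (x a b : V) : ℝ :=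
  (μ x).real (bef a b)

/-! ## Markov property -/

/-- Markov property at a fixed time. -/
def S_MK : Prop := ∀ (V : Type) [Fintype V] [MeasurableSpace V] [DiscreteMeasurableSpace V]
    (G : SimpleGraph V) (μ : V → Measure (ℕ → V)), Fam G μ →
  ∀ (n : ℕ) (x y : V) (E F : Set (ℕ → V)), MeasurableSet F →
    (∀ ω ω' : ℕ → V, (∀ m ≤ n, ω' m = ω m) → ω ∈ E → ω' ∈ E) →
    (μ x).real (E ∩ {ω | ω n = y} ∩ {ω | shf n ω ∈ F}) =
      (μ x).real (E ∩ {ω | ω n = y}) * (μ y).real F

/-- Strong Markov property, first visit to `y` at the given time `n`. -/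
def S_SM2 : Prop := ∀ (V : Type) [Fintype V] [MeasurableSpace V] [DiscreteMeasurableSpace V]
    (G : SimpleGraph V) (μ : V → Measure (ℕ → V)), Fam G μ →
  ∀ (n : ℕ) (x y : V) (E F : Set (ℕ → V)), MeasurableSet F → Det y E →
    (μ x).real (E ∩ fst y n ∩ {ω | shf n ω ∈ F}) = (μ x).real (E ∩ fst y n) * (μ y).real F

/-- Strong Markov property at the first visit to `y`. -/
def S_SM : Prop := ∀ (V : Type) [Fintype V] [MeasurableSpace V] [DiscreteMeasurableSpace V]
    (G : SimpleGraph V) (μ : V → Measure (ℕ → V)), Fam G μ →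
  ∀ (x y : V) (E F : Set (ℕ → V)), MeasurableSet F → Det y E →
    (μ x).real (E ∩ aft y F) = (μ x).real (E ∩ hits y) * (μ y).real F

/-! ## Potential theory -/

/-- first step equations -/
structure Rec (G : SimpleGraph V) [MeasurableSpace V] (μ : V → Measure (ℕ → V)) : Prop where
  /-- expected hitting times are finite -/
  sum : ∀ x y, Summable (fun t => (μ x).real (avd y t))
  hit : ∀ x y, (μ x).real (hits y) = 1
  hxx : ∀ x, h μ x x = 0
  hge : ∀ x y, x ≠ y → 1 ≤ h μ x y
  hrec : ∀ x y, x ≠ y → h μ x y = 1 + ∑ z, tp G x z * h μ z y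
  pba : ∀ a b, pb μ a a b = 1
  pbb : ∀ a b, a ≠ b → pb μ b a b = 0
  pbrec : ∀ x a b, x ≠ a → x ≠ b → pb μ x a b = ∑ z, tp G x z * pb μ z a b

def S_REC : Prop := ∀ (V : Type) [Fintype V] [MeasurableSpace V] [DiscreteMeasurableSpace V]
    (G : SimpleGraph V) (μ : V → Measure (ℕ → V)), Fam G μ → G.Connected → Rec G μ

/-- the facts on expected hitting times of a reversible walk which are used -/
structure Pot (G : SimpleGraph V) [MeasurableSpace V] (μ : V → Measure (ℕ → V)) : Prop where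
  tri : ∀ x y z, h μ x z ≤ h μ x y + h μ y z
  edge : ∀ x y, G.Adj x y → h μ x y ≤ DD G
  cyc : ∀ x y z, h μ x y + h μ y z + h μ z x = h μ x z + h μ z y + h μ y x
  kem : ∀ x x', ∑ z, dg G z * h μ x z = ∑ z, dg G z * h μ x' z
  pbf : ∀ x a b, a ≠ b → pb μ x a b * (h μ a b + h μ b a) = h μ x b - h μ x a + h μ b a

def S_POT : Prop := ∀ (V : Type) [Fintype V] [MeasurableSpace V] [DiscreteMeasurableSpace V]
    (G : SimpleGraph V) (μ : V → Measure (ℕ → V)), 2 ≤ Fintype.card V → G.Connected → Rec G μ →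
    Pot G μ

/-- the hitting times form almost a half line, if all hitting times from `r` are at most `H` -/
def S_QL : Prop := ∀ (V : Type) [Fintype V] [MeasurableSpace V] [DiscreteMeasurableSpace V]
    (G : SimpleGraph V) (μ : V → Measure (ℕ → V)), 2 ≤ Fintype.card V → G.Connected →
    Fam G μ → Rec G μ → Pot G μ →
  ∀ (r : V) (H : ℝ), (∀ z, h μ r z ≤ H) →
    ∃ c : V, (∀ y, h μ y c ≤ 2 * H) ∧
      ∀ y y', h μ y y' ≤ max (h μ c y' - h μ c y) 0 + 12 * H

/-- the cover cost is large if some hitting time from `r` is large -/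
def S_LIP : Prop := ∀ (V : Type) [Fintype V] [MeasurableSpace V] [DiscreteMeasurableSpace V]
    (G : SimpleGraph V) (μ : V → Measure (ℕ → V)), 2 ≤ Fintype.card V → G.Connected →
    Rec G μ → Pot G μ →
  ∀ r x : V, (h μ r x) ^ 2 ≤ 4 * DD G * ∑ y, h μ r y

/-! ## The events `A i` -/

/-- after the first visit to `y i`, the walk visits `y 0` before `y (i + 2)` -/
def AA (y : ℕ → V) (i : ℕ) : Set (ℕ → V) := aft (y i) (bef (y 0) (y (i + 2)))

/-- the walk visits `y l`, and after the first visit to `y l` it visits `y (l + 2)` before `y 0`,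
and up to that visit to `y (l + 2)` it does not visit `y i` -/
def GG (y : ℕ → V) (i l : ℕ) : Set (ℕ → V) :=
  {ω | ∃ n s, ω ∈ fst (y l) n ∧ n ≤ s ∧ ω s = y (l + 2) ∧ (∀ m, n ≤ m → m ≤ s → ω m ≠ y 0) ∧
    ∀ m ≤ s, ω m ≠ y i}

/-- all `GG y i l` for `i < l ≤ k - 2`  -/
def FF (y : ℕ → V) (k i : ℕ) : Set (ℕ → V) := {ω | ∀ l, i < l → l + 2 ≤ k → ω ∈ GG y i l}

/-- hypotheses of the argument on points of decrease; `r` is the starting point -/
structure Pts [MeasurableSpace V] (μ : V → Measure (ℕ → V)) (r : V) (y : ℕ → V) (k i1 : ℕ)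
    (η : ℝ) : Prop where
  inj : ∀ i j, i ≤ k → j ≤ k → y i = y j → i = j
  i1pos : 1 ≤ i1
  eta : 0 ≤ η
  up : ∀ i, i1 ≤ i → i + 2 ≤ k → pb μ (y i) (y 0) (y (i + 2)) ≤ 3 / ((i : ℝ) + 2)
  lo : ∀ j, i1 ≤ j → j + 2 ≤ k → 1 / ((j : ℝ) + 2) + η ≤ pb μ (y j) (y 0) (y (j + 2))
  lo2 : ∀ i j, i1 ≤ j → j < i → i + 2 ≤ k →
    1 / ((i : ℝ) + 2 - j) ≤ pb μ (y i) (y j) (y (i + 2))
  j1 : ∀ i l, i1 ≤ i → i + 2 < l → l ≤ k → pb μ (y i) (y l) (y (i + 2)) ≤ η
  j2 : ∀ j i, j < i → i ≤ k → (μ r).real (bef (y j) (y i)) ≤ η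

/-- step a -/
def S_PA : Prop := ∀ (V : Type) [Fintype V] [MeasurableSpace V] [DiscreteMeasurableSpace V]
    (G : SimpleGraph V) (μ : V → Measure (ℕ → V)), Fam G μ → Rec G μ →
  ∀ (r : V) (y : ℕ → V) (k i1 : ℕ) (η : ℝ), Pts μ r y k i1 η → ∀ i, i1 ≤ i → i + 2 ≤ k →
    (μ r).real (AA y i \ ⋃ l ∈ Finset.Ioc i (k - 2), AA y l) ≤
      (μ r).real (FF y k i ∩ hits (y i)) * pb μ (y i) (y 0) (y (i + 2)) + 2 * k * η

/-- step b -/
def S_PB : Prop := ∀ (V : Type) [Fintype V] [MeasurableSpace V] [DiscreteMeasurableSpace V]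
    (G : SimpleGraph V) (μ : V → Measure (ℕ → V)), Fam G μ → Rec G μ →
  ∀ (r : V) (y : ℕ → V) (k i1 : ℕ) (η : ℝ), Pts μ r y k i1 η → ∀ i j, i1 ≤ j → j < i →
    i + 2 ≤ k →
    ((μ r).real (FF y k i ∩ hits (y i)) - η) * (1 / ((i : ℝ) + 2 - j) * (1 / ((j : ℝ) + 2))) ≤
      (μ r).real (AA y j ∩ (AA y i ∩ FF y k i))

/-- step c: `A i` for some `i0 ≤ i ≤ k - 2` has small probability -/
def S_PC : Prop := ∀ (V : Type) [Fintype V] [MeasurableSpace V] [DiscreteMeasurableSpace V]
    (G : SimpleGraph V) (μ : V → Measure (ℕ → V)), Fam G μ → Rec G μ →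
  ∀ (r : V) (y : ℕ → V) (k i1 i0 : ℕ) (η : ℝ), Pts μ r y k i1 η → i1 < i0 → i0 + 2 ≤ k →
    1 / 3 * (∑ s ∈ Finset.Icc 3 (i0 - i1 + 2), 1 / (s : ℝ)) *
      ((μ r).real (⋃ i ∈ Finset.Icc i0 (k - 2), AA y i) - 2 * (k : ℝ) ^ 2 * η) ≤
      3 * k / ((i1 : ℝ) + 2) + (k : ℝ) ^ 2 * η

/-! ## Coverage during two crossings -/

/-- a path is covered before the visit to `a` -/
def S_CH1 : Prop := ∀ (V : Type) [Fintype V] [MeasurableSpace V] [DiscreteMeasurableSpace V]
    (G : SimpleGraph V) (μ : V → Measure (ℕ → V)), Fam G μ → Rec G μ →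
  ∀ (a : V) (L : ℕ) (w : ℕ → V), (∀ t ≤ L, w t ≠ a) → ∀ x : V,
    (μ x).real {ω | ∃ t ≤ L, ω ∉ bef (w t) a} ≤
      pb μ x a (w 0) + ∑ t ∈ Finset.range L, pb μ (w t) a (w (t + 1))

/-- two crossings from `b` to `a` -/
def S_CH2 : Prop := ∀ (V : Type) [Fintype V] [MeasurableSpace V] [DiscreteMeasurableSpace V]
    (G : SimpleGraph V) (μ : V → Measure (ℕ → V)), Fam G μ → Rec G μ →
  ∀ (S : Set V) (r a b c : V), a ≠ b → a ≠ c → b ≠ c → a ∉ S → c ∉ S →
    (μ r).real ({ω | ∃ v ∈ S, ω ∉ bef v c} \ aft a (bef c b)) ≤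
      pb μ r a b + pb μ r c a +
        (μ b).real {ω | ∃ v ∈ S, ω ∉ bef v a} *
          ((μ b).real {ω | ∃ v ∈ S, ω ∉ bef v a} + pb μ b c a)

/-! ## Expected cover times -/

/-- cover `V` by first going to `c` -/
def S_CT1 : Prop := ∀ (V : Type) [Fintype V] [MeasurableSpace V] [DiscreteMeasurableSpace V]
    (G : SimpleGraph V) (μ : V → Measure (ℕ → V)), Fam G μ → Rec G μ →
  ∀ (B : Set V) (r c : V),
    cv μ r Set.univ ≤ h μ r c + cv μ c B +
      (μ r).real {ω | ∃ v, v ∉ B ∧ ω ∉ bef v c} * cv μ c Set.univ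

/-- cover the vertices of a path -/
def S_CT2 : Prop := ∀ (V : Type) [Fintype V] [MeasurableSpace V] [DiscreteMeasurableSpace V]
    (G : SimpleGraph V) (μ : V → Measure (ℕ → V)), Fam G μ → Rec G μ →
  ∀ (L : ℕ) (w : ℕ → V) (S : Set V), (∀ v ∈ S, ∃ t ≤ L, w t = v) → ∀ x : V,
    cv μ x S ≤ h μ x (w 0) + ∑ t ∈ Finset.range L, h μ (w t) (w (t + 1))

/-- union of sets with small expected cover times -/
def S_CT3 : Prop := ∀ (V : Type) [Fintype V] [MeasurableSpace V] [DiscreteMeasurableSpace V]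
    (G : SimpleGraph V) (μ : V → Measure (ℕ → V)), Fam G μ → Rec G μ →
  ∀ (K m : ℕ) (S : ℕ → Set V) (τ : ℝ), K ≤ 2 ^ m → 0 ≤ τ → (∀ x, ∀ j < K, cv μ x (S j) ≤ τ) →
    ∀ x, cv μ x (⋃ j ∈ Finset.range K, S j) ≤ (2 * τ + 1) * (m + 3)

/-- a tour of length `2 n` -/
def S_TOUR : Prop := ∀ (V : Type) [Fintype V] (G : SimpleGraph V) (n : ℕ),
  Fintype.card V = n + 1 → G.Connected →
  ∃ w : ℕ → V, (∀ t < 2 * n, G.Adj (w t) (w (t + 1))) ∧ ∀ v, ∃ t ≤ 2 * n, w t = v

/-- points at distance about `κ` -/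
def S_NET : Prop := ∀ (V : Type) [Fintype V] (G : SimpleGraph V), G.Connected →
  ∀ (φ : V → ℝ) (D : ℝ), (∀ x y, G.Adj x y → φ y ≤ φ x + D) → 0 ≤ D →
  ∀ (c r : V) (k : ℕ) (κ : ℝ), 1 ≤ k → 0 < κ → φ c = 0 → φ r = k * κ →
  ∃ y : ℕ → V, y 0 = c ∧ y k = r ∧ ∀ i ≤ k, i * κ ≤ φ (y i) ∧ φ (y i) ≤ i * κ + D

/-! ## The definitions of the problem -/

open Classical in
/-- One step of simple random walk: a uniformly random neighbour of `x` (and `x` itself in the
degenerate case of an isolated vertex). -/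
noncomputable def stepLaw (G : SimpleGraph V) (x : V) : PMF V :=
  if hne : (Finset.univ.filter fun y => G.Adj x y).Nonempty then
    PMF.uniformOfFinset (Finset.univ.filter fun y => G.Adj x y) hne
  else PMF.pure x

/-- Transition kernel: given the path up to time `n`, the next position has law `stepLaw` of the
current position. -/
noncomputable def stepKernel [MeasurableSpace V] [DiscreteMeasurableSpace V]
    (G : SimpleGraph V) (n : ℕ) : Kernel (Finset.Iic n → V) V :=
  (Kernel.ofFunOfCountable (fun x => (stepLaw G x).toMeasure)).comap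
    (fun path => path ⟨n, Finset.mem_Iic.2 le_rfl⟩) (measurable_pi_apply _)

instance [MeasurableSpace V] [DiscreteMeasurableSpace V] (G : SimpleGraph V) (n : ℕ) :
    IsMarkovKernel (stepKernel G n) := by
  constructor
  intro a
  rw [stepKernel, Kernel.comap_apply]
  change IsProbabilityMeasure (stepLaw G _).toMeasure
  infer_instance

/-- The law (on the space of infinite paths) of simple random walk started at `r`. -/
noncomputable def walkLaw [MeasurableSpace V] [DiscreteMeasurableSpace V]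
    (G : SimpleGraph V) (r : V) : Measure (ℕ → V) :=
  Kernel.trajMeasure (X := fun _ => V) (Measure.dirac r) (stepKernel G)

/-- The number of steps until every vertex has been visited (`∞` if this never happens). -/
noncomputable def coverTime (ω : ℕ → V) : ℝ≥0∞ :=
  ⨅ (t : ℕ) (_ : ∀ v : V, ∃ s ≤ t, ω s = v), (t : ℝ≥0∞)

/-- The cover time `CT_r(G)`: expected number of steps until every vertex has been visited. -/
noncomputable def CT [MeasurableSpace V] [DiscreteMeasurableSpace V]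
    (G : SimpleGraph V) (r : V) : ℝ≥0∞ :=
  ∫⁻ ω, coverTime ω ∂(walkLaw G r)

open Classical in
/-- The number of vertices other than the starting point visited at the times `0, …, t`. -/
noncomputable def seen (ω : ℕ → V) (t : ℕ) : ℕ :=
  (Finset.univ.filter fun v : V => v ≠ ω 0 ∧ ∃ s ≤ t, ω s = v).card

/-- The cost of the step from time `t` to time `t + 1`: `1 - k / n` if exactly `k` vertices other
than the starting point have been visited (it is `0` once everything has been visited), where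
`n + 1` is the number of vertices. -/
noncomputable def stepCost (n : ℕ) (ω : ℕ → V) (t : ℕ) : ℝ≥0∞ :=
  ENNReal.ofReal (1 - (seen ω t : ℝ) / n)

/-- The cover cost `cc_r(G)`: expected total cost of all steps. -/
noncomputable def cc [MeasurableSpace V] [DiscreteMeasurableSpace V]
    (G : SimpleGraph V) (r : V) : ℝ≥0∞ :=
  ∫⁻ ω, ∑' t, stepCost (Fintype.card V - 1) ω t ∂(walkLaw G r)

/-- the walk law has the first step decomposition -/
def S_W : Prop := ∀ (V : Type) [Fintype V] [MeasurableSpace V] [DiscreteMeasurableSpace V]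
    (G : SimpleGraph V), 2 ≤ Fintype.card V → G.Connected → Fam G (walkLaw G)

/-- the cover time and the cover cost as sums -/
def S_LINK : Prop := ∀ (V : Type) [Fintype V] [MeasurableSpace V] [DiscreteMeasurableSpace V]
    (G : SimpleGraph V), 2 ≤ Fintype.card V → G.Connected → Fam G (walkLaw G) →
    Rec G (walkLaw G) → ∀ r : V,
    CT G r = ENNReal.ofReal (cv (walkLaw G) r Set.univ) ∧
    cc G r = ENNReal.ofReal ((∑ y, h (walkLaw G) r y) / ((Fintype.card V : ℝ) - 1))

/-- the main theorem -/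
def S_MAIN : Prop := ∀ M : ℝ, 0 < M → ∃ c : ℝ, 0 < c ∧
  ∀ (V : Type) [Fintype V] [MeasurableSpace V] [DiscreteMeasurableSpace V]
    (G : SimpleGraph V) (n : ℕ), Fintype.card V = n + 1 → 1 ≤ n → G.Connected → ∀ r : V,
    ENNReal.ofReal (M * (n : ℝ) ^ 3) < CT G r → ENNReal.ofReal (c * (n : ℝ) ^ 3) < cc G r

end Pool.Agent.R695.CC
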