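import Pool.Agent.R695.CC.Num

set_option autoImplicit false

open MeasureTheory ProbabilityTheory Finset
open scoped ENNReal

namespace Pool.Agent.R695.CC.Q

theorem chunk (h1 : S_CH1) (h2 : S_CH2) {V : Type} [Fintype V] [MeasurableSpace V]
    [DiscreteMeasurableSpace V] {G : SimpleGraph V} {μ : V → Measure (ℕ → V)} (hF : Fam G μ)
    (hR : Rec G μ) (hP : Pot G μ) {r c : V} {H κ : ℝ} {y : ℕ → V} {k : ℕ}
    (hQ : QLs μ r c H) (hN : Nt μ r c y k κ (DD G)) (hD0 : 0 ≤ DD G) (hH0 : 0 ≤ H) (hκ : 0 < κ)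
    (hbig : 16 * k * (DD G + 12 * H) ≤ κ) (hk1 : 1 ≤ k) {i : ℕ} (hi : 1 ≤ i) (hik : i + 2 ≤ k)
    (L : ℕ) (w : ℕ → V) (hw : ∀ t < L, G.Adj (w t) (w (t + 1)))
    (hL : ((L : ℝ) + 1) * DD G ≤ κ / 2)
    (hw0 : ((i : ℝ) + 1) * κ ≤ h μ c (w 0)) (hw1 : h μ c (w 0) ≤ h μ c (y (i + 2)) + H) :
    (μ r).real ({ω | ∃ v ∈ {v | ∃ t ≤ L, w t = v}, ω ∉ bef v c} \ AA y i) ≤
      96 * H / κ + (64 * H / κ + 4 * L * DD G / κ) ^ 2 := by
  have hpts := pts hP hQ hN hD0 hH0 hκ hbig (le_refl 1) hk1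
  have hk1' : (1 : ℝ) ≤ k := by exact_mod_cast hk1
  have hE : 0 ≤ DD G + 12 * H := by positivity
  have hb1 : 16 * (DD G + 12 * H) ≤ κ := by nlinarith
  have hDκ : DD G < κ := by nlinarith
  have hinj := net_inj hN hDκ
  have hi' : (1 : ℝ) ≤ i := by exact_mod_cast hi
  -- the path stays above y i
  have hstep : ∀ t ≤ L, h μ c (w 0) - t * DD G ≤ h μ c (w t) := by
    intro t
    induction t with
    | zero => intro _; simp
    | succ t ih =>
      intro ht
      have h3 := ih (by omega)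
      have h4 := hP.tri c (w (t + 1)) (w t)
      have h5 := hP.edge _ _ (hw t (by omega)).symm
      push_cast
      linarith
  have hupi := hN.up i (by omega)
  have hloi := hN.lo i (by omega)
  have habove : ∀ t ≤ L, h μ c (y i) + κ / 2 ≤ h μ c (w t) := by
    intro t ht
    have h3 := hstep t ht
    have h4 : (t : ℝ) * DD G ≤ L * DD G :=
      mul_le_mul_of_nonneg_right (by exact_mod_cast ht) hD0
    linarith
  have hφi : κ ≤ h μ c (y i) := le_trans (by nlinarith) hloi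
  have hne1 : y i ≠ y (i + 2) := fun he => absurd (hinj _ _ (by omega) hik he) (by omega)
  have hcc : h μ c c = 0 := hR.hxx c
  have hne2 : y i ≠ c := by
    intro he
    rw [he, hcc] at hφi
    linarith
  have hne3 : y (i + 2) ≠ c := by
    intro he
    have h3 := net_lt hN hDκ (show i < i + 2 by omega) hik
    rw [he, hcc] at h3
    linarith
  have hS1 : y i ∉ {v | ∃ t ≤ L, w t = v} := by
    rintro ⟨t, ht, he⟩
    have h3 := habove t ht
    rw [he] at h3
    linarith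
  have hS2 : c ∉ {v | ∃ t ≤ L, w t = v} := by
    rintro ⟨t, ht, he⟩
    have h3 := habove t ht
    rw [he, hcc] at h3
    linarith
  have key := h2 V G μ hF hR {v | ∃ t ≤ L, w t = v} r (y i) (y (i + 2)) c hne1 hne2 hne3 hS1 hS2
  have hAA : AA y i = aft (y i) (bef c (y (i + 2))) := by rw [AA, hN.y0]
  rw [← hAA] at key
  refine key.trans ?_
  -- the four probabilities
  have p1 : pb μ r (y i) (y (i + 2)) ≤ 48 * H / κ := hpts.j2 i (i + 2) (by omega) hik
  have p2 : pb μ r c (y i) ≤ 48 * H / κ := by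
    have := hpts.j2 0 i (by omega) (by omega)
    rwa [hN.y0] at this
  have p3 : pb μ (y (i + 2)) c (y i) ≤ 14 * H / κ := by
    have q1 := hQ.ql (y (i + 2)) (y i)
    have q0 := net_lt hN hDκ (show i < i + 2 by omega) hik
    rw [max_eq_right (by linarith)] at q1
    have q2 := hQ.hc (y i)
    have q3 := h_nonneg μ (y (i + 2)) c
    have q4 := h_nonneg μ (y i) c
    exact pb_le hP (Ne.symm hne2) (by linarith) (by linarith) hκ
  have p4 : (μ (y (i + 2))).real {ω | ∃ v ∈ {v | ∃ t ≤ L, w t = v}, ω ∉ bef v (y i)} ≤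
      50 * H / κ + 4 * L * DD G / κ := by
    have e1 : {ω : ℕ → V | ∃ v ∈ {v | ∃ t ≤ L, w t = v}, ω ∉ bef v (y i)} =
        {ω | ∃ t ≤ L, ω ∉ bef (w t) (y i)} := by
      ext ω
      constructor
      · rintro ⟨v, ⟨t, ht, rfl⟩, hv⟩
        exact ⟨t, ht, hv⟩
      · rintro ⟨t, ht, hv⟩
        exact ⟨w t, ⟨t, ht, rfl⟩, hv⟩
    rw [e1]
    have hwne : ∀ t ≤ L, w t ≠ y i := fun t ht he => hS1 ⟨t, ht, he⟩
    refine (h1 V G μ hF hR (y i) L w hwne (y (i + 2))).trans ?_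
    have a1 : pb μ (y (i + 2)) (y i) (w 0) ≤ 50 * H / κ := by
      have q1 := hQ.ql (y (i + 2)) (w 0)
      have q1' : max (h μ c (w 0) - h μ c (y (i + 2))) 0 ≤ H := max_le (by linarith) hH0
      have q2 := hQ.ql (w 0) (y i)
      have q2a := habove 0 (by omega)
      rw [max_eq_right (by linarith)] at q2
      have q3 := h_nonneg μ (y (i + 2)) (y i)
      have q4 := phi_le hP c (y i) (w 0)
      have q5 := h_nonneg μ (w 0) (y i)
      refine (pb_le hP (Ne.symm (hwne 0 (by omega))) (N := 25 * H) (d := κ / 2)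
        (by linarith) (by linarith) (by positivity)).trans (le_of_eq ?_)
      field_simp
      ring
    have a2 : ∀ t ∈ Finset.range L, pb μ (w t) (y i) (w (t + 1)) ≤ 4 * DD G / κ := by
      intro t ht
      have ht' : t < L := Finset.mem_range.mp ht
      have q1 := hP.edge _ _ (hw t ht')
      have q2 := hP.edge _ _ (hw t ht').symm
      have q3 := hP.tri (w (t + 1)) (w t) (y i)
      have q4 := habove (t + 1) (by omega)
      have q5 := phi_le hP c (y i) (w (t + 1))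
      have q6 := h_nonneg μ (w (t + 1)) (y i)
      refine (pb_le hP (Ne.symm (hwne (t + 1) (by omega))) (N := 2 * DD G) (d := κ / 2)
        (by linarith) (by linarith) (by positivity)).trans (le_of_eq ?_)
      field_simp
      ring
    have a3 : ∑ t ∈ Finset.range L, pb μ (w t) (y i) (w (t + 1)) ≤ 4 * L * DD G / κ := by
      refine (Finset.sum_le_sum a2).trans (le_of_eq ?_)
      rw [Finset.sum_const, Finset.card_range, nsmul_eq_mul]
      ring
    linarith
  have n1 : 0 ≤ H / κ := by positivity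
  have n2 : 0 ≤ L * DD G / κ := by positivity
  have n3 : 0 ≤ (μ (y (i + 2))).real {ω | ∃ v ∈ {v | ∃ t ≤ L, w t = v}, ω ∉ bef v (y i)} :=
    measureReal_nonneg
  have n4 : 0 ≤ pb μ (y (i + 2)) c (y i) := measureReal_nonneg
  set X := (μ (y (i + 2))).real {ω | ∃ v ∈ {v | ∃ t ≤ L, w t = v}, ω ∉ bef v (y i)} with hX
  have e2 : 50 * H / κ = 50 * (H / κ) := by ring
  have e3 : 4 * L * DD G / κ = 4 * (L * DD G / κ) := by ring
  have e4 : 14 * H / κ = 14 * (H / κ) := by ring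
  have e5 : 64 * H / κ = 64 * (H / κ) := by ring
  have e6 : 48 * H / κ = 48 * (H / κ) := by ring
  have e7 : 96 * H / κ = 96 * (H / κ) := by ring
  rw [e6] at p1 p2
  rw [e4] at p3
  rw [e2, e3] at p4
  rw [e5, e3, e7]
  generalize H / κ = a at *
  generalize L * DD G / κ = b at *
  have hA : X ≤ 64 * a + 4 * b := by linarith
  have hB : X + pb μ (y (i + 2)) c (y i) ≤ 64 * a + 4 * b := by linarith
  have hC : X * (X + pb μ (y (i + 2)) c (y i)) ≤ (64 * a + 4 * b) * (64 * a + 4 * b) :=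
    mul_le_mul hA hB (by linarith) (by linarith)
  rw [sq]
  linarith

theorem bad_bound (h1 : S_CH1) (h2 : S_CH2) {V : Type} [Fintype V] [MeasurableSpace V]
    [DiscreteMeasurableSpace V] {G : SimpleGraph V} {μ : V → Measure (ℕ → V)} (hF : Fam G μ)
    (hR : Rec G μ) (hP : Pot G μ) {r c : V} {H κ : ℝ} {y : ℕ → V} {k : ℕ}
    (hQ : QLs μ r c H) (hN : Nt μ r c y k κ (DD G)) (hD0 : 0 ≤ DD G) (hH0 : 0 ≤ H) (hκ : 0 < κ)
    (hbig : 16 * k * (DD G + 12 * H) ≤ κ) {i0 : ℕ} (hi0 : 1 ≤ i0) (hik : i0 + 2 ≤ k)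
    (L J : ℕ) (hL0 : 1 ≤ L) (w : ℕ → V) (hw : ∀ t, G.Adj (w t) (w (t + 1)))
    (hcov : ∀ v, ∃ t < J * L, w t = v) (hL : ((L : ℝ) + 1) * DD G ≤ κ / 2) (β : ℝ)
    (hβ : ((i0 : ℝ) + 1) * κ + L * DD G ≤ β) :
    (μ r).real {ω | ∃ v, v ∉ {v | h μ c v < β} ∧ ω ∉ bef v c} ≤
      (μ r).real (⋃ i ∈ Finset.Icc i0 (k - 2), AA y i) +
        J * (96 * H / κ + (64 * H / κ + 4 * L * DD G / κ) ^ 2) := by
  classical
  have hp := hF.prob r
  set ρ := 96 * H / κ + (64 * H / κ + 4 * L * DD G / κ) ^ 2 with hρ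
  have hρ0 : 0 ≤ ρ := by positivity
  -- the index belonging to a chunk
  set idx : ℕ → ℕ := fun j => min (⌊h μ c (w (j * L)) / κ⌋₊ - 1) (k - 2) with hidx
  set X : ℕ → Set (ℕ → V) := fun j =>
    if ∃ t ≤ L, β ≤ h μ c (w (j * L + t)) then
      {ω | ∃ v ∈ {v | ∃ t ≤ L, w (j * L + t) = v}, ω ∉ bef v c} \ AA y (idx j) else ∅ with hX
  have hlow : ∀ j t, h μ c (w (j * L + t)) ≤ h μ c (w (j * L)) + t * DD G := by
    intro j t
    induction t with
    | zero => simp
    | succ t ih =>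
      have h4 := hP.tri c (w (j * L + t)) (w (j * L + (t + 1)))
      have h5 := hP.edge _ _ (hw (j * L + t))
      rw [show j * L + (t + 1) = j * L + t + 1 by ring] at h4 ⊢
      push_cast
      linarith
  have hrel : ∀ j, (∃ t ≤ L, β ≤ h μ c (w (j * L + t))) →
      i0 ≤ idx j ∧ idx j + 2 ≤ k ∧ ((idx j : ℝ) + 1) * κ ≤ h μ c (w (j * L)) ∧
        h μ c (w (j * L)) ≤ h μ c (y (idx j + 2)) + H := by
    rintro j ⟨t, ht, htβ⟩
    have h3 := hlow j t
    have h4 : (t : ℝ) * DD G ≤ L * DD G :=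
      mul_le_mul_of_nonneg_right (by exact_mod_cast ht) hD0
    have h5 : ((i0 : ℝ) + 1) * κ ≤ h μ c (w (j * L)) := by linarith
    have h6 : i0 + 1 ≤ ⌊h μ c (w (j * L)) / κ⌋₊ := by
      apply Nat.le_floor
      rw [le_div_iff₀ hκ]
      push_cast
      exact h5
    have h7 : (⌊h μ c (w (j * L)) / κ⌋₊ : ℝ) * κ ≤ h μ c (w (j * L)) := by
      rw [← le_div_iff₀ hκ]
      exact Nat.floor_le (div_nonneg (h_nonneg μ _ _) hκ.le)
    have h8 : h μ c (w (j * L)) < ((⌊h μ c (w (j * L)) / κ⌋₊ : ℝ) + 1) * κ := by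
      rw [← div_lt_iff₀ hκ]
      exact Nat.lt_floor_add_one _
    refine ⟨le_min (by omega) (by omega), ?_, ?_, ?_⟩
    · have := min_le_right (⌊h μ c (w (j * L)) / κ⌋₊ - 1) (k - 2)
      simp only [hidx]
      omega
    · have h9 : idx j + 1 ≤ ⌊h μ c (w (j * L)) / κ⌋₊ := by
        have := min_le_left (⌊h μ c (w (j * L)) / κ⌋₊ - 1) (k - 2)
        simp only [hidx]
        omega
      have h10 : ((idx j : ℝ) + 1) ≤ (⌊h μ c (w (j * L)) / κ⌋₊ : ℝ) := by exact_mod_cast h9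
      exact (mul_le_mul_of_nonneg_right h10 hκ.le).trans h7
    · by_cases hcase : ⌊h μ c (w (j * L)) / κ⌋₊ - 1 ≤ k - 2
      · have h9 : idx j = ⌊h μ c (w (j * L)) / κ⌋₊ - 1 := min_eq_left hcase
        have h10 := hN.lo (idx j + 2) (by omega)
        have h11 : ((idx j + 2 : ℕ) : ℝ) = (⌊h μ c (w (j * L)) / κ⌋₊ : ℝ) + 1 := by
          rw [h9]
          have : ⌊h μ c (w (j * L)) / κ⌋₊ - 1 + 2 = ⌊h μ c (w (j * L)) / κ⌋₊ + 1 := by omega
          rw [this]; push_cast; ring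
        rw [h11] at h10
        linarith
      · have h9 : idx j = k - 2 := min_eq_right (by omega)
        have h10 : idx j + 2 = k := by omega
        rw [h10, hN.yk]
        have h11 := hP.tri c r (w (j * L))
        have h12 := hQ.hr (w (j * L))
        linarith
  have hXle : ∀ j, (μ r).real (X j) ≤ ρ := by
    intro j
    simp only [hX]
    split_ifs with hj
    · obtain ⟨r1, r2, r3, r4⟩ := hrel j hj
      exact chunk h1 h2 hF hR hP hQ hN hD0 hH0 hκ hbig (by omega) (le_trans hi0 r1) r2 L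
        (fun t => w (j * L + t)) (fun t _ => hw (j * L + t)) hL (by simpa using r3)
        (by simpa using r4)
    · simpa using hρ0
  have hsub : {ω : ℕ → V | ∃ v, v ∉ {v | h μ c v < β} ∧ ω ∉ bef v c} ⊆
      (⋃ i ∈ Finset.Icc i0 (k - 2), AA y i) ∪ ⋃ j ∈ Finset.range J, X j := by
    rintro ω ⟨v, hv, hωv⟩
    obtain ⟨t, ht, rfl⟩ := hcov v
    have hvβ : β ≤ h μ c (w t) := by simpa using hv
    have hjt : t / L * L + t % L = t := Nat.div_add_mod' t L
    have hmod : t % L ≤ L := (Nat.mod_lt _ (by omega)).le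
    have hjJ : t / L < J := Nat.div_lt_of_lt_mul (by rwa [mul_comm] at ht)
    have hj : ∃ s ≤ L, β ≤ h μ c (w (t / L * L + s)) := ⟨t % L, hmod, by rwa [hjt]⟩
    obtain ⟨r1, r2, _, _⟩ := hrel _ hj
    by_cases hA : ω ∈ AA y (idx (t / L))
    · left
      simp only [Set.mem_iUnion, Finset.mem_Icc]
      exact ⟨idx (t / L), ⟨r1, by omega⟩, hA⟩
    · right
      simp only [Set.mem_iUnion, Finset.mem_range]
      refine ⟨t / L, hjJ, ?_⟩
      simp only [hX]
      rw [if_pos hj]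
      exact ⟨⟨w t, ⟨t % L, hmod, by rw [hjt]⟩, hωv⟩, hA⟩
  calc (μ r).real {ω : ℕ → V | ∃ v, v ∉ {v | h μ c v < β} ∧ ω ∉ bef v c}
      ≤ (μ r).real ((⋃ i ∈ Finset.Icc i0 (k - 2), AA y i) ∪ ⋃ j ∈ Finset.range J, X j) :=
        measureReal_mono hsub
    _ ≤ (μ r).real (⋃ i ∈ Finset.Icc i0 (k - 2), AA y i) +
        (μ r).real (⋃ j ∈ Finset.range J, X j) := measureReal_union_le _ _
    _ ≤ (μ r).real (⋃ i ∈ Finset.Icc i0 (k - 2), AA y i) + ∑ j ∈ Finset.range J, (μ r).real (X j) := by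
        gcongr
        exact measureReal_biUnion_finset_le _ _
    _ ≤ (μ r).real (⋃ i ∈ Finset.Icc i0 (k - 2), AA y i) + J * ρ := by
        gcongr
        refine (Finset.sum_le_sum fun j _ => hXle j).trans (le_of_eq ?_)
        rw [Finset.sum_const, Finset.card_range, nsmul_eq_mul]

end Pool.Agent.R695.CC.Q
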