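import Pool.Agent.R695.CC.Stm

/-!
# CC-CH: coverage of a path before `a`, and during two crossings (helper193)
-/

set_option autoImplicit false

open MeasureTheory ProbabilityTheory Finset
open scoped ENNReal

namespace Pool.Agent.R695.CC

namespace CHaux

variable {V : Type} [Fintype V] [MeasurableSpace V] [DiscreteMeasurableSpace V]

theorem meas_eq (n : ℕ) (a : V) : MeasurableSet {ω : ℕ → V | ω n = a} := by
  have h : Measurable fun ω : ℕ → V => ω n := measurable_pi_apply n
  exact h (measurableSet_singleton a)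

theorem meas_ne (n : ℕ) (a : V) : MeasurableSet {ω : ℕ → V | ω n ≠ a} := (meas_eq n a).compl

theorem meas_hits (a : V) : MeasurableSet (hits a) := by
  have : hits a = ⋃ n, {ω : ℕ → V | ω n = a} := by
    ext ω
    simp [hits]
  rw [this]
  exact MeasurableSet.iUnion fun n => meas_eq n a

theorem meas_fst (a : V) (n : ℕ) : MeasurableSet (fst a n) := by
  have : fst a n = {ω : ℕ → V | ω n = a} ∩ ⋂ m ∈ Finset.range n, {ω : ℕ → V | ω m ≠ a} := by
    ext ω
    simp [fst]
  rw [this]
  exact (meas_eq n a).inter (Finset.measurableSet_biInter _ fun m _ => meas_ne m a)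

theorem meas_bef (a b : V) : MeasurableSet (bef a b) := by
  have : bef a b = ⋃ n, ({ω : ℕ → V | ω n = a} ∩ ⋂ m ∈ Finset.range n, {ω : ℕ → V | ω m ≠ b}) := by
    ext ω
    simp [bef]
  rw [this]
  exact MeasurableSet.iUnion fun n =>
    (meas_eq n a).inter (Finset.measurableSet_biInter _ fun m _ => meas_ne m b)

theorem meas_shf (n : ℕ) : Measurable (shf n : (ℕ → V) → (ℕ → V)) := by
  rw [measurable_pi_iff]
  intro k
  exact measurable_pi_apply (n + k)

theorem meas_aft (y : V) {F : Set (ℕ → V)} (hF : MeasurableSet F) : MeasurableSet (aft y F) := by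
  have : aft y F = ⋃ n, (fst y n ∩ (shf n) ⁻¹' F) := by
    ext ω
    simp [aft]
  rw [this]
  exact MeasurableSet.iUnion fun n => (meas_fst y n).inter (meas_shf n hF)

theorem meas_unb (S : Set V) (c : V) : MeasurableSet {ω : ℕ → V | ∃ v ∈ S, ω ∉ bef v c} := by
  have : {ω : ℕ → V | ∃ v ∈ S, ω ∉ bef v c} = ⋃ v ∈ S, (bef v c)ᶜ := by
    ext ω
    simp
  rw [this]
  exact MeasurableSet.biUnion S.to_countable fun v _ => (meas_bef v c).compl

theorem hit_null {G : SimpleGraph V} {μ : V → Measure (ℕ → V)} (hF : Fam G μ) (hR : Rec G μ)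
    (x y : V) : (μ x).real (hits y)ᶜ = 0 := by
  have := hF.prob x
  rw [measureReal_compl (meas_hits y), hR.hit, probReal_univ, sub_self]

theorem exists_fst {ω : ℕ → V} {a : V} (h : ω ∈ hits a) : ∃ n, ω ∈ fst a n := by
  classical
  have h' : ∃ n, ω n = a := h
  exact ⟨Nat.find h', Nat.find_spec h', fun m hm => Nat.find_min h' hm⟩

/-- if `b` is visited and `ω ∉ bef b a`, then `ω ∈ bef a b`  -/
theorem bef_of_not {ω : ℕ → V} {a b : V} (hb : ω ∈ hits b) (h : ω ∉ bef b a) : ω ∈ bef a b := by
  obtain ⟨n, hn1, hn2⟩ := exists_fst hb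
  have : ∃ m < n, ω m = a := by
    by_contra hc
    push Not at hc
    exact h ⟨n, hn1, hc⟩
  obtain ⟨m, hm, hma⟩ := this
  exact ⟨m, hma, fun k hk => hn2 k (hk.trans hm)⟩

theorem sm_le (hSM : S_SM) {G : SimpleGraph V} {μ : V → Measure (ℕ → V)} (hF : Fam G μ)
    (x y : V) {F : Set (ℕ → V)} (hm : MeasurableSet F) :
    (μ x).real (aft y F) ≤ (μ y).real F := by
  have := hF.prob x
  have h := hSM V G μ hF x y Set.univ F hm (fun _ _ _ _ _ _ => trivial)
  rw [Set.univ_inter, Set.univ_inter] at h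
  rw [h]
  have h1 : (μ x).real (hits y) ≤ 1 := measureReal_le_one
  have h2 : 0 ≤ (μ y).real F := measureReal_nonneg
  nlinarith

end CHaux

open CHaux

theorem CH1_ok : S_SM → S_CH1 := by
  intro hSM V _ _ _ G μ hF hR a L
  have base : ∀ (x y : V), (μ x).real {ω | ω ∉ bef y a} ≤ pb μ x a y := by
    intro x y
    have := hF.prob x
    have hsub : {ω : ℕ → V | ω ∉ bef y a} ⊆ bef a y ∪ (hits y)ᶜ := by
      intro ω hω
      by_cases hh : ω ∈ hits y
      · exact Or.inl (bef_of_not hh hω)
      · exact Or.inr hh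
    calc (μ x).real {ω | ω ∉ bef y a} ≤ (μ x).real (bef a y ∪ (hits y)ᶜ) := measureReal_mono hsub
      _ ≤ (μ x).real (bef a y) + (μ x).real (hits y)ᶜ := measureReal_union_le _ _
      _ = pb μ x a y := by rw [hit_null hF hR, add_zero]; rfl
  induction L with
  | zero =>
    intro w _ x
    have heq : {ω : ℕ → V | ∃ t ≤ 0, ω ∉ bef (w t) a} = {ω | ω ∉ bef (w 0) a} := by
      ext ω
      simp
    rw [heq, Finset.range_zero, Finset.sum_empty, add_zero]
    exact base x (w 0)
  | succ L ih =>
    intro w hw x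
    have := hF.prob x
    have hmeas : MeasurableSet {ω : ℕ → V | ∃ t ≤ L, ω ∉ bef (w (t + 1)) a} := by
      have : {ω : ℕ → V | ∃ t ≤ L, ω ∉ bef (w (t + 1)) a}
          = ⋃ t ∈ Finset.range (L + 1), (bef (w (t + 1)) a)ᶜ := by
        ext ω
        simp
      rw [this]
      exact Finset.measurableSet_biUnion _ fun t _ => (meas_bef _ _).compl
    have hsub : {ω : ℕ → V | ∃ t ≤ L + 1, ω ∉ bef (w t) a} ⊆ {ω | ω ∉ bef (w 0) a} ∪
        aft (w 0) {ω : ℕ → V | ∃ t ≤ L, ω ∉ bef (w (t + 1)) a} := by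
      rintro ω ⟨t, ht, hω⟩
      by_cases h0 : ω ∈ bef (w 0) a
      · right
        have hhit : ω ∈ hits (w 0) := by
          obtain ⟨n, hn, _⟩ := h0
          exact ⟨n, hn⟩
        obtain ⟨T, hT⟩ := exists_fst hhit
        refine ⟨T, hT, ?_⟩
        obtain ⟨n, hn, hna⟩ := h0
        have hTn : T ≤ n := by
          by_contra hc
          push Not at hc
          exact hT.2 n hc hn
        cases t with
        | zero => exact absurd ⟨n, hn, hna⟩ hω
        | succ t =>
          refine ⟨t, by omega, ?_⟩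
          rintro ⟨k, hk, hka⟩
          apply hω
          refine ⟨T + k, hk, ?_⟩
          intro m hm
          rcases Nat.lt_or_ge m T with h | h
          · exact hna m (by omega)
          · have h' := hka (m - T) (by omega)
            have e : T + (m - T) = m := by omega
            simp only [shf, e] at h'
            exact h'
      · exact Or.inl h0
    have h1 := ih (fun t => w (t + 1)) (fun t ht => hw (t + 1) (by omega)) (w 0)
    calc (μ x).real {ω | ∃ t ≤ L + 1, ω ∉ bef (w t) a}
        ≤ (μ x).real ({ω | ω ∉ bef (w 0) a} ∪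
          aft (w 0) {ω : ℕ → V | ∃ t ≤ L, ω ∉ bef (w (t + 1)) a}) := measureReal_mono hsub
      _ ≤ (μ x).real {ω | ω ∉ bef (w 0) a} +
          (μ x).real (aft (w 0) {ω : ℕ → V | ∃ t ≤ L, ω ∉ bef (w (t + 1)) a}) :=
        measureReal_union_le _ _
      _ ≤ pb μ x a (w 0) + (μ (w 0)).real {ω : ℕ → V | ∃ t ≤ L, ω ∉ bef (w (t + 1)) a} :=
        add_le_add (base x (w 0)) (sm_le hSM hF x (w 0) hmeas)
      _ ≤ pb μ x a (w 0) + (pb μ (w 0) a (w 1) +
          ∑ t ∈ Finset.range L, pb μ (w (t + 1)) a (w (t + 1 + 1))) := by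
        have := h1
        simp only [Nat.zero_add] at this
        linarith
      _ = pb μ x a (w 0) + ∑ t ∈ Finset.range (L + 1), pb μ (w t) a (w (t + 1)) := by
        rw [Finset.sum_range_succ' (fun t => pb μ (w t) a (w (t + 1)))]
        ring

theorem CH2_ok : S_SM → S_CH2 := by
  intro hSM V _ _ _ G μ hF hR S r a b c hab hac hbc haS hcS
  have hpr := hF.prob r
  have hpb := hF.prob b
  have hpa := hF.prob a
  set Ua : Set (ℕ → V) := {ω | ∃ v ∈ S, ω ∉ bef v a} with hUa
  set Uc : Set (ℕ → V) := {ω | ∃ v ∈ S, ω ∉ bef v c} with hUc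
  have mUa : MeasurableSet Ua := meas_unb S a
  have mUc : MeasurableSet Uc := meas_unb S c
  have mB : MeasurableSet (aft b Uc) := meas_aft b mUc
  have mA : MeasurableSet (aft a (aft b Uc)) := meas_aft a mB
  have hdet : Det a Ua := by
    rintro ω ω' n hn hagree ⟨v, hv, hω⟩
    refine ⟨v, hv, ?_⟩
    rintro ⟨k, hk, hka⟩
    have hkn : k ≤ n := by
      by_contra hc
      push Not at hc
      apply hka n hc
      rw [hagree n le_rfl]
      exact hn.1
    apply hω
    refine ⟨k, by rw [← hagree k hkn]; exact hk, fun m hm => ?_⟩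
    rw [← hagree m (by omega)]
    exact hka m hm
  have hsub : Uc \ aft a (bef c b) ⊆ (bef a b ∪ bef c a) ∪ (aft b (Ua ∩ aft a (aft b Uc)) ∪
      ((hits a)ᶜ ∪ (hits c)ᶜ)) := by
    rintro ω ⟨⟨v, hv, hω⟩, hnot⟩
    by_cases h1 : ω ∈ bef a b
    · exact Or.inl (Or.inl h1)
    by_cases h2 : ω ∈ bef c a
    · exact Or.inl (Or.inr h2)
    by_cases h3 : ω ∈ hits a
    swap
    · exact Or.inr (Or.inr (Or.inl h3))
    by_cases h4 : ω ∈ hits c
    swap
    · exact Or.inr (Or.inr (Or.inr h4))
    right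
    left
    obtain ⟨Ta, hTa⟩ := exists_fst h3
    obtain ⟨Tc, hTc⟩ := exists_fst h4
    -- `b` is visited before `Ta`
    have hb : ∃ m < Ta, ω m = b := by
      by_contra hc
      push Not at hc
      exact h1 ⟨Ta, hTa.1, hc⟩
    obtain ⟨m1, hm1, hm1b⟩ := hb
    obtain ⟨Tb, hTb⟩ := exists_fst (⟨m1, hm1b⟩ : ω ∈ hits b)
    have hTbm : Tb ≤ m1 := by
      by_contra hc
      push Not at hc
      exact hTb.2 m1 hc hm1b
    have hTbTa : Tb < Ta := by omega
    have ha : ∃ m < Tc, ω m = a := by
      by_contra hc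
      push Not at hc
      exact h2 ⟨Tc, hTc.1, hc⟩
    obtain ⟨m2, hm2, hm2a⟩ := ha
    have hTam : Ta ≤ m2 := by
      by_contra hc
      push Not at hc
      exact hTa.2 m2 hc hm2a
    have hTaTc : Ta < Tc := by omega
    -- no visit to `v` up to time `Tc`
    have hvno : ∀ n ≤ Tc, ω n ≠ v := by
      intro n hn hnv
      rcases Nat.lt_or_ge n Tc with h | h
      · exact hω ⟨n, hnv, fun m hm => hTc.2 m (hm.trans h)⟩
      · have : n = Tc := le_antisymm hn h
        rw [this, hTc.1] at hnv
        exact hcS (hnv ▸ hv)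
    -- the shifted trajectory
    have hsa : shf Ta ω ∉ bef c b := fun h => hnot ⟨Ta, hTa, h⟩
    have hb2 : ∃ m < Tc - Ta, shf Ta ω m = b := by
      by_contra hc
      push Not at hc
      refine hsa ⟨Tc - Ta, ?_, hc⟩
      simp only [shf]
      rw [Nat.add_sub_cancel' hTaTc.le]
      exact hTc.1
    obtain ⟨m3, hm3, hm3b⟩ := hb2
    obtain ⟨n2, hn2⟩ := exists_fst (⟨m3, hm3b⟩ : shf Ta ω ∈ hits b)
    have hn2m : n2 ≤ m3 := by
      by_contra hc
      push Not at hc
      exact hn2.2 m3 hc hm3b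
    refine ⟨Tb, hTb, ?_, ?_⟩
    · refine ⟨v, hv, ?_⟩
      rintro ⟨n, hn, hna⟩
      have hle : Tb + n ≤ Ta := by
        by_contra hc
        push Not at hc
        have := hna (Ta - Tb) (by omega)
        simp only [shf] at this
        rw [Nat.add_sub_cancel' hTbTa.le] at this
        exact this hTa.1
      exact hvno (Tb + n) (by omega) hn
    · refine ⟨Ta - Tb, ⟨?_, ?_⟩, ?_⟩
      · simp only [shf]
        rw [Nat.add_sub_cancel' hTbTa.le]
        exact hTa.1
      · intro m hm
        simp only [shf]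
        exact hTa.2 (Tb + m) (by omega)
      · have hss : shf (Ta - Tb) (shf Tb ω) = shf Ta ω := by
          funext k
          simp only [shf]
          congr 1
          omega
        rw [hss]
        refine ⟨n2, hn2, v, hv, ?_⟩
        rintro ⟨n, hn, hnc⟩
        have hle : Ta + n2 + n ≤ Tc := by
          by_contra hc
          push Not at hc
          have := hnc (Tc - Ta - n2) (by omega)
          simp only [shf] at this
          rw [show Ta + (n2 + (Tc - Ta - n2)) = Tc by omega] at this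
          exact this hTc.1
        simp only [shf] at hn
        exact hvno (Ta + (n2 + n)) (by omega) hn
  have hsub2 : Uc ⊆ Ua ∪ bef c a := by
    rintro ω ⟨v, hv, hω⟩
    by_cases h : ω ∈ bef v a
    · right
      obtain ⟨n, hn, hna⟩ := h
      have : ∃ m < n, ω m = c := by
        by_contra hc
        push Not at hc
        exact hω ⟨n, hn, hc⟩
      obtain ⟨m, hm, hmc⟩ := this
      exact ⟨m, hmc, fun k hk => hna k (hk.trans hm)⟩
    · exact Or.inl ⟨v, hv, h⟩
  have e1 : (μ r).real (aft b (Ua ∩ aft a (aft b Uc))) ≤ (μ b).real Ua * (μ b).real Uc := by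
    calc (μ r).real (aft b (Ua ∩ aft a (aft b Uc)))
        ≤ (μ b).real (Ua ∩ aft a (aft b Uc)) := sm_le hSM hF r b (mUa.inter mA)
      _ = (μ b).real (Ua ∩ hits a) * (μ a).real (aft b Uc) :=
        hSM V G μ hF b a Ua (aft b Uc) mB hdet
      _ ≤ (μ b).real Ua * (μ b).real Uc := by
        refine mul_le_mul (measureReal_mono Set.inter_subset_left) (sm_le hSM hF a b mUc)
          measureReal_nonneg measureReal_nonneg
  have e2 : (μ b).real Uc ≤ (μ b).real Ua + pb μ b c a :=
    (measureReal_mono hsub2).trans (measureReal_union_le _ _)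
  have e3 : (μ r).real (Uc \ aft a (bef c b)) ≤
      ((μ r).real (bef a b) + (μ r).real (bef c a)) +
        ((μ r).real (aft b (Ua ∩ aft a (aft b Uc))) + ((μ r).real (hits a)ᶜ +
          (μ r).real (hits c)ᶜ)) := by
    refine (measureReal_mono hsub).trans ((measureReal_union_le _ _).trans ?_)
    refine add_le_add (measureReal_union_le _ _) ((measureReal_union_le _ _).trans ?_)
    exact add_le_add le_rfl (measureReal_union_le _ _)
  rw [hit_null hF hR, hit_null hF hR] at e3
  have e4 : (μ b).real Ua * (μ b).real Uc ≤ (μ b).real Ua * ((μ b).real Ua + pb μ b c a) :=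
    mul_le_mul_of_nonneg_left e2 measureReal_nonneg
  unfold pb at *
  linarith

end Pool.Agent.R695.CC
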