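import Pool.Agent.R695.CC.Bad

set_option autoImplicit false

open MeasureTheory ProbabilityTheory Finset
open scoped ENNReal

namespace Pool.Agent.R695.CC.Q

/-- the parameters; `ν` is an upper bound for `1 / n` -/
structure Par (M ε lam δ ν : ℝ) (k i0 i1 m : ℕ) : Prop where
  M0 : 0 < M
  ε0 : 0 < ε
  ε1 : ε ≤ 1
  l0 : 0 < lam
  l1 : lam ≤ 1
  δ0 : 0 < δ
  c1 : 3 / ε ≤ 2 ^ m
  c2 : 15 * ε * (m + 3) ≤ M / 4
  c3 : δ ≤ ε / 2
  c3' : δ ≤ M / 4
  c4 : 4 * ((i0 : ℝ) + 1) / k ≤ ε / 2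
  c5 : 24 * k * lam ≤ ε
  c6 : 8 * lam ≤ ε
  c7 : 768 * (k : ℝ) ^ 2 * δ ≤ ε
  c8 : 128 * δ ≤ lam
  c9 : 576 * k * δ / (ε * lam) ≤ M / 64
  c10 : 3267 * lam * (k : ℝ) ^ 2 / ε ^ 2 ≤ M / 64
  e1 : 96 * (k : ℝ) ^ 3 * δ / ε ≤ 1
  e1' : 96 * (k : ℝ) ^ 3 * δ / ε ≤ M / 128
  e2 : 3 * k / ((i1 : ℝ) + 2) + 1 ≤
    1 / 3 * (∑ s ∈ Finset.Icc 3 (i0 - i1 + 2), 1 / (s : ℝ)) * (M / 64)
  i1pos : 1 ≤ i1
  i10 : i1 < i0
  i0k : i0 + 2 ≤ k
  n1 : ν ≤ lam
  n2 : ν ≤ ε
  n3 : 128 * (k : ℝ) ^ 2 * ν ≤ ε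

section
variable {V : Type} [Fintype V] [MeasurableSpace V]
  {G : SimpleGraph V} {μ : V → Measure (ℕ → V)}

lemma DD_le (n : ℕ) (hn : Fintype.card V = n + 1) (hn1 : 1 ≤ n) : DD G ≤ 2 * (n : ℝ) ^ 2 := by
  classical
  have h1 : ∀ x, dg G x ≤ n := by
    intro x
    unfold dg
    have : (Finset.univ.filter fun y => G.Adj x y).card ≤ n := by
      have h2 : (Finset.univ.filter fun y => G.Adj x y) ⊆ Finset.univ.erase x := by
        intro y hy
        simp only [Finset.mem_filter, Finset.mem_univ, true_and] at hy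
        simp only [Finset.mem_erase, Finset.mem_univ, and_true]
        exact hy.ne'
      have h3 := Finset.card_le_card h2
      rw [Finset.card_erase_of_mem (Finset.mem_univ x), Finset.card_univ, hn] at h3
      simpa using h3
    exact_mod_cast this
  have h4 : DD G ≤ ∑ _x : V, (n : ℝ) := Finset.sum_le_sum fun x _ => h1 x
  rw [Finset.sum_const, Finset.card_univ, hn, nsmul_eq_mul] at h4
  have h5 : (1 : ℝ) ≤ n := by exact_mod_cast hn1
  push_cast at h4
  nlinarith

lemma path_h (hR : Rec G μ) (hP : Pot G μ) (w : ℕ → V) (s : ℕ) :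
    ∀ m : ℕ, (∀ t < m, G.Adj (w (s + t)) (w (s + t + 1))) →
      h μ (w s) (w (s + m)) ≤ m * DD G ∧ h μ (w (s + m)) (w s) ≤ m * DD G := by
  intro m
  induction m with
  | zero => intro _; simp [hR.hxx]
  | succ m ih =>
    intro hw
    obtain ⟨h1, h2⟩ := ih fun t ht => hw t (by omega)
    have h3 := hP.edge _ _ (hw m (by omega))
    have h4 := hP.edge _ _ (hw m (by omega)).symm
    have h5 := hP.tri (w s) (w (s + m)) (w (s + m + 1))
    have h6 := hP.tri (w (s + m + 1)) (w (s + m)) (w s)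
    rw [← add_assoc]
    push_cast
    constructor <;> linarith

lemma h_le (hR : Rec G μ) (hP : Pot G μ) (hD0 : 0 ≤ DD G) (n : ℕ) (w : ℕ → V)
    (hw : ∀ t < 2 * n, G.Adj (w t) (w (t + 1))) (hcov : ∀ v, ∃ t ≤ 2 * n, w t = v) (x y : V) :
    h μ x y ≤ 2 * n * DD G := by
  obtain ⟨s, hs, rfl⟩ := hcov x
  obtain ⟨t, ht, rfl⟩ := hcov y
  rcases le_total s t with hst | hst
  · obtain ⟨m, rfl⟩ := Nat.exists_eq_add_of_le hst
    refine (path_h hR hP w s m fun t _ => hw _ (by omega)).1.trans ?_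
    have : (m : ℝ) ≤ 2 * n := by exact_mod_cast (by omega : m ≤ 2 * n)
    exact mul_le_mul_of_nonneg_right this hD0
  · obtain ⟨m, rfl⟩ := Nat.exists_eq_add_of_le hst
    refine (path_h hR hP w t m fun t _ => hw _ (by omega)).2.trans ?_
    have : (m : ℝ) ≤ 2 * n := by exact_mod_cast (by omega : m ≤ 2 * n)
    exact mul_le_mul_of_nonneg_right this hD0

/-- extension of the tour to all times -/
lemma tour_ext (n : ℕ) (hn1 : 1 ≤ n) (w : ℕ → V)
    (hw : ∀ t < 2 * n, G.Adj (w t) (w (t + 1))) :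
    ∃ w' : ℕ → V, (∀ t, G.Adj (w' t) (w' (t + 1))) ∧ ∀ t ≤ 2 * n, w' t = w t := by
  refine ⟨fun t => if t ≤ 2 * n then w t else if t % 2 = 0 then w (2 * n) else w (2 * n - 1),
    fun t => ?_, fun t ht => by simp [ht]⟩
  have hlast : G.Adj (w (2 * n - 1)) (w (2 * n)) := by
    have := hw (2 * n - 1) (by omega)
    rwa [show 2 * n - 1 + 1 = 2 * n by omega] at this
  by_cases h1 : t < 2 * n
  · simp only [show t ≤ 2 * n by omega, show t + 1 ≤ 2 * n by omega, if_true]
    exact hw t h1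
  · by_cases h2 : t = 2 * n
    · subst h2
      simp only [le_refl, if_true, show ¬ (2 * n + 1 ≤ 2 * n) by omega, if_false,
        show ¬ ((2 * n + 1) % 2 = 0) by omega]
      exact hlast.symm
    · simp only [show ¬ (t ≤ 2 * n) by omega, show ¬ (t + 1 ≤ 2 * n) by omega, if_false]
      rcases Nat.mod_two_eq_zero_or_one t with h3 | h3
      · simp only [h3, if_true, show ¬ ((t + 1) % 2 = 0) by omega, if_false]
        exact hlast.symm
      · simp only [h3, one_ne_zero, if_false, show (t + 1) % 2 = 0 by omega, if_true]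
        exact hlast

end

/-- expected time to cover the low points -/
theorem low_cover (h2 : S_CT2) (h3 : S_CT3) {V : Type} [Fintype V] [MeasurableSpace V]
    [DiscreteMeasurableSpace V] {G : SimpleGraph V} {μ : V → Measure (ℕ → V)} (hF : Fam G μ)
    (hR : Rec G μ) (hP : Pot G μ) {r c : V} {H : ℝ} (hQ : QLs μ r c H) (hD0 : 0 ≤ DD G)
    (hH0 : 0 ≤ H) (L K m : ℕ) (hL1 : 1 ≤ L) (w : ℕ → V) (hw : ∀ t, G.Adj (w t) (w (t + 1)))
    (hcov : ∀ v, ∃ t < K * L, w t = v) (hK : K ≤ 2 ^ m) (β : ℝ) (hβ : 0 ≤ β) (x : V) :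
    cv μ x {v | h μ c v < β} ≤ (2 * (2 * H + β + L * DD G) + 1) * (m + 3) := by
  classical
  set S : ℕ → Set V := fun j => {v | h μ c v < β ∧ ∃ t < L, w (j * L + t) = v} with hS
  have hU : {v | h μ c v < β} = ⋃ j ∈ Finset.range K, S j := by
    ext v
    simp only [Set.mem_setOf_eq, Set.mem_iUnion, Finset.mem_range, hS, exists_prop]
    constructor
    · intro hv
      obtain ⟨t, ht, hwt⟩ := hcov v
      have hjt : t / L * L + t % L = t := Nat.div_add_mod' t L
      exact ⟨t / L, Nat.div_lt_of_lt_mul (by rwa [mul_comm] at ht), hv, t % L,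
        Nat.mod_lt _ (by omega), by rw [hjt]; exact hwt⟩
    · rintro ⟨j, _, hv, _⟩
      exact hv
  rw [hU]
  refine h3 V G μ hF hR K m S (2 * H + β + L * DD G) hK (by positivity) ?_ x
  intro x j _
  by_cases hne : ∃ t < L, h μ c (w (j * L + t)) < β
  · -- first such t
    set t0 := Nat.find hne with ht0
    have hspec := Nat.find_spec hne
    have hmin : ∀ s < t0, ¬ (s < L ∧ h μ c (w (j * L + s)) < β) := fun s hs => Nat.find_min hne hs
    have hcvx := h2 V G μ hF hR (L - t0) (fun s => w (j * L + t0 + s)) (S j) (by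
      rintro v ⟨hv, t, ht, rfl⟩
      have htt : t0 ≤ t := by
        by_contra hlt
        push Not at hlt
        exact hmin t hlt ⟨ht, hv⟩
      exact ⟨t - t0, by omega, by
        show w (j * L + t0 + (t - t0)) = _
        congr 1; omega⟩) x
    refine hcvx.trans ?_
    have a1 : h μ x (w (j * L + t0 + 0)) ≤ 2 * H + β := by
      have b1 := hP.tri x c (w (j * L + t0))
      have b2 := hQ.hc x
      have b3 := hspec.2
      simp only [add_zero]
      linarith
    have a2 : ∑ t ∈ Finset.range (L - t0), h μ (w (j * L + t0 + t)) (w (j * L + t0 + (t + 1))) ≤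
        L * DD G := by
      have c1 : ∀ t ∈ Finset.range (L - t0),
          h μ (w (j * L + t0 + t)) (w (j * L + t0 + (t + 1))) ≤ DD G := by
        intro t _
        exact hP.edge _ _ (hw (j * L + t0 + t))
      refine (Finset.sum_le_sum c1).trans ?_
      rw [Finset.sum_const, Finset.card_range, nsmul_eq_mul]
      exact mul_le_mul_of_nonneg_right (by exact_mod_cast Nat.sub_le _ _) hD0
    linarith
  · have hempty : S j = ∅ := by
      ext v
      simp only [hS, Set.mem_setOf_eq, Set.mem_empty_iff_false, iff_false]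
      rintro ⟨hv, t, ht, rfl⟩
      exact hne ⟨t, ht, hv⟩
    rw [hempty]
    have : cv μ x (∅ : Set V) = 0 := by
      unfold cv unc
      simp
    rw [this]
    positivity

end Pool.Agent.R695.CC.Q
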