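import Mathlib
import Pool.Agent.R695.CC.Stm

/-! Project CC: measurability and elementary facts on the events of the walk. -/

set_option autoImplicit false

open MeasureTheory ProbabilityTheory Finset
open scoped ENNReal

namespace Pool.Agent.R695.CC.E394

variable {V : Type}

theorem exists_fst {y : V} {ω : ℕ → V} (h : ω ∈ hits y) : ∃ n, ω ∈ fst y n := by
  classical
  obtain ⟨n, hn⟩ := h
  have h1 : ∃ n, ω n = y := ⟨n, hn⟩
  exact ⟨Nat.find h1, Nat.find_spec h1, fun m hm => Nat.find_min h1 hm⟩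

theorem fst_le {y : V} {ω : ℕ → V} {n m : ℕ} (h : ω ∈ fst y n) (hm : ω m = y) : n ≤ m := by
  by_contra hc
  exact h.2 m (not_le.1 hc) hm

theorem fst_unique {y : V} {ω : ℕ → V} {n m : ℕ} (h : ω ∈ fst y n) (h' : ω ∈ fst y m) : n = m :=
  le_antisymm (fst_le h h'.1) (fst_le h' h.1)

theorem shf_shf (a b : ℕ) (ω : ℕ → V) : shf b (shf a ω) = shf (a + b) ω := by
  funext k
  simp [shf, add_assoc]

theorem bef_sub_hits (a b : V) : bef a b ⊆ hits a := fun _ ⟨n, hn, _⟩ => ⟨n, hn⟩

theorem aft_sub_hits (y : V) (F : Set (ℕ → V)) : aft y F ⊆ hits y := fun _ ⟨n, hn, _⟩ => ⟨n, hn.1⟩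

theorem aft_mono (y : V) {F F' : Set (ℕ → V)} (h : F ⊆ F') : aft y F ⊆ aft y F' :=
  fun _ ⟨n, hn, hF⟩ => ⟨n, hn, h hF⟩

theorem det_univ (y : V) : Det y Set.univ := fun _ _ _ _ _ _ => trivial

theorem det_inter {y : V} {E E' : Set (ℕ → V)} (h : Det y E) (h' : Det y E') : Det y (E ∩ E') :=
  fun ω ω' n hn hm hE => ⟨h ω ω' n hn hm hE.1, h' ω ω' n hn hm hE.2⟩

theorem det_compl {y : V} {E : Set (ℕ → V)} (h : Det y E) : Det y Eᶜ := by
  intro ω ω' n hn hm hE hE'
  refine hE (h ω' ω n ⟨?_, ?_⟩ (fun m hmn => (hm m hmn).symm) hE')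
  · rw [hm n le_rfl]; exact hn.1
  · intro m hmn
    rw [hm m hmn.le]; exact hn.2 m hmn

theorem det_bef_left (a b : V) : Det a (bef a b) := by
  intro ω ω' n hn hm hE
  obtain ⟨p, hp, hpb⟩ := hE
  refine ⟨n, by rw [hm n le_rfl]; exact hn.1, fun m hmn => ?_⟩
  rw [hm m hmn.le]
  exact hpb m (lt_of_lt_of_le hmn (fst_le hn hp))

theorem det_bef_right (a b : V) : Det b (bef a b) := by
  intro ω ω' n hn hm hE
  obtain ⟨p, hp, hpb⟩ := hE
  have hpn : p ≤ n := by
    by_contra hc
    exact hpb n (not_le.1 hc) hn.1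
  refine ⟨p, by rw [hm p hpn]; exact hp, fun m hmn => ?_⟩
  rw [hm m (hmn.le.trans hpn)]
  exact hpb m hmn

variable [MeasurableSpace V] [DiscreteMeasurableSpace V]

theorem meas_eq (n : ℕ) (y : V) : MeasurableSet {ω : ℕ → V | ω n = y} := by
  have h : Measurable (fun ω : ℕ → V => ω n) := measurable_pi_apply n
  have h1 : MeasurableSet ((fun ω : ℕ → V => ω n) ⁻¹' {y}) := h (MeasurableSet.of_discrete)
  exact h1

theorem meas_ne (n : ℕ) (y : V) : MeasurableSet {ω : ℕ → V | ω n ≠ y} := (meas_eq n y).compl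

theorem meas_hits (y : V) : MeasurableSet (hits y) := by
  unfold hits
  rw [Set.setOf_exists]
  exact MeasurableSet.iUnion fun n => meas_eq n y

theorem meas_forall_lt (b : V) (n : ℕ) : MeasurableSet {ω : ℕ → V | ∀ m < n, ω m ≠ b} := by
  simp only [Set.setOf_forall]
  exact MeasurableSet.iInter fun m => MeasurableSet.iInter fun _ => meas_ne m b

theorem meas_forall_le (b : V) (n : ℕ) : MeasurableSet {ω : ℕ → V | ∀ m ≤ n, ω m ≠ b} := by
  simp only [Set.setOf_forall]
  exact MeasurableSet.iInter fun m => MeasurableSet.iInter fun _ => meas_ne m b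

theorem meas_bef (a b : V) : MeasurableSet (bef a b) := by
  unfold bef
  rw [Set.setOf_exists]
  exact MeasurableSet.iUnion fun n => (meas_eq n a).inter (meas_forall_lt b n)

theorem meas_fst (y : V) (n : ℕ) : MeasurableSet (fst y n) := (meas_eq n y).inter (meas_forall_lt y n)

theorem measurable_shf (n : ℕ) : Measurable (shf n : (ℕ → V) → (ℕ → V)) :=
  measurable_pi_lambda _ fun _ => measurable_pi_apply _

theorem meas_aft (y : V) {F : Set (ℕ → V)} (hF : MeasurableSet F) : MeasurableSet (aft y F) := by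
  unfold aft
  rw [Set.setOf_exists]
  exact MeasurableSet.iUnion fun n => (meas_fst y n).inter (measurable_shf n hF)

theorem meas_AA (y : ℕ → V) (i : ℕ) : MeasurableSet (AA y i) := meas_aft _ (meas_bef _ _)

theorem meas_forall_mid (b : V) (n s : ℕ) :
    MeasurableSet {ω : ℕ → V | ∀ m, n ≤ m → m ≤ s → ω m ≠ b} := by
  simp only [Set.setOf_forall]
  exact MeasurableSet.iInter fun m => MeasurableSet.iInter fun _ => MeasurableSet.iInter fun _ =>
    meas_ne m _

theorem meas_GG (y : ℕ → V) (i l : ℕ) : MeasurableSet (GG y i l) := by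
  unfold GG
  simp only [Set.setOf_exists]
  refine MeasurableSet.iUnion fun n => MeasurableSet.iUnion fun s => ?_
  exact (meas_fst (y l) n).inter ((MeasurableSet.const _).inter ((meas_eq s _).inter
    ((meas_forall_mid _ n s).inter (meas_forall_le _ s))))

theorem meas_FF (y : ℕ → V) (k i : ℕ) : MeasurableSet (FF y k i) := by
  unfold FF
  simp only [Set.setOf_forall]
  exact MeasurableSet.iInter fun l => MeasurableSet.iInter fun _ => MeasurableSet.iInter fun _ =>
    meas_GG y i l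

theorem det_FF (y : ℕ → V) (k i : ℕ) : Det (y i) (FF y k i) := by
  intro ω ω' n hn hm hE l hl hlk
  obtain ⟨p, s, hp, hps, hs, h0, hi⟩ := hE l hl hlk
  have hsn : s < n := by
    by_contra hc
    exact hi n (not_lt.1 hc) hn.1
  refine ⟨p, s, ⟨?_, ?_⟩, hps, ?_, ?_, ?_⟩
  · rw [hm p (hps.trans hsn.le)]; exact hp.1
  · intro m hmp
    rw [hm m (by omega)]; exact hp.2 m hmp
  · rw [hm s hsn.le]; exact hs
  · intro m h1 h2
    rw [hm m (by omega)]; exact h0 m h1 h2
  · intro m h1
    rw [hm m (by omega)]; exact hi m h1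

/-- the sets `AA y l` and `GG y i l` are disjoint -/
theorem GG_disj (y : ℕ → V) (i l : ℕ) (ω : ℕ → V) (h : ω ∈ GG y i l) (h' : ω ∈ AA y l) : False := by
  obtain ⟨p, s, hp, hps, hs, h0, hi⟩ := h
  obtain ⟨p', hp', q, hq, hq'⟩ := h'
  obtain rfl := fst_unique hp hp'
  simp only [shf] at hq hq'
  have h1 : s < p + q := by
    by_contra hc
    exact h0 (p + q) (by omega) (by omega) hq
  have h2 := hq' (s - p) (by omega)
  rw [show p + (s - p) = s by omega] at h2
  exact h2 hs

end Pool.Agent.R695.CC.E394
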