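import Pool.Agent.R695.CC.Stm

/-!
# Cover time and cover cost as sums (`S_LINK`)
-/

set_option autoImplicit false
set_option linter.unusedSectionVars false

open MeasureTheory ProbabilityTheory Finset
open scoped ENNReal

namespace Pool.Agent.R695.CC

namespace LK

variable {V : Type} [Fintype V] [MeasurableSpace V] [DiscreteMeasurableSpace V]

lemma avd_meas (v : V) (t : ℕ) : MeasurableSet (avd v t) := by
  have : avd v t = ⋂ s ∈ Finset.Iic t, (fun ω : ℕ → V => ω s) ⁻¹' {v}ᶜ := by
    ext ω; simp [avd]
  rw [this]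
  exact Finset.measurableSet_biInter _ fun s _ => (measurable_pi_apply s) (MeasurableSet.of_discrete)

omit [Fintype V] [MeasurableSpace V] [DiscreteMeasurableSpace V] in
lemma unc_eq (t : ℕ) : unc (Set.univ : Set V) t = ⋃ v : V, avd v t := by
  ext ω
  simp [unc, avd]

lemma unc_meas (t : ℕ) : MeasurableSet (unc (Set.univ : Set V) t) := by
  rw [unc_eq]
  exact MeasurableSet.iUnion fun v => avd_meas v t

lemma iInf_eq_tsum (A : Set ℕ) [DecidablePred fun t => ∀ s ≤ t, s ∉ A] :
    ⨅ (t : ℕ) (_ : t ∈ A), (t : ℝ≥0∞) = ∑' t : ℕ, if ∀ s ≤ t, s ∉ A then 1 else 0 := by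
  classical
  by_cases h : ∃ t, t ∈ A
  · have hn := Nat.find_spec h
    set n := Nat.find h with hndef
    have hmin : ∀ s, s < n → s ∉ A := fun s hs => Nat.find_min h hs
    have h1 : ⨅ (t : ℕ) (_ : t ∈ A), (t : ℝ≥0∞) = n := by
      apply le_antisymm
      · exact iInf₂_le n hn
      · refine le_iInf₂ fun t ht => ?_
        have : n ≤ t := by
          by_contra hlt
          exact hmin t (not_le.1 hlt) ht
        exact_mod_cast this
    have h2 : ∀ t, (∀ s ≤ t, s ∉ A) ↔ t < n := by
      intro t
      constructor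
      · intro ht
        by_contra hle
        exact ht n (not_lt.1 hle) hn
      · intro ht s hs
        exact hmin s (lt_of_le_of_lt hs ht)
    rw [h1]
    simp_rw [h2]
    rw [tsum_eq_sum (s := Finset.range n)]
    · rw [Finset.sum_congr rfl (g := fun _ => (1 : ℝ≥0∞))]
      · simp
      · intro x hx; simp [Finset.mem_range.1 hx]
    · intro b hb
      simp only [Finset.mem_range] at hb
      simp [hb]
  · push Not at h
    have : ∀ t : ℕ, (∀ s ≤ t, s ∉ A) ↔ True := fun t => by simp [h]
    simp only [this, if_true]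
    simp [h]

lemma cover_eq (ω : ℕ → V) :
    coverTime ω = ∑' t : ℕ, (unc (Set.univ : Set V) t).indicator (fun _ => (1 : ℝ≥0∞)) ω := by
  classical
  have := iInf_eq_tsum {t | ∀ v : V, ∃ s ≤ t, ω s = v}
  unfold coverTime
  refine Eq.trans this (tsum_congr fun t => ?_)
  rw [Set.indicator_apply]
  congr 1
  simp only [Set.mem_ofPred_eq, eq_iff_iff, unc, Set.mem_univ, true_and, not_forall, not_exists,
    not_and]
  constructor
  · intro h
    exact h t le_rfl
  · rintro ⟨v, hv⟩ s hs
    exact ⟨v, fun u hu => hv u (hu.trans hs)⟩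

open Classical in
lemma cost_eq (hV : 2 ≤ Fintype.card V) (ω : ℕ → V) (t : ℕ) :
    stepCost (Fintype.card V - 1) ω t = ∑ v, (avd v t).indicator
      (fun _ => ENNReal.ofReal (1 / ((Fintype.card V : ℝ) - 1))) ω := by
  have hn : ((Fintype.card V - 1 : ℕ) : ℝ) = (Fintype.card V : ℝ) - 1 := by
    rw [Nat.cast_sub (by omega), Nat.cast_one]
  have hpos : (0 : ℝ) < (Fintype.card V : ℝ) - 1 := by
    have : (2 : ℝ) ≤ (Fintype.card V : ℝ) := by exact_mod_cast hV
    linarith
  -- counting
  have h1 : (Finset.univ.filter fun v : V => ω ∈ avd v t).card + seen ω t + 1 = Fintype.card V := by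
    have e1 : (Finset.univ.filter fun v : V => ω ∈ avd v t).card +
        (Finset.univ.filter fun v : V => ¬ ω ∈ avd v t).card = Fintype.card V := by
      rw [Finset.card_filter_add_card_filter_not, Finset.card_univ]
    have e2 : (Finset.univ.filter fun v : V => ¬ ω ∈ avd v t) = insert (ω 0)
        (Finset.univ.filter fun v : V => v ≠ ω 0 ∧ ∃ s ≤ t, ω s = v) := by
      ext v
      simp only [avd, Set.mem_ofPred_eq, Finset.mem_filter, Finset.mem_univ, true_and,
        Finset.mem_insert, not_forall, not_not]
      constructor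
      · rintro ⟨s, hs, h⟩
        by_cases hv : v = ω 0
        · exact Or.inl hv
        · exact Or.inr ⟨hv, s, hs, h⟩
      · rintro (h | ⟨_, s, hs, h⟩)
        · exact ⟨0, Nat.zero_le _, h.symm⟩
        · exact ⟨s, hs, h⟩
    have e3 : (Finset.univ.filter fun v : V => ¬ ω ∈ avd v t).card = seen ω t + 1 := by
      rw [e2, Finset.card_insert_of_notMem (by simp)]
      rfl
    omega
  have h2 : (((Finset.univ.filter fun v : V => ω ∈ avd v t).card : ℕ) : ℝ) =
      (Fintype.card V : ℝ) - 1 - seen ω t := by
    have : (((Finset.univ.filter fun v : V => ω ∈ avd v t).card : ℕ) : ℝ) + seen ω t + 1 =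
        (Fintype.card V : ℝ) := by exact_mod_cast h1
    linarith
  have h3 : ∑ v, (avd v t).indicator
      (fun _ => ENNReal.ofReal (1 / ((Fintype.card V : ℝ) - 1))) ω =
      ((Finset.univ.filter fun v : V => ω ∈ avd v t).card : ℝ≥0∞) *
        ENNReal.ofReal (1 / ((Fintype.card V : ℝ) - 1)) := by
    simp only [Set.indicator_apply]
    rw [← Finset.sum_filter, Finset.sum_const, nsmul_eq_mul]
  rw [h3, stepCost, hn, ← ENNReal.ofReal_natCast, ← ENNReal.ofReal_mul (Nat.cast_nonneg _), h2]
  congr 1
  field_simp

end LK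

open LK in
theorem LINK_ok : S_LINK := by
  classical
  intro V _ _ _ G h2 hG hF hR r
  have hprob := hF.prob r
  have hpos : (0 : ℝ) < (Fintype.card V : ℝ) - 1 := by
    have : (2 : ℝ) ≤ (Fintype.card V : ℝ) := by exact_mod_cast h2
    linarith
  have hreal : ∀ A : Set (ℕ → V), walkLaw G r A = ENNReal.ofReal ((walkLaw G r).real A) :=
    fun A => (ofReal_measureReal (measure_ne_top _ _)).symm
  constructor
  · unfold CT
    simp_rw [cover_eq]
    rw [lintegral_tsum fun t => (measurable_const.indicator (unc_meas t)).aemeasurable]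
    have hs : Summable fun t => (walkLaw G r).real (unc (Set.univ : Set V) t) := by
      refine Summable.of_nonneg_of_le (fun t => measureReal_nonneg)
        (f := fun t => ∑ y, (walkLaw G r).real (avd y t)) (fun t => ?_)
        (summable_sum fun y _ => hR.sum r y)
      rw [unc_eq]
      have := measureReal_biUnion_finset_le (μ := walkLaw G r) (Finset.univ : Finset V)
        (fun y => avd y t)
      simpa using this
    rw [cv, ENNReal.ofReal_tsum_of_nonneg (fun t => measureReal_nonneg) hs]
    refine tsum_congr fun t => ?_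
    rw [lintegral_indicator_const (unc_meas t), one_mul, hreal]
  · unfold cc
    simp_rw [cost_eq h2]
    rw [lintegral_tsum fun t => (Finset.measurable_sum _ fun v _ =>
      measurable_const.indicator (avd_meas v t)).aemeasurable]
    have h3 : ∀ t, ∫⁻ ω, ∑ v, (avd v t).indicator
        (fun _ => ENNReal.ofReal (1 / ((Fintype.card V : ℝ) - 1))) ω ∂(walkLaw G r) =
        ENNReal.ofReal (∑ v, 1 / ((Fintype.card V : ℝ) - 1) * (walkLaw G r).real (avd v t)) := by
      intro t
      rw [lintegral_finsetSum _ fun v _ => measurable_const.indicator (avd_meas v t),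
        ENNReal.ofReal_sum_of_nonneg fun v _ => mul_nonneg (by positivity) measureReal_nonneg]
      refine Finset.sum_congr rfl fun v _ => ?_
      rw [lintegral_indicator_const (avd_meas v t), hreal, ENNReal.ofReal_mul (by positivity)]
    simp_rw [h3]
    have hs : Summable fun t => ∑ v, 1 / ((Fintype.card V : ℝ) - 1) *
        (walkLaw G r).real (avd v t) :=
      summable_sum fun v _ => (hR.sum r v).mul_left _
    rw [← ENNReal.ofReal_tsum_of_nonneg (fun t => Finset.sum_nonneg fun v _ =>
      mul_nonneg (by positivity) measureReal_nonneg) hs]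
    congr 1
    rw [Summable.tsum_finsetSum fun v _ => (hR.sum r v).mul_left _, Finset.sum_div]
    refine Finset.sum_congr rfl fun v _ => ?_
    rw [tsum_mul_left, h]
    ring

end Pool.Agent.R695.CC
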