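import Mathlib
import Pool.Agent.R695.CC.Stm
import Pool.Agent.R695.CC.Ev394

/-! Project CC, piece PA. -/

set_option autoImplicit false

open MeasureTheory ProbabilityTheory Finset
open scoped ENNReal

namespace Pool.Agent.R695.CC

open E394 in
theorem PA_ok : S_SM → S_PA := by
  intro hSM V _ _ _ G μ hF hR r y k i1 η hP i hi1 hik
  classical
  haveI := hF.prob r
  set N : ℕ → Set (ℕ → V) := fun l => (hits (y l))ᶜ ∪ aft (y l) (hits (y 0))ᶜ with hN
  set B : ℕ → Set (ℕ → V) := fun l => N l ∪ (bef (y i) (y l) ∪ aft (y i) (bef (y (l + 2)) (y (i + 2)))) with hB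
  have hsub : AA y i \ ⋃ l ∈ Finset.Ioc i (k - 2), AA y l ⊆
      (FF y k i ∩ AA y i) ∪ ⋃ l ∈ Finset.Ioc i (k - 2), B l := by
    rintro ω ⟨hA, hAl⟩
    by_cases hFF : ω ∈ FF y k i
    · exact Or.inl ⟨hFF, hA⟩
    right
    have h1 : ∃ l, i < l ∧ l + 2 ≤ k ∧ ω ∉ GG y i l := by
      by_contra hc
      push Not at hc
      exact hFF fun l hl hlk => hc l hl hlk
    obtain ⟨l, hil, hlk, hG⟩ := h1
    have hlI : l ∈ Finset.Ioc i (k - 2) := Finset.mem_Ioc.2 ⟨hil, by omega⟩
    have hAl' : ω ∉ AA y l := by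
      intro h
      exact hAl (Set.mem_biUnion hlI h)
    refine Set.mem_biUnion hlI ?_
    by_cases hh : ω ∈ hits (y l)
    swap
    · exact Or.inl (Or.inl hh)
    obtain ⟨T, hT⟩ := exists_fst hh
    by_cases h0 : shf T ω ∈ hits (y 0)
    swap
    · exact Or.inl (Or.inr ⟨T, hT, h0⟩)
    obtain ⟨u, hu⟩ := exists_fst h0
    have h2 : ∃ m < u, shf T ω m = y (l + 2) := by
      by_contra hc
      push Not at hc
      exact hAl' ⟨T, hT, u, hu.1, hc⟩
    obtain ⟨m, hmu, hm⟩ := h2
    have hno : ∀ t, T ≤ t → t ≤ T + m → ω t ≠ y 0 := by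
      intro t h3 h4 h5
      have h6 := hu.2 (t - T) (by omega)
      simp only [shf] at h6
      rw [show T + (t - T) = t by omega] at h6
      exact h6 h5
    have h3 : ∃ m' ≤ T + m, ω m' = y i := by
      by_contra hc
      push Not at hc
      exact hG ⟨T, T + m, hT, by omega, hm, hno, hc⟩
    obtain ⟨m', hm', hmi⟩ := h3
    obtain ⟨U, hU⟩ := exists_fst (y := y i) (ω := ω) ⟨m', hmi⟩
    have hUm : U ≤ m' := fst_le hU hmi
    have hUT : U ≠ T := by
      rintro rfl
      have h5 : y i = y l := hU.1.symm.trans hT.1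
      have := hP.inj i l (by omega) (by omega) h5
      omega
    have hUs : U ≠ T + m := by
      rintro h5
      have h6 : y i = y (l + 2) := by
        rw [← hU.1, h5]
        exact hm
      have := hP.inj i (l + 2) (by omega) (by omega) h6
      omega
    rcases lt_or_gt_of_ne hUT with h5 | h5
    · refine Or.inr (Or.inl ⟨U, hU.1, fun t ht => hT.2 t (by omega)⟩)
    · refine Or.inr (Or.inr ⟨U, hU, ?_⟩)
      obtain ⟨U', hU', p, hp, hpn⟩ := hA
      obtain rfl := fst_unique hU hU'
      simp only [shf] at hp hpn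
      have h6 : T + m < U + p := by
        by_contra hc
        exact hno (U + p) (by omega) (by omega) hp
      refine ⟨T + m - U, ?_, fun t ht => ?_⟩
      · simp only [shf]
        rw [show U + (T + m - U) = T + m by omega]
        exact hm
      · exact hpn t (by omega)
  have hmain : (μ r).real (FF y k i ∩ AA y i) =
      (μ r).real (FF y k i ∩ hits (y i)) * pb μ (y i) (y 0) (y (i + 2)) :=
    hSM V G μ hF r (y i) (FF y k i) (bef (y 0) (y (i + 2))) (meas_bef _ _) (det_FF y k i)
  have hBl : ∀ l ∈ Finset.Ioc i (k - 2), (μ r).real (B l) ≤ 2 * η := by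
    intro l hl
    rw [Finset.mem_Ioc] at hl
    have hlk : l + 2 ≤ k := by omega
    have e1 : (μ r).real (hits (y l))ᶜ = 0 := by
      rw [measureReal_compl (meas_hits _), hR.hit]
      simp
    have e2 : (μ r).real (aft (y l) (hits (y 0))ᶜ) = 0 := by
      have h1 := hSM V G μ hF r (y l) Set.univ (hits (y 0))ᶜ (meas_hits _).compl (det_univ _)
      haveI := hF.prob (y l)
      have h2 : (μ (y l)).real (hits (y 0))ᶜ = 0 := by
        rw [measureReal_compl (meas_hits _), hR.hit]
        simp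
      rw [Set.univ_inter, h2, mul_zero] at h1
      exact h1
    have e3 : (μ r).real (bef (y i) (y l)) ≤ η := hP.j2 i l hl.1 (by omega)
    have e4 : (μ r).real (aft (y i) (bef (y (l + 2)) (y (i + 2)))) ≤ η := by
      have h1 := hSM V G μ hF r (y i) Set.univ (bef (y (l + 2)) (y (i + 2))) (meas_bef _ _) (det_univ _)
      rw [Set.univ_inter, Set.univ_inter, hR.hit, one_mul] at h1
      rw [h1]
      exact hP.j1 i (l + 2) hi1 (by omega) hlk
    have e5 := measureReal_union_le (μ := μ r) (N l) (bef (y i) (y l) ∪ aft (y i) (bef (y (l + 2)) (y (i + 2))))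
    have e6 := measureReal_union_le (μ := μ r) (hits (y l))ᶜ (aft (y l) (hits (y 0))ᶜ)
    have e7 := measureReal_union_le (μ := μ r) (bef (y i) (y l)) (aft (y i) (bef (y (l + 2)) (y (i + 2))))
    simp only [hB]
    simp only [hN] at e5 ⊢
    linarith
  have h3 : (μ r).real (⋃ l ∈ Finset.Ioc i (k - 2), B l) ≤ 2 * k * η := by
    refine (measureReal_biUnion_finset_le _ _).trans ?_
    refine (Finset.sum_le_sum hBl).trans ?_
    rw [Finset.sum_const, Nat.card_Ioc, nsmul_eq_mul]
    have h4 : ((k - 2 - i : ℕ) : ℝ) ≤ k := by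
      exact_mod_cast (by omega : k - 2 - i ≤ k)
    nlinarith [hP.eta]
  calc (μ r).real (AA y i \ ⋃ l ∈ Finset.Ioc i (k - 2), AA y l)
      ≤ (μ r).real ((FF y k i ∩ AA y i) ∪ ⋃ l ∈ Finset.Ioc i (k - 2), B l) :=
        measureReal_mono hsub (measure_ne_top _ _)
    _ ≤ (μ r).real (FF y k i ∩ AA y i) + (μ r).real (⋃ l ∈ Finset.Ioc i (k - 2), B l) :=
        measureReal_union_le _ _
    _ ≤ _ := by rw [hmain]; linarith

end Pool.Agent.R695.CC
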