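import Mathlib
import Pool.Agent.R695.CC.Stm
import Pool.Agent.R695.CC.Ev394

/-! Project CC, piece PB. -/

set_option autoImplicit false

open MeasureTheory ProbabilityTheory Finset
open scoped ENNReal

namespace Pool.Agent.R695.CC

open E394 in
theorem PB_ok : S_SM → S_PB := by
  intro hSM V _ _ _ G μ hF hR r y k i1 η hP i j hj1 hji hik
  classical
  haveI := hF.prob r
  haveI := hF.prob (y i)
  haveI := hF.prob (y j)
  have hη := hP.eta
  have hji' : (j : ℝ) < i := by exact_mod_cast hji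
  have hj0 : (0 : ℝ) ≤ j := Nat.cast_nonneg j
  have hpos1 : (0 : ℝ) < (i : ℝ) + 2 - j := by linarith
  have hpos2 : (0 : ℝ) < (j : ℝ) + 2 := by linarith
  set E : Set (ℕ → V) := FF y k i ∩ (bef (y j) (y i))ᶜ with hE
  set R : Set (ℕ → V) := bef (y 0) (y (j + 2)) ∩ bef (y 0) (y (i + 2)) with hRdef
  set Q : Set (ℕ → V) := bef (y j) (y (i + 2)) ∩ aft (y j) R with hQ
  have hRm : MeasurableSet R := (meas_bef _ _).inter (meas_bef _ _)
  have hQm : MeasurableSet Q := (meas_bef _ _).inter (meas_aft _ hRm)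
  have hsub : E ∩ aft (y i) Q ⊆ AA y j ∩ (AA y i ∩ FF y k i) := by
    rintro ω ⟨⟨hFF, hN⟩, T, hT, ⟨p, hp, hpn⟩, q, hq, ⟨hq0, hq1⟩⟩
    simp only [shf] at hp hpn
    rw [shf_shf] at hq0 hq1
    have hqp : q ≤ p := fst_le hq hp
    have hfj : ω ∈ fst (y j) (T + q) := by
      refine ⟨hq.1, fun m hm hmj => ?_⟩
      by_cases hmT : m < T
      · exact hN ⟨m, hmj, fun t ht => hT.2 t (by omega)⟩
      · have h1 := hq.2 (m - T) (by omega)
        simp only [shf] at h1
        rw [show T + (m - T) = m by omega] at h1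
        exact h1 hmj
    refine ⟨⟨T + q, hfj, hq0⟩, ⟨T, hT, ?_⟩, hFF⟩
    obtain ⟨u, hu, hun⟩ := hq1
    simp only [shf] at hu hun
    refine ⟨q + u, ?_, fun m hm => ?_⟩
    · simp only [shf]
      rw [← add_assoc]
      exact hu
    · by_cases hmq : m < q
      · exact hpn m (by omega)
      · have h1 := hun (m - q) (by omega)
        simp only [shf]
        rw [show T + q + (m - q) = T + m by omega] at h1
        exact h1
  have h1 : (μ r).real (E ∩ aft (y i) Q) = (μ r).real (E ∩ hits (y i)) * (μ (y i)).real Q :=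
    hSM V G μ hF r (y i) E Q hQm (det_inter (det_FF y k i) (det_compl (det_bef_right _ _)))
  have h2 : (μ (y i)).real Q = pb μ (y i) (y j) (y (i + 2)) * (μ (y j)).real R := by
    have := hSM V G μ hF (y i) (y j) (bef (y j) (y (i + 2))) R hRm (det_bef_left _ _)
    rw [hQ, this, Set.inter_eq_left.2 (bef_sub_hits _ _)]
    rfl
  have h3 : (μ r).real (FF y k i ∩ hits (y i)) - η ≤ (μ r).real (E ∩ hits (y i)) := by
    have e1 : FF y k i ∩ hits (y i) ⊆ (E ∩ hits (y i)) ∪ bef (y j) (y i) := by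
      rintro ω ⟨ha, hb⟩
      by_cases hc : ω ∈ bef (y j) (y i)
      · exact Or.inr hc
      · exact Or.inl ⟨⟨ha, hc⟩, hb⟩
    have e2 := measureReal_mono (μ := μ r) e1 (measure_ne_top _ _)
    have e3 := measureReal_union_le (μ := μ r) (E ∩ hits (y i)) (bef (y j) (y i))
    have e4 := hP.j2 j i hji (by omega)
    linarith
  have h4 : 1 / ((j : ℝ) + 2) ≤ (μ (y j)).real R := by
    have e1 : bef (y 0) (y (j + 2)) ⊆ R ∪ bef (y (i + 2)) (y (j + 2)) := by
      rintro w ⟨n, hn, hnb⟩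
      by_cases hc : ∃ m < n, w m = y (i + 2)
      · obtain ⟨m, hm, hm'⟩ := hc
        exact Or.inr ⟨m, hm', fun t ht => hnb t (by omega)⟩
      · push Not at hc
        exact Or.inl ⟨⟨n, hn, hnb⟩, ⟨n, hn, hc⟩⟩
    have e2 := measureReal_mono (μ := μ (y j)) e1 (measure_ne_top _ _)
    have e3 := measureReal_union_le (μ := μ (y j)) R (bef (y (i + 2)) (y (j + 2)))
    have e4 := hP.lo j hj1 (by omega)
    have e5 := hP.j1 j (i + 2) hj1 (by omega) hik
    unfold pb at e4 e5
    linarith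
  have h5 := hP.lo2 i j hj1 hji hik
  have h6 : (μ r).real (E ∩ aft (y i) Q) ≤ (μ r).real (AA y j ∩ (AA y i ∩ FF y k i)) :=
    measureReal_mono hsub (measure_ne_top _ _)
  refine le_trans ?_ h6
  rw [h1, h2]
  have h7 : 1 / ((i : ℝ) + 2 - j) * (1 / ((j : ℝ) + 2)) ≤
      pb μ (y i) (y j) (y (i + 2)) * (μ (y j)).real R :=
    mul_le_mul h5 h4 (by positivity) (le_trans (by positivity) h5)
  have h8 : 0 ≤ 1 / ((i : ℝ) + 2 - j) * (1 / ((j : ℝ) + 2)) := by positivity
  exact (mul_le_mul_of_nonneg_right h3 h8).trans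
    (mul_le_mul_of_nonneg_left h7 measureReal_nonneg)

end Pool.Agent.R695.CC
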