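import Mathlib
import Pool.Agent.R695.CC.Stm
import Pool.Agent.R695.CC.Ev394

/-! Project CC, piece PC. -/

set_option autoImplicit false

open MeasureTheory ProbabilityTheory Finset
open scoped ENNReal

namespace Pool.Agent.R695.CC

namespace PC394

/-- reindexing of the harmonic sum -/
theorem harm (i1 i0 i : ℕ) (h1 : i1 < i0) (h2 : i0 ≤ i) :
    ∑ s ∈ Finset.Icc 3 (i0 - i1 + 2), 1 / (s : ℝ) ≤
      ∑ j ∈ Finset.Ico i1 i, 1 / ((i : ℝ) + 2 - j) := by
  have h3 : ∑ j ∈ Finset.Ico i1 i, 1 / ((i : ℝ) + 2 - j) = ∑ s ∈ Finset.Icc 3 (i - i1 + 2), 1 / (s : ℝ) := by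
    refine Finset.sum_bij' (fun j _ => i + 2 - j) (fun s _ => i + 2 - s) ?_ ?_ ?_ ?_ ?_
    · intro j hj
      rw [Finset.mem_Ico] at hj
      rw [Finset.mem_Icc]
      omega
    · intro s hs
      rw [Finset.mem_Icc] at hs
      rw [Finset.mem_Ico]
      omega
    · intro j hj
      rw [Finset.mem_Ico] at hj
      change _ = _
      omega
    · intro s hs
      rw [Finset.mem_Icc] at hs
      change _ = _
      omega
    · intro j hj
      rw [Finset.mem_Ico] at hj
      rw [Nat.cast_sub (by omega)]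
      push_cast
      rfl
  rw [h3]
  refine Finset.sum_le_sum_of_subset_of_nonneg ?_ (fun s _ _ => by positivity)
  exact Finset.Icc_subset_Icc le_rfl (by omega)

end PC394

open E394 PC394 in
theorem PC_ok : S_SM → S_PA → S_PB → S_PC := by
  intro hSM hPA hPB V _ _ _ G μ hF hR r y k i1 i0 η hP h10 h0k
  classical
  haveI := hF.prob r
  have hη := hP.eta
  have hi1p := hP.i1pos
  set I := Finset.Icc i0 (k - 2) with hI
  set J := Finset.Icc i1 (k - 2) with hJ
  set a : ℕ → ℝ := fun i => (μ r).real (FF y k i ∩ hits (y i)) with ha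
  set p : ℕ → ℝ := fun i => pb μ (y i) (y 0) (y (i + 2)) with hp
  set Λ : ℝ := 1 / 3 * ∑ s ∈ Finset.Icc 3 (i0 - i1 + 2), 1 / (s : ℝ) with hΛ
  have hΛ0 : 0 ≤ Λ := by positivity
  have ha0 : ∀ i, 0 ≤ a i := fun i => measureReal_nonneg
  have hp0 : ∀ i, 0 ≤ p i := fun i => measureReal_nonneg
  have hkI : (I.card : ℝ) ≤ k := by
    rw [hI, Nat.card_Icc]
    exact_mod_cast (by omega : k - 2 + 1 - i0 ≤ k)
  have hkJ : (J.card : ℝ) ≤ k := by
    rw [hJ, Nat.card_Icc]
    exact_mod_cast (by omega : k - 2 + 1 - i1 ≤ k)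
  have hk0 : (0 : ℝ) ≤ k := Nat.cast_nonneg k
  -- (1)
  have s1 : (μ r).real (⋃ i ∈ I, AA y i) ≤ ∑ i ∈ I, a i * p i + 2 * (k : ℝ) ^ 2 * η := by
    have e1 : ⋃ i ∈ I, AA y i ⊆ ⋃ i ∈ I, (AA y i \ ⋃ l ∈ Finset.Ioc i (k - 2), AA y l) := by
      intro ω hω
      rw [Set.mem_iUnion₂] at hω
      obtain ⟨i, hi, hiA⟩ := hω
      have hne : (I.filter fun i => ω ∈ AA y i).Nonempty := ⟨i, Finset.mem_filter.2 ⟨hi, hiA⟩⟩
      have hmax := Finset.max'_mem _ hne
      set M := (I.filter fun i => ω ∈ AA y i).max' hne with hM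
      rw [Finset.mem_filter] at hmax
      refine Set.mem_biUnion hmax.1 ⟨hmax.2, ?_⟩
      intro h
      rw [Set.mem_iUnion₂] at h
      obtain ⟨l, hl, hlA⟩ := h
      rw [Finset.mem_Ioc] at hl
      have h1 : l ∈ I.filter fun i => ω ∈ AA y i := by
        rw [Finset.mem_filter]
        have h2 := hmax.1
        rw [hI, Finset.mem_Icc] at h2
        exact ⟨by rw [hI, Finset.mem_Icc]; omega, hlA⟩
      have h3 := Finset.le_max' _ _ h1
      rw [← hM] at h3
      omega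
    refine (measureReal_mono e1 (measure_ne_top _ _)).trans ?_
    refine (measureReal_biUnion_finset_le _ _).trans ?_
    have e2 : ∀ i ∈ I, (μ r).real (AA y i \ ⋃ l ∈ Finset.Ioc i (k - 2), AA y l) ≤
        a i * p i + 2 * k * η := by
      intro i hi
      rw [hI, Finset.mem_Icc] at hi
      exact hPA V G μ hF hR r y k i1 η hP i (by omega) (by omega)
    refine (Finset.sum_le_sum e2).trans ?_
    rw [Finset.sum_add_distrib, Finset.sum_const, nsmul_eq_mul]
    have : (I.card : ℝ) * (2 * k * η) ≤ k * (2 * k * η) := mul_le_mul_of_nonneg_right hkI (by positivity)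
    nlinarith
  -- (2)
  have s2 : ∑ j ∈ J, (μ r).real (AA y j) ≤ 3 * k / ((i1 : ℝ) + 2) := by
    have e1 : ∀ j ∈ J, (μ r).real (AA y j) ≤ 3 / ((i1 : ℝ) + 2) := by
      intro j hj
      rw [hJ, Finset.mem_Icc] at hj
      have h1 := hSM V G μ hF r (y j) Set.univ (bef (y 0) (y (j + 2))) (meas_bef _ _) (det_univ _)
      rw [Set.univ_inter, Set.univ_inter, hR.hit, one_mul] at h1
      have h2 := hP.up j hj.1 (by omega)
      have h3 : (μ r).real (AA y j) ≤ 3 / ((j : ℝ) + 2) := by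
        unfold AA
        rw [h1]
        exact h2
      refine h3.trans ?_
      have h4 : (i1 : ℝ) ≤ j := by exact_mod_cast hj.1
      exact div_le_div_of_nonneg_left (by norm_num) (by positivity) (by linarith)
    refine (Finset.sum_le_sum e1).trans ?_
    rw [Finset.sum_const, nsmul_eq_mul]
    have : (J.card : ℝ) * (3 / ((i1 : ℝ) + 2)) ≤ k * (3 / ((i1 : ℝ) + 2)) :=
      mul_le_mul_of_nonneg_right hkJ (by positivity)
    refine this.trans (le_of_eq ?_)
    ring
  -- (3)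
  have s3 : ∑ i ∈ I, ∑ j ∈ Finset.Ico i1 i, (μ r).real (AA y j ∩ (AA y i ∩ FF y k i)) ≤
      ∑ j ∈ J, (μ r).real (AA y j) := by
    have e1 : ∑ i ∈ I, ∑ j ∈ Finset.Ico i1 i, (μ r).real (AA y j ∩ (AA y i ∩ FF y k i)) =
        ∑ j ∈ J, ∑ i ∈ I.filter (fun i => j < i), (μ r).real (AA y j ∩ (AA y i ∩ FF y k i)) := by
      refine Finset.sum_comm' ?_
      intro i j
      rw [Finset.mem_filter, Finset.mem_Ico, hI, hJ, Finset.mem_Icc, Finset.mem_Icc]
      omega
    rw [e1]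
    refine Finset.sum_le_sum fun j _ => ?_
    have e2 : Set.PairwiseDisjoint (↑(I.filter (fun i => j < i)))
        (fun i => AA y j ∩ (AA y i ∩ FF y k i)) := by
      have key : ∀ i ∈ I, ∀ l ∈ I, i < l → Disjoint (AA y j ∩ (AA y i ∩ FF y k i))
          (AA y j ∩ (AA y l ∩ FF y k l)) := by
        intro i _ l hl hil
        rw [Set.disjoint_left]
        rintro ω ⟨-, -, h1⟩ ⟨-, h2, -⟩
        rw [hI, Finset.mem_Icc] at hl
        exact GG_disj y i l ω (h1 l hil (by omega)) h2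
      intro i hi l hl hne
      rw [Finset.mem_coe, Finset.mem_filter] at hi hl
      rcases lt_or_gt_of_ne hne with h | h
      · exact key i hi.1 l hl.1 h
      · exact (key l hl.1 i hi.1 h).symm
    rw [← measureReal_biUnion_finset e2
      (fun i _ => (meas_AA y j).inter ((meas_AA y i).inter (meas_FF y k i)))]
    refine measureReal_mono ?_ (measure_ne_top _ _)
    intro ω hω
    rw [Set.mem_iUnion₂] at hω
    obtain ⟨i, -, hi⟩ := hω
    exact hi.1
  -- (4)
  have s4 : ∀ i ∈ I, a i * p i * Λ - k * η ≤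
      ∑ j ∈ Finset.Ico i1 i, (μ r).real (AA y j ∩ (AA y i ∩ FF y k i)) := by
    intro i hi
    rw [hI, Finset.mem_Icc] at hi
    have hi2 : (0 : ℝ) < (i : ℝ) + 2 := by positivity
    have e1 : ∀ j ∈ Finset.Ico i1 i, a i * (1 / ((i : ℝ) + 2) * (1 / ((i : ℝ) + 2 - j))) - η ≤
        (μ r).real (AA y j ∩ (AA y i ∩ FF y k i)) := by
      intro j hj
      rw [Finset.mem_Ico] at hj
      have h1 := hPB V G μ hF hR r y k i1 η hP i j hj.1 hj.2 (by omega)
      refine le_trans ?_ h1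
      have hji : (j : ℝ) + 1 ≤ i := by exact_mod_cast hj.2
      have hj0 : (0 : ℝ) ≤ j := Nat.cast_nonneg j
      have hd1 : (0 : ℝ) < (i : ℝ) + 2 - j := by linarith
      have hd2 : (0 : ℝ) < (j : ℝ) + 2 := by linarith
      have h2 : 1 / ((i : ℝ) + 2 - j) * (1 / ((j : ℝ) + 2)) ≤ 1 := by
        rw [one_div_mul_one_div]
        rw [div_le_one (by positivity)]
        nlinarith
      have h3 : 1 / ((i : ℝ) + 2) * (1 / ((i : ℝ) + 2 - j)) ≤
          1 / ((i : ℝ) + 2 - j) * (1 / ((j : ℝ) + 2)) := by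
        rw [mul_comm]
        refine mul_le_mul_of_nonneg_left ?_ (by positivity)
        exact one_div_le_one_div_of_le hd2 (by linarith)
      have h4 : a i * (1 / ((i : ℝ) + 2) * (1 / ((i : ℝ) + 2 - j))) ≤
          a i * (1 / ((i : ℝ) + 2 - j) * (1 / ((j : ℝ) + 2))) :=
        mul_le_mul_of_nonneg_left h3 (ha0 i)
      have h5 : η * (1 / ((i : ℝ) + 2 - j) * (1 / ((j : ℝ) + 2))) ≤ η * 1 :=
        mul_le_mul_of_nonneg_left h2 hη
      have h6 : ((μ r).real (FF y k i ∩ hits (y i)) - η) *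
          (1 / ((i : ℝ) + 2 - j) * (1 / ((j : ℝ) + 2))) =
          a i * (1 / ((i : ℝ) + 2 - j) * (1 / ((j : ℝ) + 2))) -
          η * (1 / ((i : ℝ) + 2 - j) * (1 / ((j : ℝ) + 2))) := by
        simp only [ha]
        ring
      rw [h6]
      linarith
    refine le_trans ?_ (Finset.sum_le_sum e1)
    rw [Finset.sum_sub_distrib, ← Finset.mul_sum, ← Finset.mul_sum, Finset.sum_const, nsmul_eq_mul,
      Nat.card_Ico]
    have e2 := harm i1 i0 i h10 hi.1
    have e3 : ((i - i1 : ℕ) : ℝ) * η ≤ k * η := by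
      refine mul_le_mul_of_nonneg_right ?_ hη
      exact_mod_cast (by omega : i - i1 ≤ k)
    have e4 : p i * Λ ≤ 1 / ((i : ℝ) + 2) * ∑ j ∈ Finset.Ico i1 i, 1 / ((i : ℝ) + 2 - j) := by
      have h1 := hP.up i (by omega) (by omega)
      have h2 : p i * Λ ≤ 3 / ((i : ℝ) + 2) * Λ := mul_le_mul_of_nonneg_right h1 hΛ0
      refine h2.trans ?_
      rw [hΛ]
      have h3 : 3 / ((i : ℝ) + 2) * (1 / 3 * ∑ s ∈ Finset.Icc 3 (i0 - i1 + 2), 1 / (s : ℝ)) =
          1 / ((i : ℝ) + 2) * ∑ s ∈ Finset.Icc 3 (i0 - i1 + 2), 1 / (s : ℝ) := by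
        field_simp
      rw [h3]
      exact mul_le_mul_of_nonneg_left e2 (by positivity)
    have e5 := mul_le_mul_of_nonneg_left e4 (ha0 i)
    rw [← mul_assoc] at e5
    linarith
  have s5 : (∑ i ∈ I, a i * p i) * Λ - (k : ℝ) ^ 2 * η ≤ 3 * k / ((i1 : ℝ) + 2) := by
    refine le_trans ?_ s2
    refine le_trans ?_ s3
    refine le_trans ?_ (Finset.sum_le_sum s4)
    rw [Finset.sum_sub_distrib, ← Finset.sum_mul, Finset.sum_const, nsmul_eq_mul]
    have : (I.card : ℝ) * (k * η) ≤ k * (k * η) := mul_le_mul_of_nonneg_right hkI (by positivity)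
    nlinarith
  have s6 : Λ * ((μ r).real (⋃ i ∈ I, AA y i) - 2 * (k : ℝ) ^ 2 * η) ≤ Λ * ∑ i ∈ I, a i * p i :=
    mul_le_mul_of_nonneg_left (by linarith) hΛ0
  linarith

end Pool.Agent.R695.CC
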