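import Pool.Agent.R695.CC.Core

set_option autoImplicit false

open Filter Topology Finset

namespace Pool.Agent.R695.CC.Q

lemma sm (C b : ℝ) (hb : 0 < b) : ∀ᶠ x in 𝓝[>] (0 : ℝ), C * x ≤ b := by
  have h1 : Tendsto (fun x : ℝ => C * x) (𝓝[>] 0) (𝓝 (C * 0)) :=
    (tendsto_nhdsWithin_of_tendsto_nhds tendsto_id).const_mul C
  rw [mul_zero] at h1
  exact (h1.eventually_lt_const hb).mono fun x hx => hx.le

lemma exists_m (M : ℝ) (hM : 0 < M) :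
    ∃ m : ℕ, 2 ≤ m ∧ 15 * (3 / 2 ^ m) * ((m : ℝ) + 3) ≤ M / 4 := by
  have h1 : Tendsto (fun m : ℕ => (m : ℝ) ^ 1 / (2 : ℝ) ^ m) atTop (𝓝 0) :=
    tendsto_pow_const_div_const_pow_of_one_lt 1 (by norm_num)
  have h2 : Tendsto (fun m : ℕ => (m : ℝ) ^ 0 / (2 : ℝ) ^ m) atTop (𝓝 0) :=
    tendsto_pow_const_div_const_pow_of_one_lt 0 (by norm_num)
  have h3 : Tendsto (fun m : ℕ => 45 * ((m : ℝ) ^ 1 / (2 : ℝ) ^ m) +
      135 * ((m : ℝ) ^ 0 / (2 : ℝ) ^ m)) atTop (𝓝 (45 * 0 + 135 * 0)) :=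
    (h1.const_mul 45).add (h2.const_mul 135)
  rw [mul_zero, mul_zero, add_zero] at h3
  have h4 := h3.eventually_lt_const (show (0 : ℝ) < M / 4 by positivity)
  obtain ⟨m, hm, hm2⟩ := (h4.and (eventually_ge_atTop 2)).exists
  refine ⟨m, hm2, ?_⟩
  have h5 : 15 * (3 / 2 ^ m) * ((m : ℝ) + 3) =
      45 * ((m : ℝ) ^ 1 / (2 : ℝ) ^ m) + 135 * ((m : ℝ) ^ 0 / (2 : ℝ) ^ m) := by
    field_simp
    ring
  rw [h5]
  exact hm.le

lemma exists_j (A : ℝ) : ∃ j : ℕ, 1 ≤ j ∧ A ≤ ∑ s ∈ Finset.Icc 3 (j + 2), 1 / (s : ℝ) := by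
  have h1 := Real.tendsto_sum_range_one_div_nat_succ_atTop
  obtain ⟨j, hj, hj1⟩ := ((h1.eventually_ge_atTop (3 * A)).and (eventually_ge_atTop 1)).exists
  refine ⟨j, hj1, ?_⟩
  have h2 : ∑ s ∈ Finset.Icc 3 (j + 2), 1 / (s : ℝ) = ∑ i ∈ Finset.range j, 1 / ((i : ℝ) + 3) := by
    rw [show Finset.Icc 3 (j + 2) = Finset.Ico 3 (j + 3) by ext; simp; omega,
      Finset.sum_Ico_eq_sum_range]
    have : j + 3 - 3 = j := by omega
    rw [this]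
    refine Finset.sum_congr rfl fun i _ => ?_
    push_cast
    rw [add_comm]
  rw [h2]
  have h3 : 1 / 3 * ∑ i ∈ Finset.range j, 1 / ((i : ℝ) + 1) ≤
      ∑ i ∈ Finset.range j, 1 / ((i : ℝ) + 3) := by
    rw [Finset.mul_sum]
    refine Finset.sum_le_sum fun i _ => ?_
    have hi : (0 : ℝ) ≤ i := Nat.cast_nonneg i
    rw [one_div_mul_one_div]
    exact one_div_le_one_div_of_le (by positivity) (by linarith)
  linarith

theorem exists_par (M : ℝ) (hM : 0 < M) :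
    ∃ (ε lam δ ν : ℝ) (k i0 i1 m : ℕ), 0 < ν ∧ Par M ε lam δ ν k i0 i1 m := by
  obtain ⟨m, hm2, hm⟩ := exists_m M hM
  set P : ℝ := (2 : ℝ) ^ m with hP
  have hP4 : (4 : ℝ) ≤ P := by
    calc (4 : ℝ) = 2 ^ 2 := by norm_num
      _ ≤ 2 ^ m := pow_le_pow_right₀ (by norm_num) hm2
  have hP0 : 0 < P := by linarith
  obtain ⟨j, hj1, hj⟩ := exists_j ((48 * P + 1) * 192 / M)
  have hj1' : (1 : ℝ) ≤ j := by exact_mod_cast hj1
  set k : ℕ := 16 * 2 ^ m * j with hk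
  have hkP : (k : ℝ) = 16 * P * j := by rw [hk]; push_cast; rfl
  have hk0 : (0 : ℝ) < k := by rw [hkP]; positivity
  set ε : ℝ := 3 / P with hε
  have hε0 : 0 < ε := by positivity
  have hkk : (2 : ℕ) ^ 2 ≤ 2 ^ m := Nat.pow_le_pow_right (by norm_num) hm2
  have hk2 : 2 * j + 2 ≤ k := by
    rw [hk]
    nlinarith
  -- lam
  obtain ⟨lam, ⟨⟨⟨b1, b2⟩, b3⟩, b4⟩, b5⟩ := (((((sm 1 1 one_pos).and
    (sm (24 * k) ε hε0)).and (sm 8 ε hε0)).and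
    (sm (3267 * (k : ℝ) ^ 2 / ε ^ 2) (M / 64) (by positivity))).and
    self_mem_nhdsWithin).exists
  have hl0 : 0 < lam := b5
  -- δ
  obtain ⟨δ, ⟨⟨⟨⟨⟨⟨⟨d1, d2⟩, d3⟩, d4⟩, d5⟩, d6⟩, d7⟩, d8⟩⟩ := ((((((((sm 1 (ε / 2) (by positivity)).and
    (sm 1 (M / 4) (by positivity))).and (sm (768 * (k : ℝ) ^ 2) ε hε0)).and
    (sm 128 lam hl0)).and (sm (576 * k / (ε * lam)) (M / 64) (by positivity))).and
    (sm (96 * (k : ℝ) ^ 3 / ε) 1 one_pos)).and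
    (sm (96 * (k : ℝ) ^ 3 / ε) (M / 128) (by positivity))).and self_mem_nhdsWithin).exists
  have hδ0 : 0 < δ := d8
  -- ν
  obtain ⟨ν, ⟨⟨⟨v1, v2⟩, v3⟩, v4⟩⟩ := ((((sm 1 lam hl0).and (sm 1 ε hε0)).and
    (sm (128 * (k : ℝ) ^ 2) ε hε0)).and self_mem_nhdsWithin).exists
  refine ⟨ε, lam, δ, ν, k, 2 * j, j, m, v4, ?_⟩
  refine ⟨hM, hε0, ?_, hl0, by linarith, hδ0, ?_, hm, by linarith, by linarith, ?_, by linarith,
    by linarith, by linarith, by linarith, ?_, ?_, ?_, ?_, ?_, hj1, by omega, hk2, by linarith,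
    by linarith, by linarith⟩
  · rw [hε, div_le_one hP0]; linarith
  · rw [hε]
    have : 3 / (3 / P) = P := by field_simp
    rw [this]
  · rw [hkP, hε, div_div, div_le_div_iff₀ (by positivity) (by positivity)]
    push_cast
    nlinarith
  · calc 576 * k * δ / (ε * lam) = 576 * k / (ε * lam) * δ := by ring
      _ ≤ M / 64 := d5
  · calc 3267 * lam * (k : ℝ) ^ 2 / ε ^ 2 = 3267 * (k : ℝ) ^ 2 / ε ^ 2 * lam := by ring
      _ ≤ M / 64 := b4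
  · calc 96 * (k : ℝ) ^ 3 * δ / ε = 96 * (k : ℝ) ^ 3 / ε * δ := by ring
      _ ≤ 1 := d6
  · calc 96 * (k : ℝ) ^ 3 * δ / ε = 96 * (k : ℝ) ^ 3 / ε * δ := by ring
      _ ≤ M / 128 := d7
  · have h1 : 3 * (k : ℝ) / ((j : ℝ) + 2) ≤ 48 * P := by
      rw [hkP, div_le_iff₀ (by positivity)]
      nlinarith
    have h2 : 2 * j - j + 2 = j + 2 := by omega
    rw [h2]
    rw [div_le_iff₀ hM] at hj
    have h3 : 1 / 3 * (∑ s ∈ Finset.Icc 3 (j + 2), 1 / (s : ℝ)) * (M / 64) =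
      (∑ s ∈ Finset.Icc 3 (j + 2), 1 / (s : ℝ)) * M / 192 := by ring
    rw [h3]
    linarith

end Pool.Agent.R695.CC.Q
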