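import Pool.Agent.R695.CC.Stm

/-!
# CC-POT: potential theory of hitting times
-/

set_option autoImplicit false

open MeasureTheory ProbabilityTheory Finset
open scoped ENNReal

namespace Pool.Agent.R695.CC

variable {V : Type} [Fintype V]

open Classical in
/-- indicator of adjacency -/
noncomputable def ia (G : SimpleGraph V) (x y : V) : ℝ := if G.Adj x y then 1 else 0

omit [Fintype V] in
lemma ia_symm (G : SimpleGraph V) (x y : V) : ia G x y = ia G y x := by
  unfold ia
  by_cases h : G.Adj x y
  · rw [if_pos h, if_pos h.symm]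
  · rw [if_neg h, if_neg (fun h' => h h'.symm)]

omit [Fintype V] in
lemma ia_nonneg (G : SimpleGraph V) (x y : V) : 0 ≤ ia G x y := by
  unfold ia
  split_ifs <;> norm_num

lemma dg_eq (G : SimpleGraph V) (x : V) : dg G x = ∑ y, ia G x y := by
  classical
  unfold dg ia
  rw [Finset.card_filter]
  push_cast
  exact Finset.sum_congr rfl fun y _ => by congr

lemma dg_nonneg (G : SimpleGraph V) (x : V) : 0 ≤ dg G x := by
  unfold dg
  positivity

lemma dg_pos {G : SimpleGraph V} {x y : V} (hxy : G.Adj x y) : 0 < dg G x := by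
  classical
  rw [dg_eq]
  refine Finset.sum_pos' (fun z _ => ia_nonneg G x z) ⟨y, mem_univ y, ?_⟩
  unfold ia
  rw [if_pos hxy]
  norm_num

lemma exists_adj {G : SimpleGraph V} (hG : G.Connected) (h2 : 2 ≤ Fintype.card V) (x : V) :
    ∃ y, G.Adj x y := by
  have hnt : Nontrivial V := Fintype.one_lt_card_iff_nontrivial.1 (by omega)
  obtain ⟨y, hy⟩ := exists_ne x
  obtain ⟨p⟩ := hG.preconnected x y
  cases p with
  | nil => exact absurd rfl hy
  | cons h _ => exact ⟨_, h⟩

lemma dg_pos' {G : SimpleGraph V} (hG : G.Connected) (h2 : 2 ≤ Fintype.card V) (x : V) :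
    0 < dg G x := by
  obtain ⟨y, hy⟩ := exists_adj hG h2 x
  exact dg_pos hy

lemma tp_eq (G : SimpleGraph V) (x y : V) :
    tp G x y = ia G x y / dg G x := by
  unfold tp ia
  split_ifs <;> simp

lemma dg_tp {G : SimpleGraph V} {x : V} (hx : 0 < dg G x) (y : V) :
    dg G x * tp G x y = ia G x y := by
  rw [tp_eq G x]
  field_simp

lemma tp_nonneg (G : SimpleGraph V) (x y : V) : 0 ≤ tp G x y := by
  unfold tp
  split_ifs
  · exact div_nonneg zero_le_one (dg_nonneg G x)
  · exact le_rfl

lemma tp_pos {G : SimpleGraph V} {x y : V} (h : G.Adj x y) : 0 < tp G x y := by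
  unfold tp
  rw [if_pos h]
  exact div_pos one_pos (dg_pos h)

lemma tp_sum {G : SimpleGraph V} {x : V} (hx : 0 < dg G x) : ∑ y, tp G x y = 1 := by
  rw [Finset.sum_congr rfl fun y _ => tp_eq G x y, ← Finset.sum_div, ← dg_eq, div_self hx.ne']

/-- maximum principle -/
lemma maxp {G : SimpleGraph V} (hG : G.Connected) (_h2 : 2 ≤ Fintype.card V) (f : V → ℝ)
    (S : Set V) (hS : S.Nonempty) (h1 : ∀ x ∈ S, 0 ≤ f x)
    (hf : ∀ x, x ∉ S → ∑ z, tp G x z * f z ≤ f x) (x : V) : 0 ≤ f x := by
  have hne : Nonempty V := ⟨x⟩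
  obtain ⟨x0, hx0⟩ := Finite.exists_min f
  by_contra hcon
  push Not at hcon
  have h0 : f x0 < 0 := lt_of_le_of_lt (hx0 x) hcon
  have hstep : ∀ u v, f u = f x0 → G.Adj u v → f v = f x0 := by
    intro u v hu huv
    have huS : u ∉ S := fun h => by
      have := h1 u h
      linarith
    have h3 := hf u huS
    have h4 : ∑ z, tp G u z * (f z - f x0) ≤ 0 := by
      have : ∑ z, tp G u z * (f z - f x0) = ∑ z, tp G u z * f z - f x0 := by
        simp only [mul_sub]
        rw [Finset.sum_sub_distrib, ← Finset.sum_mul, tp_sum (dg_pos huv), one_mul]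
      rw [this]
      linarith
    have h5 : ∀ z ∈ univ, 0 ≤ tp G u z * (f z - f x0) := fun z _ =>
      mul_nonneg (tp_nonneg G u z) (by linarith [hx0 z])
    have h6 := (Finset.sum_eq_zero_iff_of_nonneg h5).1 (le_antisymm h4 (Finset.sum_nonneg h5)) v
      (mem_univ v)
    rcases mul_eq_zero.1 h6 with h7 | h7
    · exact absurd h7 (tp_pos huv).ne'
    · linarith
  have hwalk : ∀ {u v : V} (p : G.Walk u v), f u = f x0 → f v = f x0 := by
    intro u v p
    induction p with
    | nil => exact id
    | cons h _ ih => exact fun hu => ih (hstep _ _ hu h)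
  obtain ⟨s, hs⟩ := hS
  obtain ⟨p⟩ := hG.preconnected x0 s
  have := hwalk p rfl
  have := h1 s hs
  linarith

lemma maxp0 {G : SimpleGraph V} (hG : G.Connected) (h2 : 2 ≤ Fintype.card V) (f : V → ℝ)
    (S : Set V) (hS : S.Nonempty) (h1 : ∀ x ∈ S, f x = 0)
    (hf : ∀ x, x ∉ S → f x = ∑ z, tp G x z * f z) (x : V) : f x = 0 := by
  apply le_antisymm
  · have h3 := maxp hG h2 (fun x => - f x) S hS (fun x hx => by rw [h1 x hx]; simp)
      (fun x hx => by
        have := hf x hx
        simp only [mul_neg, Finset.sum_neg_distrib]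
        linarith) x
    linarith
  · exact maxp hG h2 f S hS (fun x hx => (h1 x hx).ge) (fun x hx => (hf x hx).ge) x

section
variable [MeasurableSpace V] {G : SimpleGraph V} {μ : V → Measure (ℕ → V)}

lemma Rec.h0 (hR : Rec G μ) (x y : V) : 0 ≤ h μ x y := by
  by_cases hxy : x = y
  · rw [hxy, hR.hxx]
  · linarith [hR.hge x y hxy]

/-- sum of the hitting times over the neighbours -/
lemma nb_sum (h2 : 2 ≤ Fintype.card V) (hG : G.Connected) (hR : Rec G μ) (y : V) :
    ∑ w, ia G w y * h μ w y = DD G - dg G y := by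
  classical
  have h1 : ∀ x, dg G x * h μ x y =
      (if x = y then 0 else dg G x) + (∑ w, ia G x w * h μ w y
        - (if x = y then ∑ w, ia G x w * h μ w y else 0)) := by
    intro x
    by_cases hxy : x = y
    · rw [if_pos hxy, if_pos hxy, hxy, hR.hxx]
      ring
    · rw [if_neg hxy, if_neg hxy, hR.hrec x y hxy, mul_add, mul_one, Finset.mul_sum, sub_zero]
      congr 1
      refine Finset.sum_congr rfl fun z _ => ?_
      rw [← mul_assoc, dg_tp (dg_pos' hG h2 x)]
  have h3 := Finset.sum_congr rfl fun x (_ : x ∈ (univ : Finset V)) => h1 x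
  rw [Finset.sum_add_distrib, Finset.sum_sub_distrib, Finset.sum_comm (s := univ) (t := univ)]
    at h3
  have h4 : ∑ x, (if x = y then 0 else dg G x) = DD G - dg G y := by
    unfold DD
    rw [eq_sub_iff_add_eq, ← Finset.sum_add_sum_compl {y} (fun x => dg G x)]
    rw [Finset.sum_singleton]
    rw [← Finset.sum_add_sum_compl {y} (fun x => if x = y then 0 else dg G x),
      Finset.sum_singleton, if_pos rfl, zero_add, add_comm]
    congr 1
    refine Finset.sum_congr rfl fun x hx => ?_
    rw [if_neg]
    intro hxy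
    simp [hxy] at hx
  have h5 : ∑ x, (if x = y then ∑ w, ia G x w * h μ w y else 0) = ∑ w, ia G y w * h μ w y := by
    rw [Finset.sum_ite_eq' univ y]
    simp
  have h6 : ∑ w, ∑ x, ia G x w * h μ w y = ∑ w, dg G w * h μ w y := by
    refine Finset.sum_congr rfl fun w _ => ?_
    rw [← Finset.sum_mul, dg_eq]
    congr 1
    exact Finset.sum_congr rfl fun x _ => ia_symm G x w
  rw [h4, h5, h6] at h3
  have h7 : ∑ w, ia G w y * h μ w y = ∑ w, ia G y w * h μ w y :=
    Finset.sum_congr rfl fun w _ => by rw [ia_symm]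
  rw [h7]
  linarith

open Classical in
/-- the Laplacian of the hitting time -/
lemma lap_h (h2 : 2 ≤ Fintype.card V) (hG : G.Connected) (hR : Rec G μ) (w y : V) :
    h μ w y - ∑ z, tp G w z * h μ z y = 1 - (if w = y then DD G / dg G y else 0) := by
  by_cases hwy : w = y
  · rw [if_pos hwy, hwy, hR.hxx]
    have hd := dg_pos' hG h2 y
    have h1 : ∑ z, tp G y z * h μ z y = (DD G - dg G y) / dg G y := by
      rw [← nb_sum h2 hG hR y, Finset.sum_div]
      refine Finset.sum_congr rfl fun z _ => ?_
      rw [tp_eq G y, ia_symm]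
      ring
    rw [h1]
    field_simp
    ring
  · rw [if_neg hwy, hR.hrec w y hwy]
    ring

omit [MeasurableSpace V] in
lemma green (h2 : 2 ≤ Fintype.card V) (hG : G.Connected) (f g : V → ℝ) :
    ∑ w, dg G w * f w * (g w - ∑ z, tp G w z * g z)
      = ∑ w, dg G w * g w * (f w - ∑ z, tp G w z * f z) := by
  have h1 : ∀ f g : V → ℝ, ∑ w, dg G w * f w * (g w - ∑ z, tp G w z * g z)
      = ∑ w, dg G w * f w * g w - ∑ w, ∑ z, ia G w z * (f w * g z) := by
    intro f g
    rw [← Finset.sum_sub_distrib]
    refine Finset.sum_congr rfl fun w _ => ?_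
    rw [mul_sub, Finset.mul_sum]
    congr 1
    refine Finset.sum_congr rfl fun z _ => ?_
    rw [← dg_tp (dg_pos' hG h2 w)]
    ring
  rw [h1, h1, Finset.sum_comm (s := univ) (t := univ) (f := fun w z => ia G w z * (f w * g z))]
  congr 1
  · exact Finset.sum_congr rfl fun w _ => by ring
  · refine Finset.sum_congr rfl fun w _ => Finset.sum_congr rfl fun z _ => ?_
    rw [ia_symm]
    ring

omit [MeasurableSpace V] in
lemma DD_pos (h2 : 2 ≤ Fintype.card V) (hG : G.Connected) : 0 < DD G := by
  have hnt : Nontrivial V := Fintype.one_lt_card_iff_nontrivial.1 (by omega)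
  unfold DD
  exact Finset.sum_pos (fun x _ => dg_pos' hG h2 x) Finset.univ_nonempty

lemma asym (h2 : 2 ≤ Fintype.card V) (hG : G.Connected) (hR : Rec G μ) (x y : V) :
    DD G * (h μ x y - h μ y x) = ∑ w, dg G w * h μ w y - ∑ w, dg G w * h μ w x := by
  classical
  have h1 := green h2 hG (fun w => h μ w x) (fun w => h μ w y)
  have h3 : ∀ x y : V, ∑ w, dg G w * h μ w x * (h μ w y - ∑ z, tp G w z * h μ z y)
      = ∑ w, dg G w * h μ w x - DD G * h μ y x := by
    intro x y
    have h4 : ∀ w, dg G w * h μ w x * (h μ w y - ∑ z, tp G w z * h μ z y)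
        = dg G w * h μ w x - (if w = y then DD G * h μ y x else 0) := by
      intro w
      rw [lap_h h2 hG hR]
      by_cases hwy : w = y
      · rw [if_pos hwy, if_pos hwy, hwy]
        have hd := dg_pos' hG h2 y
        field_simp
      · rw [if_neg hwy, if_neg hwy]
        ring
    rw [Finset.sum_congr rfl fun w _ => h4 w, Finset.sum_sub_distrib, Finset.sum_ite_eq' univ y]
    simp
  have h5 := h3 x y
  have h6 := h3 y x
  rw [h5, h6] at h1
  linarith

end

/-- CC-POT -/
theorem POT_ok : S_POT := by
  intro V _ _ _ G μ h2 hG hR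
  classical
  refine ⟨?_, ?_, ?_, ?_, ?_⟩
  · intro x y z
    have h1 := maxp hG h2 (fun x => h μ x y + h μ y z - h μ x z) {y, z} ⟨y, by simp⟩
      (by
        rintro u (rfl | rfl)
        · rw [hR.hxx]
          linarith
        · rw [hR.hxx]
          linarith [hR.h0 u y, hR.h0 y u])
      (by
        intro u hu
        have hy : u ≠ y := fun h => hu (by simp [h])
        have hz : u ≠ z := fun h => hu (by simp [h])
        have e1 := hR.hrec u y hy
        have e2 := hR.hrec u z hz
        simp only [mul_sub, mul_add]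
        rw [Finset.sum_sub_distrib, Finset.sum_add_distrib, ← Finset.sum_mul,
          tp_sum (dg_pos' hG h2 u), one_mul]
        linarith) x
    linarith
  · intro x y hxy
    have h1 := nb_sum h2 hG hR y
    have h3 : ia G x y * h μ x y ≤ ∑ w, ia G w y * h μ w y :=
      Finset.single_le_sum (f := fun w => ia G w y * h μ w y)
        (fun w _ => mul_nonneg (ia_nonneg G w y) (hR.h0 w y)) (mem_univ x)
    have h4 : ia G x y = 1 := by
      unfold ia
      rw [if_pos hxy]
    rw [h4, one_mul, h1] at h3
    linarith [dg_nonneg G y]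
  · intro x y z
    have hD := DD_pos h2 hG
    have e1 := asym h2 hG hR x y
    have e2 := asym h2 hG hR y z
    have e3 := asym h2 hG hR z x
    have e4 : DD G * ((h μ x y + h μ y z + h μ z x) - (h μ x z + h μ z y + h μ y x)) = 0 := by
      linear_combination e1 + e2 + e3
    rcases mul_eq_zero.1 e4 with h1 | h1
    · exact absurd h1 hD.ne'
    · linarith
  · have hK : ∀ x, ∑ z, dg G z * h μ x z
        = ∑ u, tp G x u * ∑ z, dg G z * h μ u z := by
      intro x
      have h1 : ∑ u, tp G x u * ∑ z, dg G z * h μ u z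
          = ∑ z, dg G z * ∑ u, tp G x u * h μ u z := by
        simp only [Finset.mul_sum]
        rw [Finset.sum_comm]
        exact Finset.sum_congr rfl fun z _ => Finset.sum_congr rfl fun u _ => by ring
      have h3 : ∑ z, dg G z * (h μ x z - ∑ u, tp G x u * h μ u z) = 0 := by
        have h4 : ∀ z, dg G z * (h μ x z - ∑ u, tp G x u * h μ u z)
            = dg G z - (if x = z then DD G else 0) := by
          intro z
          rw [lap_h h2 hG hR]
          have hd := dg_pos' hG h2 z
          split_ifs with hxz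
          · field_simp
          · ring
        rw [Finset.sum_congr rfl fun z _ => h4 z, Finset.sum_sub_distrib,
          Finset.sum_ite_eq univ x]
        simp [DD]
      simp only [mul_sub] at h3
      rw [Finset.sum_sub_distrib] at h3
      rw [h1]
      linarith
    intro x x'
    have h1 := maxp0 hG h2 (fun x => (∑ z, dg G z * h μ x z) - ∑ z, dg G z * h μ x' z) {x'}
      ⟨x', by simp⟩ (by
        intro u hu
        rw [Set.mem_singleton_iff.1 hu]
        ring)
      (by
        intro u _
        simp only [mul_sub]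
        rw [Finset.sum_sub_distrib, ← hK u, ← Finset.sum_mul, tp_sum (dg_pos' hG h2 u), one_mul])
      x
    linarith
  · intro x a b hab
    have h1 := maxp0 hG h2 (fun x => pb μ x a b * (h μ a b + h μ b a)
        - (h μ x b - h μ x a + h μ b a)) {a, b} ⟨a, by simp⟩
      (by
        rintro u (rfl | rfl)
        · rw [hR.pba, hR.hxx]
          ring
        · rw [hR.pbb _ _ hab, hR.hxx]
          ring)
      (by
        intro u hu
        have ha : u ≠ a := fun h => hu (by simp [h])
        have hb : u ≠ b := fun h => hu (by simp [h])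
        have e1 := hR.hrec u a ha
        have e2 := hR.hrec u b hb
        have e3 := hR.pbrec u a b ha hb
        simp only [mul_sub, mul_add, ← mul_assoc]
        rw [Finset.sum_sub_distrib, Finset.sum_add_distrib, Finset.sum_add_distrib,
          Finset.sum_sub_distrib, ← Finset.sum_mul, ← Finset.sum_mul, ← Finset.sum_mul,
          tp_sum (dg_pos' hG h2 u), one_mul, ← e3]
        linarith) x
    linarith

end Pool.Agent.R695.CC
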