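import Pool.Agent.R695.CC.Pot

/-!
# CC-REC: first step equations
-/

set_option autoImplicit false
set_option linter.unusedSectionVars false

open MeasureTheory ProbabilityTheory Finset
open scoped ENNReal

namespace Pool.Agent.R695.CC

variable {V : Type} [Fintype V] [MeasurableSpace V] [DiscreteMeasurableSpace V]

omit [Fintype V] in
lemma meas_coord (s : ℕ) (P : V → Prop) : MeasurableSet {ω : ℕ → V | P (ω s)} :=
  (measurable_pi_apply s) (MeasurableSet.of_discrete (s := {v | P v}))

omit [Fintype V] in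
lemma meas_avd (y : V) (t : ℕ) : MeasurableSet (avd y t) := by
  have h1 : avd y t = ⋂ s ∈ Set.Iic t, {ω : ℕ → V | ω s ≠ y} := by
    ext ω
    simp [avd]
  rw [h1]
  exact MeasurableSet.biInter (Set.to_countable _) fun s _ => meas_coord s (fun v => v ≠ y)

omit [Fintype V] in
lemma meas_hits (y : V) : MeasurableSet (hits y) := by
  have h1 : hits y = ⋃ n, {ω : ℕ → V | ω n = y} := by
    ext ω
    simp [hits]
  rw [h1]
  exact MeasurableSet.iUnion fun n => meas_coord n (fun v => v = y)

omit [Fintype V] in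
lemma meas_bef (a b : V) : MeasurableSet (bef a b) := by
  have h1 : bef a b = ⋃ n, ({ω : ℕ → V | ω n = a} ∩ ⋂ m ∈ Set.Iio n, {ω : ℕ → V | ω m ≠ b}) := by
    ext ω
    simp [bef]
  rw [h1]
  exact MeasurableSet.iUnion fun n => (meas_coord n (fun v => v = a)).inter
    (MeasurableSet.biInter (Set.to_countable _) fun s _ => meas_coord s (fun v => v ≠ b))

section
variable {G : SimpleGraph V} {μ : V → Measure (ℕ → V)}

lemma start_one (hF : Fam G μ) (x : V) (A : Set (ℕ → V)) (hA : MeasurableSet A)
    (h : ∀ ω, cons x ω ∈ A) : (μ x).real A = (μ x).real Set.univ := by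
  rw [hF.step x A hA, hF.step x Set.univ MeasurableSet.univ]
  refine Finset.sum_congr rfl fun y _ => ?_
  congr 2
  ext ω
  simp [h ω]

lemma start_zero (hF : Fam G μ) (x : V) (A : Set (ℕ → V)) (hA : MeasurableSet A)
    (h : ∀ ω, cons x ω ∉ A) : (μ x).real A = 0 := by
  rw [hF.step x A hA]
  refine Finset.sum_eq_zero fun y _ => ?_
  have h1 : {ω | cons x ω ∈ A} = ∅ := by
    ext ω
    simp [h ω]
  rw [h1, measureReal_empty, mul_zero]

lemma real_univ' (hF : Fam G μ) (x : V) : (μ x).real Set.univ = 1 := by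
  have := hF.prob x
  exact probReal_univ

lemma tp_sum' (hF : Fam G μ) (x : V) : ∑ y, tp G x y = 1 := by
  have h1 := hF.step x Set.univ MeasurableSet.univ
  rw [real_univ' hF] at h1
  rw [h1]
  refine Finset.sum_congr rfl fun y _ => ?_
  have h2 : {ω : ℕ → V | cons x ω ∈ Set.univ} = Set.univ := by
    ext ω
    simp
  rw [h2, real_univ' hF, mul_one]

lemma avd_self (hF : Fam G μ) (y : V) (t : ℕ) : (μ y).real (avd y t) = 0 := by
  refine start_zero hF y _ (meas_avd y t) fun ω h => ?_
  exact h 0 (Nat.zero_le t) rfl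

lemma avd_zero (hF : Fam G μ) {x y : V} (hxy : x ≠ y) : (μ x).real (avd y 0) = 1 := by
  rw [start_one hF x _ (meas_avd y 0), real_univ' hF]
  intro ω s hs
  obtain rfl : s = 0 := by omega
  exact hxy

lemma avd_succ (hF : Fam G μ) {x y : V} (hxy : x ≠ y) (t : ℕ) :
    (μ x).real (avd y (t + 1)) = ∑ z, tp G x z * (μ z).real (avd y t) := by
  rw [hF.step x _ (meas_avd y (t + 1))]
  refine Finset.sum_congr rfl fun z _ => ?_
  congr 2
  ext ω
  constructor
  · intro h s hs
    exact h (s + 1) (by omega)
  · intro h s hs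
    cases s with
    | zero => exact hxy
    | succ s => exact h s (by omega)

lemma avd_le_one (hF : Fam G μ) (x y : V) (t : ℕ) : (μ x).real (avd y t) ≤ 1 := by
  have := hF.prob x
  exact measureReal_le_one

lemma avd_nonneg (x y : V) (t : ℕ) : 0 ≤ (μ x).real (avd y t) := measureReal_nonneg

lemma avd_mono (hF : Fam G μ) (x y : V) {s t : ℕ} (hst : s ≤ t) :
    (μ x).real (avd y t) ≤ (μ x).real (avd y s) := by
  have := hF.prob x
  exact measureReal_mono (fun ω h k hk => h k (hk.trans hst))

/-- submultiplicativity -/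
lemma avd_sub (hF : Fam G μ) (y : V) (s : ℕ) (ρ : ℝ) (hρ : ∀ z, (μ z).real (avd y s) ≤ ρ)
    (t : ℕ) (x : V) :
    (μ x).real (avd y (s + t)) ≤ ρ * (μ x).real (avd y (t - 1)) := by
  have hρ0 : 0 ≤ ρ := (avd_nonneg x y s).trans (hρ x)
  induction t generalizing x with
  | zero =>
    by_cases hxy : x = y
    · rw [hxy, avd_self hF, avd_self hF, mul_zero]
    · show _ ≤ ρ * (μ x).real (avd y 0)
      rw [avd_zero hF hxy, mul_one]
      exact hρ x
  | succ t ih =>
    by_cases hxy : x = y
    · rw [hxy, avd_self hF, avd_self hF, mul_zero]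
    · rw [← add_assoc, avd_succ hF hxy]
      cases t with
      | zero =>
        show _ ≤ ρ * (μ x).real (avd y 0)
        rw [avd_zero hF hxy, mul_one]
        calc ∑ z, tp G x z * (μ z).real (avd y (s + 0)) ≤ ∑ z, tp G x z * ρ :=
              Finset.sum_le_sum fun z _ => mul_le_mul_of_nonneg_left (hρ z) (tp_nonneg G x z)
          _ = ρ := by rw [← Finset.sum_mul, tp_sum' hF, one_mul]
      | succ t =>
        show _ ≤ ρ * (μ x).real (avd y (t + 1))
        rw [avd_succ hF hxy, Finset.mul_sum]
        refine Finset.sum_le_sum fun z _ => ?_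
        have h1 := ih z
        rw [Nat.add_sub_cancel] at h1
        calc tp G x z * (μ z).real (avd y (s + (t + 1)))
            ≤ tp G x z * (ρ * (μ z).real (avd y t)) :=
              mul_le_mul_of_nonneg_left h1 (tp_nonneg G x z)
          _ = ρ * (tp G x z * (μ z).real (avd y t)) := by ring

/-- some time with probability less than one -/
lemma exists_lt_one (hF : Fam G μ) (hG : G.Connected) (x y : V) :
    ∃ t, (μ x).real (avd y t) < 1 := by
  obtain ⟨p⟩ := hG.preconnected x y
  induction p with
  | nil => exact ⟨0, by rw [avd_self hF]; exact one_pos⟩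
  | @cons u v w huv _ ih =>
    obtain ⟨t, ht⟩ := ih
    by_cases huw : u = w
    · exact ⟨0, by rw [huw, avd_self hF]; exact one_pos⟩
    · refine ⟨t + 1, ?_⟩
      rw [avd_succ hF huw, ← tp_sum' hF u]
      refine Finset.sum_lt_sum (fun z _ => ?_) ⟨v, mem_univ v, ?_⟩
      · have := mul_le_mul_of_nonneg_left (avd_le_one hF z w t) (tp_nonneg G u z)
        simpa using this
      · have := mul_lt_mul_of_pos_left ht (tp_pos huv)
        simpa using this

lemma exists_rho (hF : Fam G μ) (hG : G.Connected) (y : V) :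
    ∃ (N : ℕ) (ρ : ℝ), 0 ≤ ρ ∧ ρ < 1 ∧ ∀ x, (μ x).real (avd y N) ≤ ρ := by
  choose T hT using fun x => exists_lt_one hF hG x y
  have hne : Nonempty V := ⟨y⟩
  set N := Finset.univ.sup T with hN
  obtain ⟨x0, hx0⟩ := Finite.exists_max (fun x => (μ x).real (avd y N))
  refine ⟨N, (μ x0).real (avd y N), avd_nonneg _ _ _, ?_, hx0⟩
  exact lt_of_le_of_lt (avd_mono hF x0 y (Finset.le_sup (f := T) (mem_univ x0))) (hT x0)

lemma avd_summable (hF : Fam G μ) (hG : G.Connected) (x y : V) :
    Summable (fun t => (μ x).real (avd y t)) := by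
  obtain ⟨N, ρ, hρ0, hρ1, hρ⟩ := exists_rho hF hG y
  -- bound: a_{k(N+1) + j} ≤ ρ^k
  have h1 : ∀ k x, (μ x).real (avd y (k * (N + 1))) ≤ ρ ^ k := by
    intro k
    induction k with
    | zero =>
      intro x
      simpa using avd_le_one hF x y 0
    | succ k ih =>
      intro x
      have e1 : (k + 1) * (N + 1) = N + (k * (N + 1) + 1) := by ring
      rw [e1]
      have h2 := avd_sub hF y N ρ hρ (k * (N + 1) + 1) x
      rw [Nat.add_sub_cancel] at h2
      calc (μ x).real (avd y (N + (k * (N + 1) + 1))) ≤ ρ * (μ x).real (avd y (k * (N + 1))) := h2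
        _ ≤ ρ * ρ ^ k := mul_le_mul_of_nonneg_left (ih x) hρ0
        _ = ρ ^ (k + 1) := by ring
  have h2 : ∀ M, ∑ t ∈ Finset.range (M * (N + 1)), (μ x).real (avd y t) ≤ (N + 1) * (1 - ρ)⁻¹ := by
    intro M
    have h3 : ∑ t ∈ Finset.range (M * (N + 1)), (μ x).real (avd y t)
        ≤ ∑ k ∈ Finset.range M, (N + 1) * ρ ^ k := by
      induction M with
      | zero => simp
      | succ M ih =>
        rw [Finset.sum_range_succ, Nat.succ_mul, Finset.sum_range_add]
        refine add_le_add ih ?_
        calc ∑ j ∈ Finset.range (N + 1), (μ x).real (avd y (M * (N + 1) + j))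
            ≤ ∑ j ∈ Finset.range (N + 1), ρ ^ M := by
              refine Finset.sum_le_sum fun j _ => ?_
              exact (avd_mono hF x y (Nat.le_add_right _ _)).trans (h1 M x)
          _ = (N + 1) * ρ ^ M := by simp
    refine h3.trans ?_
    rw [← Finset.mul_sum]
    refine mul_le_mul_of_nonneg_left ?_ (by positivity)
    rw [← tsum_geometric_of_lt_one hρ0 hρ1]
    exact (summable_geometric_of_lt_one hρ0 hρ1).sum_le_tsum _ (fun _ _ => by positivity)
  refine summable_of_sum_range_le (c := (N + 1) * (1 - ρ)⁻¹) (fun t => avd_nonneg x y t) ?_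
  intro n
  refine le_trans ?_ (h2 n)
  refine Finset.sum_le_sum_of_subset_of_nonneg ?_ fun _ _ _ => avd_nonneg _ _ _
  intro t ht
  rw [Finset.mem_range] at *
  nlinarith

end

/-- CC-REC -/
theorem REC_ok : S_REC := by
  intro V _ _ _ G μ hF hG
  have hsum := fun x y => avd_summable hF hG x y
  refine ⟨hsum, ?_, ?_, ?_, ?_, ?_, ?_, ?_⟩
  · intro x y
    have hpr := hF.prob x
    have h1 : (μ x).real (hits y)ᶜ = 0 := by
      have h2 : ∀ t, (μ x).real (hits y)ᶜ ≤ (μ x).real (avd y t) := fun t => by
        refine measureReal_mono (fun ω h s _ hs => ?_)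
        exact h ⟨s, hs⟩
      have h3 := (hsum x y).tendsto_atTop_zero
      exact le_antisymm (ge_of_tendsto' h3 h2) measureReal_nonneg
    rw [probReal_compl_eq_one_sub (meas_hits y)] at h1
    linarith
  · intro x
    unfold h
    simp [avd_self hF]
  · intro x y hxy
    unfold h
    rw [← avd_zero hF hxy]
    exact (hsum x y).le_tsum 0 (fun _ _ => avd_nonneg _ _ _)
  · intro x y hxy
    unfold h
    rw [(hsum x y).tsum_eq_zero_add, avd_zero hF hxy]
    congr 1
    rw [tsum_congr fun t => avd_succ hF hxy t, Summable.tsum_finsetSum]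
    · exact Finset.sum_congr rfl fun z _ => tsum_mul_left
    · intro z _
      exact (hsum z y).mul_left _
  · intro a b
    unfold pb
    rw [start_one hF a _ (meas_bef a b), real_univ' hF]
    intro ω
    exact ⟨0, rfl, fun m hm => absurd hm (Nat.not_lt_zero m)⟩
  · intro a b hab
    unfold pb
    refine start_zero hF b _ (meas_bef a b) ?_
    rintro ω ⟨n, hn, hn'⟩
    cases n with
    | zero => exact hab hn.symm
    | succ n => exact hn' 0 (Nat.succ_pos n) rfl
  · intro x a b hxa hxb
    unfold pb
    rw [hF.step x _ (meas_bef a b)]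
    refine Finset.sum_congr rfl fun z _ => ?_
    congr 2
    ext ω
    constructor
    · rintro ⟨n, hn, hn'⟩
      cases n with
      | zero => exact absurd hn hxa
      | succ n => exact ⟨n, hn, fun m hm => hn' (m + 1) (by omega)⟩
    · rintro ⟨n, hn, hn'⟩
      refine ⟨n + 1, hn, fun m hm => ?_⟩
      cases m with
      | zero => exact hxb
      | succ m => exact hn' m (by omega)

end Pool.Agent.R695.CC
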