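import Pool.Agent.R695.CC.Stm

/-!
# Markov properties of the random walk from the first step decomposition (piece CC-SM)
-/

set_option autoImplicit false

open MeasureTheory ProbabilityTheory Finset
open scoped ENNReal

namespace Pool.Agent.R695.CC

variable {V : Type} [Fintype V]

/-- sets depending on finitely many coordinates are measurable -/
theorem meas_of_dep [MeasurableSpace V] [DiscreteMeasurableSpace V] (n : ℕ)
    (E : Set (ℕ → V)) (hE : ∀ ω ω' : ℕ → V, (∀ m ≤ n, ω' m = ω m) → ω ∈ E → ω' ∈ E) :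
    MeasurableSet E := by
  let p : (ℕ → V) → (Finset.Iic n → V) := fun ω i => ω i
  have hp : Measurable p := measurable_pi_lambda _ (fun i => measurable_pi_apply _)
  have h1 : E = p ⁻¹' (p '' E) := by
    ext ω
    constructor
    · intro h
      exact ⟨ω, h, rfl⟩
    · rintro ⟨ω', h', he⟩
      refine hE ω' ω ?_ h'
      intro m hm
      have := congrFun he ⟨m, Finset.mem_Iic.2 hm⟩
      exact this.symm
  rw [h1]
  exact hp (Set.toFinite _).measurableSet

theorem meas_cons [MeasurableSpace V] (x : V) : Measurable (cons x) := by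
  refine measurable_pi_lambda _ (fun i => ?_)
  cases i with
  | zero => exact measurable_const
  | succ n => exact measurable_pi_apply n

theorem meas_shf [MeasurableSpace V] (n : ℕ) : Measurable (shf n : (ℕ → V) → ℕ → V) :=
  measurable_pi_lambda _ (fun i => measurable_pi_apply (n + i))

theorem shf_cons (x : V) (n : ℕ) (ω : ℕ → V) : shf (n + 1) (cons x ω) = shf n ω := by
  funext k
  unfold shf
  have : n + 1 + k = (n + k) + 1 := by ring
  rw [this]
  rfl

theorem shf_zero (ω : ℕ → V) : shf 0 ω = ω := by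
  funext k
  unfold shf
  rw [Nat.zero_add]

theorem start_null [MeasurableSpace V] [DiscreteMeasurableSpace V]
    (G : SimpleGraph V) (μ : V → Measure (ℕ → V)) (hF : Fam G μ) (x : V) :
    (μ x).real {ω : ℕ → V | ω 0 ≠ x} = 0 := by
  have hm : MeasurableSet {ω : ℕ → V | ω 0 ≠ x} := by
    refine meas_of_dep 0 _ ?_
    intro ω ω' h hω
    have h0 := h 0 le_rfl
    simp only [Set.mem_setOf_eq] at hω ⊢
    rw [h0]
    exact hω
  rw [hF.step x _ hm]
  refine Finset.sum_eq_zero (fun y _ => ?_)
  have : {ω : ℕ → V | cons x ω ∈ {ω : ℕ → V | ω 0 ≠ x}} = ∅ := by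
    ext ω
    simp [cons]
  rw [this]
  simp

theorem MK_ok : S_MK := by
  intro V _ _ _ G μ hF n
  induction n with
  | zero =>
    intro x y E F hFm hE
    haveI := hF.prob x
    haveI := hF.prob y
    have h0 := start_null G μ hF x
    by_cases hxy : y = x
    · subst hxy
      by_cases hne : ∃ ω0 : ℕ → V, ω0 ∈ E ∧ ω0 0 = y
      · obtain ⟨ω0, h1, h2⟩ := hne
        have hEq : E ∩ {ω : ℕ → V | ω 0 = y} = {ω : ℕ → V | ω 0 = y} := by
          refine Set.inter_eq_right.2 ?_
          intro ω hω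
          refine hE ω0 ω ?_ h1
          intro m hm
          have : m = 0 := Nat.le_zero.1 hm
          subst this
          rw [h2]
          exact hω
        rw [hEq]
        have hae : ∀ᵐ ω ∂(μ y), ω 0 = y := by
          rw [ae_iff]
          have := h0
          rw [measureReal_eq_zero_iff] at this
          exact this
        have e1 : (μ y).real ({ω : ℕ → V | ω 0 = y} ∩ {ω | shf 0 ω ∈ F}) = (μ y).real F := by
          refine measureReal_congr ?_
          filter_upwards [hae] with ω hω
          apply propext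
          show (ω 0 = y ∧ shf 0 ω ∈ F) ↔ ω ∈ F
          rw [shf_zero]
          exact ⟨fun h => h.2, fun h => ⟨hω, h⟩⟩
        have e2 : (μ y).real {ω : ℕ → V | ω 0 = y} = 1 := by
          have : (μ y).real {ω : ℕ → V | ω 0 = y} = (μ y).real Set.univ := by
            refine measureReal_congr ?_
            filter_upwards [hae] with ω hω
            apply propext
            show (ω 0 = y) ↔ True
            exact ⟨fun _ => trivial, fun _ => hω⟩
          rw [this]
          exact probReal_univ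
        rw [e1, e2, one_mul]
      · have hEq : E ∩ {ω : ℕ → V | ω 0 = y} = ∅ := by
          ext ω
          simp only [Set.mem_inter_iff, Set.mem_setOf_eq, Set.mem_empty_iff_false, iff_false]
          exact fun h => hne ⟨ω, h.1, h.2⟩
        rw [hEq]
        simp
    · have hz : (μ x).real (E ∩ {ω : ℕ → V | ω 0 = y}) = 0 := by
        refine le_antisymm ?_ measureReal_nonneg
        rw [← h0]
        refine measureReal_mono ?_
        intro ω hω
        simp only [Set.mem_inter_iff, Set.mem_setOf_eq] at hω ⊢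
        rw [hω.2]
        exact hxy
      have hz2 : (μ x).real (E ∩ {ω : ℕ → V | ω 0 = y} ∩ {ω | shf 0 ω ∈ F}) = 0 := by
        refine le_antisymm ?_ measureReal_nonneg
        rw [← hz]
        exact measureReal_mono Set.inter_subset_left
      rw [hz, hz2, zero_mul]
  | succ n ih =>
    intro x y E F hFm hE
    have hm1 : MeasurableSet E := meas_of_dep (n + 1) E hE
    have hm2 : MeasurableSet {ω : ℕ → V | ω (n + 1) = y} := by
      refine meas_of_dep (n + 1) _ ?_
      intro ω ω' h hω
      have h0 := h (n + 1) le_rfl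
      simp only [Set.mem_setOf_eq] at hω ⊢
      rw [h0]
      exact hω
    have hm3 : MeasurableSet {ω : ℕ → V | shf (n + 1) ω ∈ F} := meas_shf (n + 1) hFm
    rw [hF.step x _ ((hm1.inter hm2).inter hm3), hF.step x _ (hm1.inter hm2), Finset.sum_mul]
    refine Finset.sum_congr rfl (fun z _ => ?_)
    have e1 : {ω : ℕ → V | cons x ω ∈ E ∩ {ω : ℕ → V | ω (n + 1) = y} ∩
        {ω : ℕ → V | shf (n + 1) ω ∈ F}} =
        {ω : ℕ → V | cons x ω ∈ E} ∩ {ω : ℕ → V | ω n = y} ∩ {ω : ℕ → V | shf n ω ∈ F} := by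
      ext ω
      simp only [Set.mem_inter_iff, Set.mem_setOf_eq, shf_cons]
      rfl
    have e2 : {ω : ℕ → V | cons x ω ∈ E ∩ {ω : ℕ → V | ω (n + 1) = y}} =
        {ω : ℕ → V | cons x ω ∈ E} ∩ {ω : ℕ → V | ω n = y} := rfl
    rw [e1, e2, ih z y {ω : ℕ → V | cons x ω ∈ E} F hFm ?_, mul_assoc]
    intro ω ω' h hω
    refine hE (cons x ω) (cons x ω') ?_ hω
    intro m hm
    cases m with
    | zero => rfl
    | succ m => exact h m (by omega)

theorem dep_fst (y : V) (n : ℕ) (E : Set (ℕ → V)) (hD : Det y E) :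
    ∀ ω ω' : ℕ → V, (∀ m ≤ n, ω' m = ω m) → ω ∈ E ∩ fst y n → ω' ∈ E ∩ fst y n := by
  intro ω ω' h hω
  refine ⟨hD ω ω' n hω.2 h hω.1, ?_, ?_⟩
  · rw [h n le_rfl]
    exact hω.2.1
  · intro m hm
    rw [h m hm.le]
    exact hω.2.2 m hm

theorem SM2_ok : S_SM2 := by
  intro V _ _ _ G μ hF n x y E F hFm hD
  have h1 := MK_ok V G μ hF n x y (E ∩ fst y n) F hFm (dep_fst y n E hD)
  have h2 : E ∩ fst y n ∩ {ω : ℕ → V | ω n = y} = E ∩ fst y n := by
    refine Set.inter_eq_left.2 ?_
    intro ω hω
    exact hω.2.1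
  rw [h2] at h1
  exact h1

theorem fst_unique (y : V) (n m : ℕ) (ω : ℕ → V) (h1 : ω ∈ fst y n) (h2 : ω ∈ fst y m) :
    n = m := by
  rcases lt_trichotomy n m with h | h | h
  · exact absurd h1.1 (h2.2 n h)
  · exact h
  · exact absurd h2.1 (h1.2 m h)

theorem SM_ok : S_SM := by
  classical
  intro V _ _ _ G μ hF x y E F hFm hD
  haveI := hF.prob x
  haveI := hF.prob y
  have hm : ∀ n, MeasurableSet (E ∩ fst y n) := fun n => meas_of_dep n _ (dep_fst y n E hD)
  have hm2 : ∀ n, MeasurableSet (E ∩ fst y n ∩ {ω | shf n ω ∈ F}) :=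
    fun n => (hm n).inter (meas_shf n hFm)
  have e1 : E ∩ aft y F = ⋃ n, (E ∩ fst y n ∩ {ω | shf n ω ∈ F}) := by
    ext ω
    simp only [aft, Set.mem_inter_iff, Set.mem_setOf_eq, Set.mem_iUnion]
    constructor
    · rintro ⟨h1, n, h2, h3⟩
      exact ⟨n, ⟨h1, h2⟩, h3⟩
    · rintro ⟨n, ⟨h1, h2⟩, h3⟩
      exact ⟨h1, n, h2, h3⟩
  have e2 : E ∩ hits y = ⋃ n, (E ∩ fst y n) := by
    ext ω
    simp only [hits, Set.mem_inter_iff, Set.mem_setOf_eq, Set.mem_iUnion]
    constructor
    · rintro ⟨h1, h2⟩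
      refine ⟨Nat.find h2, h1, Nat.find_spec h2, ?_⟩
      intro m hm
      exact Nat.find_min h2 hm
    · rintro ⟨n, h1, h2⟩
      exact ⟨h1, n, h2.1⟩
  have d2 : Pairwise (Function.onFun Disjoint fun n => E ∩ fst y n) := by
    intro n m hnm
    refine Set.disjoint_left.2 ?_
    intro ω h1 h2
    exact hnm (fst_unique y n m ω h1.2 h2.2)
  have d1 : Pairwise (Function.onFun Disjoint fun n => E ∩ fst y n ∩ {ω | shf n ω ∈ F}) := by
    intro n m hnm
    exact (d2 hnm).mono Set.inter_subset_left Set.inter_subset_left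
  have key : ∀ n, (μ x) (E ∩ fst y n ∩ {ω | shf n ω ∈ F}) = (μ x) (E ∩ fst y n) * (μ y) F := by
    intro n
    have h := SM2_ok V G μ hF n x y E F hFm hD
    unfold Measure.real at h
    rw [← ENNReal.toReal_mul] at h
    refine (ENNReal.toReal_eq_toReal_iff' (measure_ne_top _ _) ?_).1 h
    exact ENNReal.mul_ne_top (measure_ne_top _ _) (measure_ne_top _ _)
  have tot : (μ x) (E ∩ aft y F) = (μ x) (E ∩ hits y) * (μ y) F := by
    rw [e1, e2, measure_iUnion d1 hm2, measure_iUnion d2 hm, ← ENNReal.tsum_mul_right]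
    exact tsum_congr key
  unfold Measure.real
  rw [tot, ENNReal.toReal_mul]

end Pool.Agent.R695.CC
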