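import Pool.Agent.R695.CC.Pot

/-!
# CC-TOUR: graph walk lemmas
-/

set_option autoImplicit false
set_option linter.unusedSectionVars false

open MeasureTheory ProbabilityTheory Finset
open scoped ENNReal

namespace Pool.Agent.R695.CC

open Classical in
lemma tour_aux {V : Type} [Fintype V] (G : SimpleGraph V) (n : ℕ) (hn : Fintype.card V = n + 1)
    (hG : G.Connected) (r : V) (m : ℕ) (hm : m ≤ n) :
    ∃ p : G.Walk r r, p.length = 2 * m ∧ m + 1 ≤ p.support.toFinset.card := by
  induction m with
  | zero => exact ⟨SimpleGraph.Walk.nil, rfl, by simp⟩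
  | succ m ih =>
    obtain ⟨p, hp1, hp2⟩ := ih (by omega)
    by_cases hall : ∀ v, v ∈ p.support
    · obtain ⟨v, hv⟩ := exists_adj hG (by omega) r
      refine ⟨p.append (SimpleGraph.Walk.cons hv (SimpleGraph.Walk.cons hv.symm
        SimpleGraph.Walk.nil)), ?_, ?_⟩
      · rw [SimpleGraph.Walk.length_append]
        simp only [SimpleGraph.Walk.length_cons, SimpleGraph.Walk.length_nil]
        omega
      · have h1 : (p.append (SimpleGraph.Walk.cons hv (SimpleGraph.Walk.cons hv.symm
            SimpleGraph.Walk.nil))).support.toFinset = univ := by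
          ext u
          simp only [List.mem_toFinset, mem_univ, iff_true,
            SimpleGraph.Walk.mem_support_append_iff]
          exact Or.inl (hall u)
        rw [h1, card_univ, hn]
        omega
    · push Not at hall
      obtain ⟨v0, hv0⟩ := hall
      obtain ⟨q⟩ := hG.preconnected r v0
      obtain ⟨d, -, hd1, hd2⟩ := q.exists_boundary_dart {u | u ∈ p.support}
        p.start_mem_support hv0
      obtain ⟨⟨s, v⟩, hsv⟩ := d
      simp only [Set.mem_ofPred_eq] at hd1 hd2
      refine ⟨(p.takeUntil s hd1).append ((SimpleGraph.Walk.cons hsv (SimpleGraph.Walk.cons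
        hsv.symm SimpleGraph.Walk.nil)).append (p.dropUntil s hd1)), ?_, ?_⟩
      · rw [SimpleGraph.Walk.length_append, SimpleGraph.Walk.length_append]
        simp only [SimpleGraph.Walk.length_cons, SimpleGraph.Walk.length_nil]
        have h1 := congrArg SimpleGraph.Walk.length (p.take_spec hd1)
        rw [SimpleGraph.Walk.length_append] at h1
        omega
      · have h1 : insert v p.support.toFinset ⊆ ((p.takeUntil s hd1).append
            ((SimpleGraph.Walk.cons hsv (SimpleGraph.Walk.cons
            hsv.symm SimpleGraph.Walk.nil)).append (p.dropUntil s hd1))).support.toFinset := by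
          intro u hu
          rw [Finset.mem_insert] at hu
          simp only [List.mem_toFinset, SimpleGraph.Walk.mem_support_append_iff] at hu ⊢
          rcases hu with rfl | hu
          · right; left
            simp
          · have h2 : u ∈ ((p.takeUntil s hd1).append (p.dropUntil s hd1)).support := by
              rw [p.take_spec hd1]
              exact hu
            rw [SimpleGraph.Walk.mem_support_append_iff] at h2
            tauto
        have h2 := Finset.card_le_card h1
        rw [Finset.card_insert_of_notMem (by simpa using hd2)] at h2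
        omega

theorem TOUR_ok : S_TOUR := by
  classical
  intro V _ G n hn hG
  have hne : Nonempty V := Fintype.card_pos_iff.1 (by omega)
  obtain ⟨r⟩ := hne
  obtain ⟨p, hp1, hp2⟩ := tour_aux G n hn hG r n le_rfl
  refine ⟨p.getVert, fun t ht => p.adj_getVert_succ (by omega), fun v => ?_⟩
  have h1 : p.support.toFinset = univ := by
    rw [← Finset.card_eq_iff_eq_univ, hn]
    apply le_antisymm _ hp2
    rw [← hn]
    exact Finset.card_le_univ _
  have h2 : v ∈ p.support := by
    have : v ∈ p.support.toFinset := by
      rw [h1]
      exact mem_univ v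
    simpa using this
  obtain ⟨t, ht1, ht2⟩ := SimpleGraph.Walk.mem_support_iff_exists_getVert.1 h2
  exact ⟨t, by omega, ht1⟩

theorem NET_ok : S_NET := by
  intro V _ G hG φ D hφ hD c r k κ hk hκ hc hr
  have key : ∀ i : ℕ, 0 < i → i ≤ k → ∃ v, i * κ ≤ φ v ∧ φ v ≤ i * κ + D := by
    intro i hi hik
    obtain ⟨q⟩ := hG.preconnected c r
    have hi' : (0 : ℝ) < i := by exact_mod_cast hi
    have hik' : (i : ℝ) ≤ k := by exact_mod_cast hik
    obtain ⟨d, -, hd1, hd2⟩ := q.exists_boundary_dart {u | φ u < i * κ}
      (by
        show φ c < i * κ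
        rw [hc]
        positivity)
      (by
        show ¬ φ r < i * κ
        rw [hr, not_lt]
        exact mul_le_mul_of_nonneg_right hik' hκ.le)
    have h1 := hφ _ _ d.adj
    simp only [Set.mem_ofPred_eq, not_lt] at hd1 hd2
    exact ⟨d.snd, hd2, by linarith⟩
  have hne : Nonempty V := ⟨c⟩
  choose! v hv using key
  refine ⟨fun i => if i = 0 then c else if i = k then r else v i, by simp, ?_, ?_⟩
  · have : k ≠ 0 := by omega
    simp [this]
  · intro i hi
    by_cases h0 : i = 0
    · subst h0
      simp only [if_true]
      rw [hc]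
      simp [hD]
    · by_cases h1 : i = k
      · subst h1
        simp only [if_neg h0, if_true]
        rw [hr]
        exact ⟨le_rfl, by linarith⟩
      · simp only [if_neg h0, if_neg h1]
        exact hv i (by omega) hi

theorem LIP_ok : S_LIP := by
  classical
  intro V _ _ _ G μ h2 hG hR hP r x
  set H := h μ r x with hH
  set D := DD G with hD
  have hD0 : 0 < D := DD_pos h2 hG
  have hH0 : 0 ≤ H := hR.h0 r x
  obtain ⟨p0⟩ := hG.preconnected x r
  set q := p0.bypass with hq
  have hqp : q.IsPath := p0.bypass_isPath
  set m := q.length with hm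
  have hstep : ∀ j, j ≤ m → H - j * D ≤ h μ r (q.getVert j) := by
    intro j
    induction j with
    | zero =>
      intro _
      rw [SimpleGraph.Walk.getVert_zero]
      simp [hH]
    | succ j ih =>
      intro hj
      have h1 := ih (by omega)
      have h3 := hP.tri r (q.getVert (j + 1)) (q.getVert j)
      have h4 := hP.edge (q.getVert (j + 1)) (q.getVert j) (q.adj_getVert_succ (by omega)).symm
      push_cast
      linarith
  have hmD : H ≤ m * D := by
    have h1 := hstep m le_rfl
    rw [hm, SimpleGraph.Walk.getVert_length, hR.hxx] at h1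
    linarith
  set J := ⌊H / (2 * D)⌋₊ with hJ
  have hJ1 : (J : ℝ) ≤ H / (2 * D) := Nat.floor_le (by positivity)
  have hJ2 : H / (2 * D) < J + 1 := Nat.lt_floor_add_one _
  have hJD : J * D ≤ H / 2 := by
    have := mul_le_mul_of_nonneg_right hJ1 hD0.le
    have e1 : H / (2 * D) * D = H / 2 := by field_simp
    linarith
  have hJm : J ≤ m := by
    have h1 : (J : ℝ) * D ≤ m * D := by linarith
    exact_mod_cast le_of_mul_le_mul_right h1 hD0
  have hsum : ∑ j ∈ Finset.range (J + 1), h μ r (q.getVert j) ≤ ∑ y, h μ r y := by
    rw [← Finset.sum_image (f := fun y => h μ r y) (g := fun j => q.getVert j)]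
    · exact Finset.sum_le_univ_sum_of_nonneg fun y => hR.h0 r y
    · intro i hi j hj hij
      have hi' := Finset.mem_range.1 hi
      have hj' := Finset.mem_range.1 hj
      exact hqp.getVert_injOn (show i ≤ q.length by omega) (show j ≤ q.length by omega) hij
  have hlow : (J + 1) * (H / 2) ≤ ∑ j ∈ Finset.range (J + 1), h μ r (q.getVert j) := by
    have h1 : ∑ j ∈ Finset.range (J + 1), H / 2 = (J + 1) * (H / 2) := by simp
    rw [← h1]
    refine Finset.sum_le_sum fun j hj => ?_
    have hj' : j ≤ J := by have := Finset.mem_range.1 hj; omega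
    have h3 := hstep j (by omega)
    have h4 : (j : ℝ) * D ≤ J * D := mul_le_mul_of_nonneg_right (by exact_mod_cast hj') hD0.le
    linarith
  have h5 : H / (2 * D) * (H / 2) ≤ (J + 1) * (H / 2) :=
    mul_le_mul_of_nonneg_right hJ2.le (by positivity)
  have h6 : H ^ 2 = 4 * D * (H / (2 * D) * (H / 2)) := by
    field_simp
    ring
  rw [h6]
  exact mul_le_mul_of_nonneg_left (by linarith) (by positivity)

end Pool.Agent.R695.CC
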