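import Pool.Agent.R695.CC.Stm

/-!
# The law of simple random walk has the first step decomposition (`S_W`)
-/

set_option autoImplicit false
set_option linter.unusedSectionVars false

open MeasureTheory ProbabilityTheory Finset
open scoped ENNReal

namespace Pool.Agent.R695.CC

namespace WL

variable {V : Type} [Fintype V] [MeasurableSpace V] [DiscreteMeasurableSpace V]

instance (G : SimpleGraph V) (u : V) : IsProbabilityMeasure (walkLaw G u) := by
  unfold walkLaw; infer_instance

lemma map_zero (G : SimpleGraph V) (u : V) :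
    (walkLaw G u).map (fun ω => ω 0) = Measure.dirac u := by
  unfold walkLaw Kernel.trajMeasure
  have h0 : (fun ω : ℕ → V => ω 0) =
      (fun x : (Finset.Iic 0 → V) => x ⟨0, by simp⟩) ∘ (Preorder.frestrictLe 0) := by
    ext ω; rfl
  rw [h0, ← Measure.map_map (by fun_prop) (by fun_prop)]
  rw [Measure.map_comp _ _ (by fun_prop), Kernel.traj_map_frestrictLe, Kernel.partialTraj_self,
    Measure.id_comp]
  rw [Measure.map_map (by fun_prop) (by fun_prop)]
  exact Measure.map_id (μ := Measure.dirac u)

lemma step_meas (G : SimpleGraph V) (u : V) (t : ℕ) (A : Set (Finset.Iic t → V)) (z : V) :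
    walkLaw G u ((Preorder.frestrictLe t) ⁻¹' A ∩ {ω | ω (t + 1) = z}) =
      ∫⁻ ω in (Preorder.frestrictLe t) ⁻¹' A, stepLaw G (ω t) z ∂(walkLaw G u) := by
  have hA : MeasurableSet A := MeasurableSet.of_discrete
  have key := congrArg (fun μ => μ (A ×ˢ {z}))
    (Kernel.map_frestrictLe_trajMeasure_compProd_eq_map_trajMeasure (X := fun _ => V)
      (μ₀ := Measure.dirac u) (κ := stepKernel G) (a := t))
  beta_reduce at key
  rw [Measure.compProd_apply_prod hA (MeasurableSet.singleton z), Measure.map_apply (by fun_prop)
    (hA.prod (MeasurableSet.singleton z)), setLIntegral_map hA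
    (Kernel.measurable_coe _ (MeasurableSet.singleton z)) (by fun_prop)] at key
  unfold walkLaw
  have hs : (fun x : ℕ → V => (Preorder.frestrictLe (π := fun _ => V) t x, x (t + 1))) ⁻¹'
      A ×ˢ {z} = (Preorder.frestrictLe t) ⁻¹' A ∩ {ω | ω (t + 1) = z} := by
    ext ω; simp
  rw [hs] at key
  rw [← key]
  refine lintegral_congr fun ω => ?_
  rw [stepKernel, Kernel.comap_apply]
  change (stepLaw G (ω t)).toMeasure {z} = _
  rw [PMF.toMeasure_apply_singleton _ _ (MeasurableSet.singleton z)]

/-- cylinder -/
def cyl (n : ℕ) (p : ℕ → V) : Set (ℕ → V) := {w | ∀ i ≤ n, w i = p i}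

omit [Fintype V] in
lemma cyl_meas (n : ℕ) (p : ℕ → V) : MeasurableSet (cyl n p) := by
  have : cyl n p = ⋂ s ∈ Finset.Iic n, (fun ω : ℕ → V => ω s) ⁻¹' {p s} := by
    ext ω; simp [cyl]
  rw [this]
  exact Finset.measurableSet_biInter _ fun s _ => (measurable_pi_apply s) MeasurableSet.of_discrete

lemma tp_nonneg (G : SimpleGraph V) (x y : V) : 0 ≤ tp G x y := by
  unfold tp dg
  split_ifs
  · positivity
  · exact le_rfl

open Classical in
lemma nbr {G : SimpleGraph V} (h2 : 2 ≤ Fintype.card V) (hG : G.Connected) (x : V) :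
    (Finset.univ.filter fun y => G.Adj x y).Nonempty := by
  have : Nontrivial V := Fintype.one_lt_card_iff_nontrivial.1 (by omega)
  obtain ⟨y, hy⟩ := hG.preconnected.exists_adj_of_nontrivial x
  exact ⟨y, by simpa using hy⟩

open Classical in
lemma stepLaw_eq {G : SimpleGraph V} (h2 : 2 ≤ Fintype.card V) (hG : G.Connected) (x y : V) :
    stepLaw G x y = ENNReal.ofReal (tp G x y) := by
  have hne := nbr h2 hG x
  have hpos : 0 < dg G x := by
    unfold dg
    exact_mod_cast hne.card_pos
  unfold stepLaw tp
  rw [dif_pos hne, PMF.uniformOfFinset_apply]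
  by_cases hxy : G.Adj x y
  · have hm : y ∈ Finset.univ.filter fun y => G.Adj x y := by simpa using hxy
    rw [if_pos hm, if_pos hxy, one_div, ENNReal.ofReal_inv_of_pos hpos, dg, ENNReal.ofReal_natCast]
  · have hm : y ∉ Finset.univ.filter fun y => G.Adj x y := by simpa using hxy
    rw [if_neg hm, if_neg hxy, ENNReal.ofReal_zero]

lemma tp_sum {G : SimpleGraph V} (h2 : 2 ≤ Fintype.card V) (hG : G.Connected) (x : V) :
    ∑ y, tp G x y = 1 := by
  have hne := nbr h2 hG x
  have hpos : 0 < dg G x := by
    unfold dg
    exact_mod_cast hne.card_pos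
  unfold tp
  rw [← Finset.sum_filter, Finset.sum_const, nsmul_eq_mul]
  change dg G x * (1 / dg G x) = 1
  field_simp

open Classical in
lemma cyl_law {G : SimpleGraph V} (h2 : 2 ≤ Fintype.card V) (hG : G.Connected) (r : V) (n : ℕ)
    (p : ℕ → V) : walkLaw G r (cyl n p) =
      (if p 0 = r then 1 else 0) * ∏ i ∈ Finset.range n, ENNReal.ofReal (tp G (p i) (p (i + 1))) := by
  induction n with
  | zero =>
    have h := congrArg (fun μ => μ {p 0}) (map_zero G r)
    beta_reduce at h
    rw [Measure.map_apply (by fun_prop) MeasurableSet.of_discrete,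
      Measure.dirac_apply' _ MeasurableSet.of_discrete] at h
    have hs : (fun ω : ℕ → V => ω 0) ⁻¹' {p 0} = cyl 0 p := by
      ext ω; simp [cyl]
    rw [hs] at h
    rw [h]
    simp only [Finset.range_zero, Finset.prod_empty, mul_one, Set.indicator_apply,
      Set.mem_singleton_iff, Pi.one_apply]
    by_cases hr : p 0 = r
    · simp [hr]
    · rw [if_neg hr, if_neg fun h => hr h.symm]
  | succ n ih =>
    have hs : (Preorder.frestrictLe (π := fun _ => V) n) ⁻¹' {x | ∀ i, x i = p i} = cyl n p := by
      ext ω
      simp only [cyl, Set.mem_ofPred_eq, Set.mem_preimage]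
      constructor
      · intro h s hs
        exact h ⟨s, Finset.mem_Iic.2 hs⟩
      · intro h s
        exact h s (Finset.mem_Iic.1 s.2)
    have hs2 : cyl (n + 1) p = (Preorder.frestrictLe (π := fun _ => V) n) ⁻¹' {x | ∀ i, x i = p i} ∩
        {ω | ω (n + 1) = p (n + 1)} := by
      rw [hs]
      ext ω
      simp only [cyl, Set.mem_ofPred_eq, Set.mem_inter_iff]
      constructor
      · intro h
        exact ⟨fun i hi => h i (by omega), h _ le_rfl⟩
      · rintro ⟨h1, h2⟩ i hi
        rcases Nat.lt_or_ge n i with h3 | h3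
        · have : i = n + 1 := by omega
          rw [this, h2]
        · exact h1 i h3
    rw [hs2, step_meas, hs]
    have h3 : ∫⁻ ω in cyl n p, stepLaw G (ω n) (p (n + 1)) ∂(walkLaw G r) =
        ∫⁻ _ in cyl n p, ENNReal.ofReal (tp G (p n) (p (n + 1))) ∂(walkLaw G r) := by
      refine setLIntegral_congr_fun (cyl_meas n p) fun ω hω => ?_
      beta_reduce
      rw [hω n le_rfl, stepLaw_eq h2 hG]
    rw [h3, setLIntegral_const, ih, Finset.prod_range_succ]
    ring

/-- measurability of `cons` -/
lemma cons_meas (x : V) : Measurable (cons x) := by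
  refine measurable_pi_iff.2 fun n => ?_
  cases n with
  | zero => exact measurable_const
  | succ n => exact measurable_pi_apply n

/-- the cylinders -/
def CC : Set (Set (ℕ → V)) := {s | ∃ n p, s = cyl n p}

omit [Fintype V] [MeasurableSpace V] [DiscreteMeasurableSpace V] in
lemma cyl_pi : IsPiSystem (CC (V := V)) := by
  rintro s ⟨n, p, rfl⟩ t ⟨m, q, rfl⟩ ⟨w, hw1, hw2⟩
  refine ⟨max n m, w, ?_⟩
  ext ω
  simp only [cyl, Set.mem_inter_iff, Set.mem_ofPred_eq] at *
  constructor
  · rintro ⟨h1, h2⟩ i hi
    rcases le_max_iff.1 hi with h3 | h3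
    · rw [h1 i h3, hw1 i h3]
    · rw [h2 i h3, hw2 i h3]
  · intro h
    exact ⟨fun i hi => by rw [h i (hi.trans (le_max_left _ _)), hw1 i hi],
      fun i hi => by rw [h i (hi.trans (le_max_right _ _)), hw2 i hi]⟩

lemma cyl_gen : (MeasurableSpace.pi : MeasurableSpace (ℕ → V)) =
    MeasurableSpace.generateFrom (CC (V := V)) := by
  refine le_antisymm ?_ ?_
  · refine iSup_le fun i => ?_
    rintro s ⟨S, _, rfl⟩
    -- finite union of cylinders
    have h1 : (fun b : ℕ → V => b i) ⁻¹' S = ⋃ p : {p : Fin (i + 1) → V // p (Fin.last i) ∈ S},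
        cyl i (fun j => p.1 ⟨min j i, by omega⟩) := by
      ext ω
      simp only [Set.mem_preimage, Set.mem_iUnion, cyl, Set.mem_ofPred_eq]
      constructor
      · intro h
        refine ⟨⟨fun j => ω j, by simpa using h⟩, fun j hj => ?_⟩
        simp [min_eq_left hj]
      · rintro ⟨p, hp⟩
        have := hp i le_rfl
        rw [this]
        have h3 := p.2
        convert h3 using 2
        ext
        simp
    rw [h1]
    exact MeasurableSet.iUnion fun p => MeasurableSpace.measurableSet_generateFrom ⟨i, _, rfl⟩
  · refine MeasurableSpace.generateFrom_le ?_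
    rintro s ⟨n, p, rfl⟩
    exact cyl_meas n p

end WL

open WL in
theorem W_ok : S_W := by
  classical
  intro V _ _ _ G h2 hG
  refine ⟨fun x => inferInstance, fun x A hA => ?_⟩
  set ν : Measure (ℕ → V) := ∑ y, ENNReal.ofReal (tp G x y) • (walkLaw G y).map (cons x) with hν
  have hνA : ∀ B : Set (ℕ → V), MeasurableSet B →
      ν B = ∑ y, ENNReal.ofReal (tp G x y) * walkLaw G y {ω | cons x ω ∈ B} := by
    intro B hB
    rw [hν, Measure.finsetSum_apply]
    refine Finset.sum_congr rfl fun y _ => ?_
    rw [Measure.smul_apply, Measure.map_apply (cons_meas x) hB, smul_eq_mul]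
    rfl
  have hsum : ∑ y, ENNReal.ofReal (tp G x y) = 1 := by
    rw [← ENNReal.ofReal_sum_of_nonneg fun y _ => tp_nonneg G x y, tp_sum h2 hG x,
      ENNReal.ofReal_one]
  have hμν : walkLaw G x = ν := by
    refine ext_of_generate_finite CC cyl_gen cyl_pi ?_ ?_
    · rintro s ⟨n, p, rfl⟩
      rw [hνA _ (cyl_meas n p), cyl_law h2 hG]
      by_cases hx : p 0 = x
      · rw [if_pos hx, one_mul]
        cases n with
        | zero =>
          have : ∀ y, walkLaw G y {ω | cons x ω ∈ cyl 0 p} = 1 := by
            intro y
            have : {ω : ℕ → V | cons x ω ∈ cyl 0 p} = Set.univ := by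
              ext ω
              simp [cyl, cons, hx]
            rw [this, measure_univ]
          simp only [this, mul_one, hsum, Finset.range_zero, Finset.prod_empty]
        | succ n =>
          have h3 : {ω : ℕ → V | cons x ω ∈ cyl (n + 1) p} = cyl n fun i => p (i + 1) := by
            ext ω
            simp only [cyl, Set.mem_ofPred_eq]
            constructor
            · intro h i hi
              exact h (i + 1) (by omega)
            · intro h i hi
              cases i with
              | zero => exact hx.symm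
              | succ i => exact h i (by omega)
          simp only [h3, cyl_law h2 hG]
          rw [Finset.sum_eq_single (p 1)]
          · rw [Finset.prod_range_succ', mul_comm]
            simp [hx]
          · intro y _ hy
            rw [zero_add, if_neg fun h => hy h.symm, zero_mul, mul_zero]
          · intro h
            exact absurd (Finset.mem_univ _) h
      · rw [if_neg hx, zero_mul]
        symm
        refine Finset.sum_eq_zero fun y _ => ?_
        have h3 : {ω : ℕ → V | cons x ω ∈ cyl n p} = ∅ := by
          ext ω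
          simp only [cyl, Set.mem_ofPred_eq, Set.mem_empty_iff_false, iff_false]
          intro h
          exact hx (h 0 (Nat.zero_le _)).symm
        rw [h3, measure_empty, mul_zero]
    · rw [hνA _ MeasurableSet.univ, measure_univ]
      simp only [Set.mem_univ, Set.ofPred_true, measure_univ, mul_one, hsum]
  rw [Measure.real, hμν, hνA A hA, ENNReal.toReal_sum]
  · refine Finset.sum_congr rfl fun y _ => ?_
    rw [ENNReal.toReal_mul, ENNReal.toReal_ofReal (tp_nonneg G x y)]
    rfl
  · intro y _
    exact ENNReal.mul_ne_top ENNReal.ofReal_ne_top (measure_ne_top _ _)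

end Pool.Agent.R695.CC
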