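import Pool.Agent.R695.CC.Main
import Pool.Agent.R695.CC.Params
import Pool.Agent.R695.CC.SM
import Pool.Agent.R695.CC.Rec
import Pool.Agent.R695.CC.Pot
import Pool.Agent.R695.CC.Tour
import Pool.Agent.R695.CC.W
import Pool.Agent.R695.CC.LINK
import Pool.Agent.R695.CC.CH
import Pool.Agent.R695.CC.PA
import Pool.Agent.R695.CC.PB
import Pool.Agent.R695.CC.PC
import Pool.Agent.R695.CC.K679CT12
import Pool.Agent.R695.CC.K679CT3

set_option autoImplicit false

open MeasureTheory ProbabilityTheory Finset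
open scoped ENNReal

namespace Pool.Agent.R695.CC.Q

theorem core_ok {M ε lam δ ν : ℝ} {k i0 i1 m : ℕ} (hp : Par M ε lam δ ν k i0 i1 m)
    {V : Type} [Fintype V] [MeasurableSpace V] [DiscreteMeasurableSpace V] {G : SimpleGraph V}
    {μ : V → Measure (ℕ → V)} (hG : G.Connected) (hF : Fam G μ) (hR : Rec G μ) (hP : Pot G μ)
    (n : ℕ) (hn : Fintype.card V = n + 1) (hn1 : 1 ≤ n) (hν : 1 ≤ ν * n)
    (r : V) (H : ℝ) (hH : ∀ z, h μ r z ≤ H) (hHδ : H ≤ δ * (n : ℝ) ^ 3) :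
    cv μ r Set.univ ≤ M * (n : ℝ) ^ 3 :=
  core (QL_ok SM_ok) (PC_ok SM_ok (PA_ok SM_ok) (PB_ok SM_ok)) (CH1_ok SM_ok) (CH2_ok SM_ok)
    NET_ok TOUR_ok (K679.CT1_ok SM2_ok) (K679.CT2_ok SM2_ok) (K679.CT3_ok MK_ok) hp hG hF hR hP n hn hn1 hν r H
    hH hHδ

theorem main_ok : S_MAIN := by
  intro M hM
  obtain ⟨ε, lam, δ, ν, k, i0, i1, m, hν0, hp⟩ := exists_par M hM
  have hδ0 := hp.δ0
  -- the constant
  set c : ℝ := min (δ ^ 2 / 16) (ν ^ 3 / 2) with hc
  have hc0 : 0 < c := lt_min (by positivity) (by positivity)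
  refine ⟨c, hc0, ?_⟩
  intro V _ _ _ G n hn hn1 hG r hCT
  have hV2 : 2 ≤ Fintype.card V := by omega
  have hF := W_ok V G hV2 hG
  have hR := REC_ok V G _ hF hG
  have hP := POT_ok V G _ hV2 hG hR
  obtain ⟨l1, l2⟩ := LINK_ok V G hV2 hG hF hR r
  set μ := walkLaw G with hμ
  have hN1 : (1 : ℝ) ≤ n := by exact_mod_cast hn1
  have hN0 : (0 : ℝ) < n := by linarith
  have hN3 : (0 : ℝ) < (n : ℝ) ^ 3 := by positivity
  rw [l2]
  have hcard : (Fintype.card V : ℝ) - 1 = n := by rw [hn]; push_cast; ring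
  rw [hcard]
  have hne : Nonempty V := ⟨r⟩
  obtain ⟨x, -, hx⟩ := Finset.exists_max_image Finset.univ (fun z => h μ r z) Finset.univ_nonempty
  have hx' : ∀ z, h μ r z ≤ h μ r x := fun z => hx z (Finset.mem_univ z)
  have hsum0 : (0 : ℝ) < (∑ y, h μ r y) / n := by
    refine div_pos ?_ hN0
    have : Nontrivial V := Fintype.one_lt_card_iff_nontrivial.mp (by omega)
    obtain ⟨z, hz⟩ := exists_ne r
    have h1 := hR.hge r z hz.symm
    have h2 := Finset.single_le_sum (fun y _ => h_nonneg μ r y) (Finset.mem_univ z)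
      (f := fun y => h μ r y)
    linarith
  rw [ENNReal.ofReal_lt_ofReal_iff hsum0, lt_div_iff₀ hN0]
  by_cases hsmall : ν * n < 1
  · -- few vertices
    have h1 : (n : ℝ) ≤ ∑ y, h μ r y := by
      classical
      have h2 : ∑ y ∈ Finset.univ.erase r, (1 : ℝ) ≤ ∑ y ∈ Finset.univ.erase r, h μ r y :=
        Finset.sum_le_sum fun y hy => hR.hge r y (Finset.ne_of_mem_erase hy).symm
      have h3 : ∑ y ∈ Finset.univ.erase r, h μ r y ≤ ∑ y, h μ r y :=
        Finset.sum_le_sum_of_subset_of_nonneg (Finset.erase_subset _ _)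
          fun y _ _ => h_nonneg μ r y
      rw [Finset.sum_const, Finset.card_erase_of_mem (Finset.mem_univ r), Finset.card_univ, hn,
        nsmul_eq_mul, mul_one] at h2
      have h4 : ((n + 1 - 1 : ℕ) : ℝ) = n := by simp
      rw [h4] at h2
      linarith
    refine lt_of_lt_of_le ?_ h1
    have h2 : c * (n : ℝ) ^ 3 < 1 := by
      have h3 : c * (n : ℝ) ^ 3 ≤ ν ^ 3 / 2 * (n : ℝ) ^ 3 :=
        mul_le_mul_of_nonneg_right (min_le_right _ _) hN3.le
      have h4 : (ν * n) ^ 3 ≤ 1 := pow_le_one₀ (by positivity) hsmall.le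
      have h5 : ν ^ 3 / 2 * (n : ℝ) ^ 3 = (ν * n) ^ 3 / 2 := by ring
      linarith
    nlinarith
  · push Not at hsmall
    by_cases hbig : h μ r x ≤ δ * (n : ℝ) ^ 3
    · exfalso
      have h1 := core_ok hp hG hF hR hP n hn hn1 hsmall r (h μ r x) hx' hbig
      rw [l1] at hCT
      exact absurd hCT (not_lt.mpr (ENNReal.ofReal_le_ofReal h1))
    · push Not at hbig
      have h1 := LIP_ok V G μ hV2 hG hR hP r x
      have h2 := DD_le (G := G) n hn hn1
      have hD0 : 0 < DD G := DD_pos G hG hV2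
      have hS0 : 0 ≤ ∑ y, h μ r y := Finset.sum_nonneg fun y _ => h_nonneg μ r y
      have h3 : (δ * (n : ℝ) ^ 3) ^ 2 < (h μ r x) ^ 2 :=
        pow_lt_pow_left₀ hbig (by positivity) two_ne_zero
      have h4 : 4 * DD G * ∑ y, h μ r y ≤ 8 * (n : ℝ) ^ 2 * ∑ y, h μ r y :=
        mul_le_mul_of_nonneg_right (by linarith) hS0
      have h5 : δ ^ 2 / 8 * (n : ℝ) ^ 4 < ∑ y, h μ r y := by
        have h6 : (δ * (n : ℝ) ^ 3) ^ 2 < 8 * (n : ℝ) ^ 2 * ∑ y, h μ r y := by linarith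
        have h7 : 8 * (n : ℝ) ^ 2 * (δ ^ 2 / 8 * (n : ℝ) ^ 4) = (δ * (n : ℝ) ^ 3) ^ 2 := by ring
        rw [← h7] at h6
        exact lt_of_mul_lt_mul_left h6 (by positivity)
      refine lt_of_le_of_lt ?_ h5
      have h8 : c * (n : ℝ) ^ 3 * n ≤ δ ^ 2 / 16 * (n : ℝ) ^ 4 := by
        calc c * (n : ℝ) ^ 3 * n = c * (n : ℝ) ^ 4 := by ring
          _ ≤ δ ^ 2 / 16 * (n : ℝ) ^ 4 :=
            mul_le_mul_of_nonneg_right (min_le_left _ _) (by positivity)
      have h9 : 0 ≤ δ ^ 2 / 16 * (n : ℝ) ^ 4 := by positivity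
      linarith

end Pool.Agent.R695.CC.Q
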