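import Pool.Agent.R695.CC.Core

set_option autoImplicit false

open MeasureTheory ProbabilityTheory Finset
open scoped ENNReal

namespace Pool.Agent.R695.CC.Q

/-- the probability of missing a high point before visiting `c` -/
theorem bad_small (hPC : S_PC) (hCH1 : S_CH1) (hCH2 : S_CH2) (hNET : S_NET)
    {M ε lam δ ν : ℝ} {k i0 i1 m : ℕ} (hp : Par M ε lam δ ν k i0 i1 m)
    {V : Type} [Fintype V] [MeasurableSpace V] [DiscreteMeasurableSpace V] {G : SimpleGraph V}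
    {μ : V → Measure (ℕ → V)} (hG : G.Connected) (hF : Fam G μ) (hR : Rec G μ) (hP : Pot G μ)
    {r c : V} {H : ℝ} (hQ : QLs μ r c H) (hH0 : 0 ≤ H) (n : ℕ) (hn1 : 1 ≤ n)
    (hD0 : 0 ≤ DD G) (hD : DD G ≤ 2 * (n : ℝ) ^ 2) (hν : 1 ≤ ν * n)
    (hHδ : H ≤ δ * (n : ℝ) ^ 3) (w : ℕ → V)
    (hw : ∀ t, G.Adj (w t) (w (t + 1))) (hcov : ∀ v, ∃ t ≤ 2 * n, w t = v)
    (hall : ∀ x y, h μ x y ≤ 2 * n * DD G) :
    (μ r).real {ω | ∃ v, v ∉ {v | h μ c v < ε * (n : ℝ) ^ 3} ∧ ω ∉ bef v c} ≤ M / 16 := by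
  obtain ⟨M0, ε0, ε1, l0, l1, δ0, c1, c2, c3, c3', c4, c5, c6, c7, c8, c9, c10, e1, e1', e2,
    i1pos, i10, i0k, n1, n2, n3⟩ := hp
  set N : ℝ := (n : ℝ) with hN
  have hN1 : (1 : ℝ) ≤ N := by rw [hN]; exact_mod_cast hn1
  have hN0 : 0 < N := by linarith
  have hk1 : 1 ≤ k := by omega
  have hk1' : (1 : ℝ) ≤ k := by exact_mod_cast hk1
  have hk0 : (0 : ℝ) < k := by linarith
  have hN3 : 0 < N ^ 3 := by positivity
  have hN2 : 0 < N ^ 2 := by positivity
  -- powers of N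
  have hνN3 : N ^ 2 ≤ ν * N ^ 3 := by
    have := mul_le_mul_of_nonneg_right hν hN2.le
    calc N ^ 2 = 1 * N ^ 2 := by ring
      _ ≤ ν * N * N ^ 2 := this
      _ = ν * N ^ 3 := by ring
  by_cases hcase : h μ c r + H < ε * N ^ 3
  · have hempty : {ω : ℕ → V | ∃ v, v ∉ {v | h μ c v < ε * N ^ 3} ∧ ω ∉ bef v c} = ∅ := by
      ext ω
      simp only [Set.mem_setOf_eq, Set.mem_empty_iff_false, iff_false]
      rintro ⟨v, hv, _⟩
      apply hv
      have h1 := hP.tri c r v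
      have h2 := hQ.hr v
      linarith
    rw [hempty, measureReal_empty]
    positivity
  · push Not at hcase
    have hφ1 : ε * N ^ 3 / 2 ≤ h μ c r := by
      have : δ * N ^ 3 ≤ ε / 2 * N ^ 3 := mul_le_mul_of_nonneg_right c3 hN3.le
      linarith
    have hφ2 : h μ c r ≤ 4 * N ^ 3 := by
      have := hall c r
      have h3 : 2 * N * DD G ≤ 2 * N * (2 * N ^ 2) :=
        mul_le_mul_of_nonneg_left hD (by positivity)
      calc h μ c r ≤ 2 * N * DD G := this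
        _ ≤ 2 * N * (2 * N ^ 2) := h3
        _ = 4 * N ^ 3 := by ring
    set κ : ℝ := h μ c r / k with hκ
    have hκk : h μ c r = k * κ := by rw [hκ]; field_simp
    have hκ1 : ε * N ^ 3 / (2 * k) ≤ κ := by
      rw [hκ, div_le_div_iff₀ (by positivity) hk0]
      nlinarith
    have hκ2 : κ ≤ 4 * N ^ 3 / k := by
      rw [hκ]
      exact div_le_div_of_nonneg_right hφ2 hk0.le
    have hκ0 : 0 < κ := lt_of_lt_of_le (by positivity) hκ1
    -- the net
    obtain ⟨y, hy0, hyk, hyb⟩ := hNET V G hG (fun v => h μ c v) (DD G) (fun x y hxy => by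
      have h1 := hP.tri c x y
      have h2 := hP.edge x y hxy
      linarith) hD0 c r k κ hk1 hκ0 (hR.hxx c) hκk
    have hNt : Nt μ r c y k κ (DD G) := ⟨hy0, hyk, fun i hi => (hyb i hi).1, fun i hi => (hyb i hi).2⟩
    -- (a)
    have ha : 16 * k * (DD G + 12 * H) ≤ κ := by
      refine le_trans ?_ hκ1
      rw [le_div_iff₀ (by positivity)]
      have b1 : DD G + 12 * H ≤ 2 * (ν * N ^ 3) + 12 * (δ * N ^ 3) := by linarith
      have b2 : 16 * k * (DD G + 12 * H) * (2 * k) ≤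
          32 * (k : ℝ) ^ 2 * (2 * (ν * N ^ 3) + 12 * (δ * N ^ 3)) := by
        have := mul_le_mul_of_nonneg_left b1 (show (0 : ℝ) ≤ 32 * (k : ℝ) ^ 2 by positivity)
        calc 16 * k * (DD G + 12 * H) * (2 * k) = 32 * (k : ℝ) ^ 2 * (DD G + 12 * H) := by ring
          _ ≤ _ := this
      refine b2.trans ?_
      have b3 : 64 * (k : ℝ) ^ 2 * ν ≤ ε / 2 := by linarith
      have b4 : 384 * (k : ℝ) ^ 2 * δ ≤ ε / 2 := by linarith
      calc 32 * (k : ℝ) ^ 2 * (2 * (ν * N ^ 3) + 12 * (δ * N ^ 3))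
          = (64 * (k : ℝ) ^ 2 * ν + 384 * (k : ℝ) ^ 2 * δ) * N ^ 3 := by ring
        _ ≤ (ε / 2 + ε / 2) * N ^ 3 := mul_le_mul_of_nonneg_right (by linarith) hN3.le
        _ = ε * N ^ 3 := by ring
    -- the chunk length
    set L : ℕ := ⌈lam * N⌉₊ with hL
    have hlamN : 1 ≤ lam * N := hν.trans (mul_le_mul_of_nonneg_right n1 hN0.le)
    have hL1 : lam * N ≤ L := Nat.le_ceil _
    have hL2 : (L : ℝ) ≤ 2 * (lam * N) := by
      have := Nat.ceil_lt_add_one (show 0 ≤ lam * N by positivity)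
      linarith
    have hLpos : 1 ≤ L := by
      have : (0 : ℝ) < L := by linarith
      exact_mod_cast this
    have hLD : L * DD G ≤ 4 * lam * N ^ 3 := by
      calc L * DD G ≤ (2 * (lam * N)) * (2 * N ^ 2) :=
            mul_le_mul hL2 hD hD0 (by positivity)
        _ = 4 * lam * N ^ 3 := by ring
    have hD3 : DD G ≤ 2 * lam * N ^ 3 := by
      calc DD G ≤ 2 * N ^ 2 := hD
        _ ≤ 2 * (ν * N ^ 3) := by linarith
        _ ≤ 2 * (lam * N ^ 3) := by
          have := mul_le_mul_of_nonneg_right n1 hN3.le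
          linarith
        _ = 2 * lam * N ^ 3 := by ring
    have hb : ((L : ℝ) + 1) * DD G ≤ κ / 2 := by
      have b1 : ((L : ℝ) + 1) * DD G ≤ 6 * lam * N ^ 3 := by linarith
      refine b1.trans ?_
      have b2 : 6 * lam * N ^ 3 ≤ ε * N ^ 3 / (2 * k) / 2 := by
        rw [div_div, le_div_iff₀ (by positivity)]
        calc 6 * lam * N ^ 3 * (2 * k * 2) = (24 * k * lam) * N ^ 3 := by ring
          _ ≤ ε * N ^ 3 := mul_le_mul_of_nonneg_right c5 hN3.le
      linarith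
    have hcc : ((i0 : ℝ) + 1) * κ + L * DD G ≤ ε * N ^ 3 := by
      have b1 : ((i0 : ℝ) + 1) * κ ≤ ε / 2 * N ^ 3 := by
        calc ((i0 : ℝ) + 1) * κ ≤ ((i0 : ℝ) + 1) * (4 * N ^ 3 / k) :=
              mul_le_mul_of_nonneg_left hκ2 (by positivity)
          _ = (4 * ((i0 : ℝ) + 1) / k) * N ^ 3 := by ring
          _ ≤ ε / 2 * N ^ 3 := mul_le_mul_of_nonneg_right c4 hN3.le
      have b2 : 4 * lam * N ^ 3 ≤ ε / 2 * N ^ 3 :=
        mul_le_mul_of_nonneg_right (by linarith) hN3.le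
      linarith
    set J : ℕ := 2 * n / L + 1 with hJ
    have hcovJ : ∀ v, ∃ t < J * L, w t = v := by
      intro v
      obtain ⟨t, ht, hwt⟩ := hcov v
      refine ⟨t, ?_, hwt⟩
      have := Nat.lt_mul_div_succ (2 * n) (show 0 < L by omega)
      rw [hJ, mul_comm]
      omega
    have hbb := bad_bound hCH1 hCH2 hF hR hP hQ hNt hD0 hH0 hκ0 ha (show 1 ≤ i0 by omega) i0k
      L J hLpos w hw hcovJ hb (ε * N ^ 3) hcc
    refine hbb.trans ?_
    -- the union of the A i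
    have hpts := pts hP hQ hNt hD0 hH0 hκ0 ha i1pos hk1
    have hpc := hPC V G μ hF hR r y k i1 i0 (48 * H / κ) hpts i10 i0k
    have hHκ : H / κ ≤ 2 * k * δ / ε := by
      rw [div_le_div_iff₀ hκ0 ε0]
      have b1 : ε * N ^ 3 ≤ κ * (2 * k) := by
        rwa [div_le_iff₀ (by positivity)] at hκ1
      calc H * ε ≤ δ * N ^ 3 * ε := mul_le_mul_of_nonneg_right hHδ ε0.le
        _ = δ * (ε * N ^ 3) := by ring
        _ ≤ δ * (κ * (2 * k)) := mul_le_mul_of_nonneg_left b1 δ0.le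
        _ = 2 * k * δ * κ := by ring
    have hHκ0 : 0 ≤ H / κ := by positivity
    have hkη : (k : ℝ) ^ 2 * (48 * H / κ) ≤ 96 * (k : ℝ) ^ 3 * δ / ε := by
      calc (k : ℝ) ^ 2 * (48 * H / κ) = 48 * (k : ℝ) ^ 2 * (H / κ) := by ring
        _ ≤ 48 * (k : ℝ) ^ 2 * (2 * k * δ / ε) :=
          mul_le_mul_of_nonneg_left hHκ (by positivity)
        _ = 96 * (k : ℝ) ^ 3 * δ / ε := by ring
    have hkη0 : 0 ≤ (k : ℝ) ^ 2 * (48 * H / κ) := by positivity
    set Λ : ℝ := 1 / 3 * (∑ s ∈ Finset.Icc 3 (i0 - i1 + 2), 1 / (s : ℝ)) with hΛ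
    set Pu : ℝ := (μ r).real (⋃ i ∈ Finset.Icc i0 (k - 2), AA y i) with hPu
    have hΛpos : 0 < Λ := by
      have b1 : 0 < 3 * k / ((i1 : ℝ) + 2) + 1 := by positivity
      by_contra hneg
      push Not at hneg
      have : Λ * (M / 64) ≤ 0 := mul_nonpos_of_nonpos_of_nonneg hneg (by positivity)
      linarith
    have hPu1 : Pu ≤ M / 32 := by
      have b1 : Λ * (Pu - 2 * (k : ℝ) ^ 2 * (48 * H / κ)) ≤ Λ * (M / 64) := by
        refine hpc.trans ?_
        linarith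
      have b2 := le_of_mul_le_mul_left b1 hΛpos
      have b3 : 2 * (k : ℝ) ^ 2 * (48 * H / κ) = 2 * ((k : ℝ) ^ 2 * (48 * H / κ)) := by ring
      linarith
    -- the chunks
    have hJ3 : (J : ℝ) ≤ 3 / lam := by
      have b1 : ((2 * n / L : ℕ) : ℝ) ≤ ((2 * n : ℕ) : ℝ) / (L : ℝ) := Nat.cast_div_le
      have b2 : ((2 * n : ℕ) : ℝ) / (L : ℝ) ≤ 2 / lam := by
        rw [div_le_div_iff₀ (by linarith) l0]
        push_cast
        nlinarith
      have b3 : 1 ≤ 1 / lam := by rw [le_div_iff₀ l0]; linarith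
      rw [hJ]
      push_cast
      have b4 : 3 / lam = 2 / lam + 1 / lam := by ring
      push_cast at b1 b2
      linarith
    have hLκ : L * DD G / κ ≤ 8 * lam * k / ε := by
      rw [div_le_div_iff₀ hκ0 ε0]
      have b1 : ε * N ^ 3 ≤ κ * (2 * k) := by
        rwa [div_le_iff₀ (by positivity)] at hκ1
      calc L * DD G * ε ≤ 4 * lam * N ^ 3 * ε := mul_le_mul_of_nonneg_right hLD ε0.le
        _ = 4 * lam * (ε * N ^ 3) := by ring
        _ ≤ 4 * lam * (κ * (2 * k)) := mul_le_mul_of_nonneg_left b1 (by positivity)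
        _ = 8 * lam * k * κ := by ring
    have hLκ0 : 0 ≤ L * DD G / κ := by positivity
    have hsq : 64 * H / κ + 4 * L * DD G / κ ≤ 33 * lam * k / ε := by
      have b1 : 64 * H / κ = 64 * (H / κ) := by ring
      have b2 : 4 * L * DD G / κ = 4 * (L * DD G / κ) := by ring
      rw [b1, b2]
      have b3 : 64 * (2 * k * δ / ε) ≤ lam * k / ε := by
        have : 64 * (2 * k * δ / ε) = (128 * δ) * k / ε := by ring
        rw [this]
        exact div_le_div_of_nonneg_right (mul_le_mul_of_nonneg_right c8 hk0.le) ε0.le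
      have b4 : 33 * lam * k / ε = lam * k / ε + 4 * (8 * lam * k / ε) := by ring
      linarith
    have hsq0 : 0 ≤ 64 * H / κ + 4 * L * DD G / κ := by positivity
    have hρ : 96 * H / κ + (64 * H / κ + 4 * L * DD G / κ) ^ 2 ≤
        192 * k * δ / ε + (33 * lam * k / ε) ^ 2 := by
      have b1 : 96 * H / κ ≤ 192 * k * δ / ε := by
        calc 96 * H / κ = 96 * (H / κ) := by ring
          _ ≤ 96 * (2 * k * δ / ε) := by linarith
          _ = 192 * k * δ / ε := by ring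
      have b2 := pow_le_pow_left₀ hsq0 hsq 2
      linarith
    have hJρ : J * (96 * H / κ + (64 * H / κ + 4 * L * DD G / κ) ^ 2) ≤ M / 32 := by
      calc J * (96 * H / κ + (64 * H / κ + 4 * L * DD G / κ) ^ 2)
          ≤ 3 / lam * (192 * k * δ / ε + (33 * lam * k / ε) ^ 2) :=
            mul_le_mul hJ3 hρ (by positivity) (by positivity)
        _ = 576 * k * δ / (ε * lam) + 3267 * lam * (k : ℝ) ^ 2 / ε ^ 2 := by
            field_simp
            ring
        _ ≤ M / 64 + M / 64 := add_le_add c9 c10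
        _ = M / 32 := by ring
    linarith

/-- the cover time is small if all hitting times from `r` are small -/
theorem core (hQL : S_QL) (hPC : S_PC) (hCH1 : S_CH1) (hCH2 : S_CH2) (hNET : S_NET)
    (hTOUR : S_TOUR) (hCT1 : S_CT1) (hCT2 : S_CT2) (hCT3 : S_CT3)
    {M ε lam δ ν : ℝ} {k i0 i1 m : ℕ} (hp : Par M ε lam δ ν k i0 i1 m)
    {V : Type} [Fintype V] [MeasurableSpace V] [DiscreteMeasurableSpace V] {G : SimpleGraph V}
    {μ : V → Measure (ℕ → V)} (hG : G.Connected) (hF : Fam G μ) (hR : Rec G μ) (hP : Pot G μ)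
    (n : ℕ) (hn : Fintype.card V = n + 1) (hn1 : 1 ≤ n) (hν : 1 ≤ ν * n)
    (r : V) (H : ℝ) (hH : ∀ z, h μ r z ≤ H) (hHδ : H ≤ δ * (n : ℝ) ^ 3) :
    cv μ r Set.univ ≤ M * (n : ℝ) ^ 3 := by
  have hV2 : 2 ≤ Fintype.card V := by omega
  obtain ⟨c, hc1, hc2⟩ := hQL V G μ hV2 hG hF hR hP r H hH
  have hQ : QLs μ r c H := ⟨hH, hc1, hc2⟩
  have hH0 : 0 ≤ H := (h_nonneg μ r r).trans (hH r)
  have hD0 : 0 ≤ DD G := (DD_pos G hG hV2).le
  have hD := DD_le (G := G) n hn hn1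
  obtain ⟨w0, hw0, hcov0⟩ := hTOUR V G n hn hG
  have hall := h_le hR hP hD0 n w0 hw0 hcov0
  obtain ⟨w, hw, hww0⟩ := tour_ext n hn1 w0 hw0
  have hcov : ∀ v, ∃ t ≤ 2 * n, w t = v := by
    intro v
    obtain ⟨t, ht, h1⟩ := hcov0 v
    exact ⟨t, ht, by rw [hww0 t ht, h1]⟩
  have hbad := bad_small hPC hCH1 hCH2 hNET hp hG hF hR hP hQ hH0 n hn1 hD0 hD hν hHδ w hw hcov
    hall
  obtain ⟨M0, ε0, ε1, l0, l1, δ0, c1, c2, c3, c3', c4, c5, c6, c7, c8, c9, c10, e1, e1', e2,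
    i1pos, i10, i0k, n1, n2, n3⟩ := hp
  set N : ℝ := (n : ℝ) with hN
  have hN1 : (1 : ℝ) ≤ N := by rw [hN]; exact_mod_cast hn1
  have hN0 : 0 < N := by linarith
  have hN3 : 0 < N ^ 3 := by positivity
  have hN2 : 0 < N ^ 2 := by positivity
  have hεN : 1 ≤ ε * N := hν.trans (mul_le_mul_of_nonneg_right n2 hN0.le)
  have hεN3 : 1 ≤ ε * N ^ 3 := by
    have : (1 : ℝ) ≤ N ^ 2 := one_le_pow₀ hN1
    calc (1 : ℝ) = 1 * 1 := by ring
      _ ≤ ε * N * N ^ 2 := mul_le_mul hεN this zero_le_one (by positivity)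
      _ = ε * N ^ 3 := by ring
  set L : ℕ := ⌈ε * N⌉₊ with hL
  have hL1 : ε * N ≤ L := Nat.le_ceil _
  have hL2 : (L : ℝ) ≤ 2 * (ε * N) := by
    have := Nat.ceil_lt_add_one (show 0 ≤ ε * N by positivity)
    linarith
  have hLpos : 1 ≤ L := by
    have : (0 : ℝ) < L := by linarith
    exact_mod_cast this
  have hLD : L * DD G ≤ 4 * ε * N ^ 3 := by
    calc L * DD G ≤ (2 * (ε * N)) * (2 * N ^ 2) := mul_le_mul hL2 hD hD0 (by positivity)
      _ = 4 * ε * N ^ 3 := by ring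
  set K : ℕ := 2 * n / L + 1 with hK
  have hcovK : ∀ v, ∃ t < K * L, w t = v := by
    intro v
    obtain ⟨t, ht, hwt⟩ := hcov v
    refine ⟨t, ?_, hwt⟩
    have := Nat.lt_mul_div_succ (2 * n) (show 0 < L by omega)
    rw [hK, mul_comm]
    omega
  have hK3 : (K : ℝ) ≤ 3 / ε := by
    have b1 : ((2 * n / L : ℕ) : ℝ) ≤ ((2 * n : ℕ) : ℝ) / (L : ℝ) := Nat.cast_div_le
    have b2 : ((2 * n : ℕ) : ℝ) / (L : ℝ) ≤ 2 / ε := by
      rw [div_le_div_iff₀ (by linarith) ε0]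
      push_cast
      nlinarith
    have b3 : 1 ≤ 1 / ε := by rw [le_div_iff₀ ε0]; linarith
    rw [hK]
    push_cast
    have b4 : 3 / ε = 2 / ε + 1 / ε := by ring
    push_cast at b1 b2
    linarith
  have hKm : K ≤ 2 ^ m := by
    have : (K : ℝ) ≤ ((2 ^ m : ℕ) : ℝ) := by push_cast; exact hK3.trans c1
    exact_mod_cast this
  have hlow := low_cover hCT2 hCT3 hF hR hP hQ hD0 hH0 L K m hLpos w hw hcovK hKm (ε * N ^ 3)
    (by positivity) c
  have hlow2 : cv μ c {v | h μ c v < ε * N ^ 3} ≤ M / 4 * N ^ 3 := by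
    refine hlow.trans ?_
    have b1 : 2 * (2 * H + ε * N ^ 3 + L * DD G) + 1 ≤ 15 * ε * N ^ 3 := by
      have : δ * N ^ 3 ≤ ε / 2 * N ^ 3 := mul_le_mul_of_nonneg_right c3 hN3.le
      linarith
    calc (2 * (2 * H + ε * N ^ 3 + L * DD G) + 1) * ((m : ℝ) + 3)
        ≤ 15 * ε * N ^ 3 * ((m : ℝ) + 3) := mul_le_mul_of_nonneg_right b1 (by positivity)
      _ = 15 * ε * (m + 3) * N ^ 3 := by ring
      _ ≤ M / 4 * N ^ 3 := mul_le_mul_of_nonneg_right c2 hN3.le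
  have hup : cv μ c Set.univ ≤ 8 * N ^ 3 := by
    have b1 := hCT2 V G μ hF hR (2 * n) w Set.univ (fun v _ => hcov v) c
    have b2 := hall c (w 0)
    have b3 : ∑ t ∈ Finset.range (2 * n), h μ (w t) (w (t + 1)) ≤ 2 * N * DD G := by
      refine (Finset.sum_le_sum fun t _ => hP.edge _ _ (hw t)).trans (le_of_eq ?_)
      rw [Finset.sum_const, Finset.card_range, nsmul_eq_mul]
      push_cast
      ring
    have b4 : 2 * N * DD G ≤ 4 * N ^ 3 := by
      calc 2 * N * DD G ≤ 2 * N * (2 * N ^ 2) := mul_le_mul_of_nonneg_left hD (by positivity)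
        _ = 4 * N ^ 3 := by ring
    linarith
  have hup0 : 0 ≤ cv μ c Set.univ := tsum_nonneg fun _ => measureReal_nonneg
  have hct1 := hCT1 V G μ hF hR {v | h μ c v < ε * N ^ 3} r c
  have hfin : (μ r).real {ω | ∃ v, v ∉ {v | h μ c v < ε * N ^ 3} ∧ ω ∉ bef v c} *
      cv μ c Set.univ ≤ M / 16 * (8 * N ^ 3) :=
    mul_le_mul hbad hup hup0 (by positivity)
  have hHM : H ≤ M / 4 * N ^ 3 := hHδ.trans (mul_le_mul_of_nonneg_right c3' hN3.le)
  have hrc := hH c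
  linarith

end Pool.Agent.R695.CC.Q
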