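import Pool.Agent.R695.CC.QL

set_option autoImplicit false

open MeasureTheory ProbabilityTheory Finset
open scoped ENNReal

namespace Pool.Agent.R695.CC.Q

variable {V : Type} [Fintype V] [MeasurableSpace V]

/-- conclusions of the quasi-line lemma -/
structure QLs (μ : V → Measure (ℕ → V)) (r c : V) (H : ℝ) : Prop where
  hr : ∀ z, h μ r z ≤ H
  hc : ∀ y, h μ y c ≤ 2 * H
  ql : ∀ y y', h μ y y' ≤ max (h μ c y' - h μ c y) 0 + 12 * H

/-- a net of mesh `κ` -/
structure Nt (μ : V → Measure (ℕ → V)) (r c : V) (y : ℕ → V) (k : ℕ) (κ D : ℝ) : Prop where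
  y0 : y 0 = c
  yk : y k = r
  lo : ∀ i ≤ k, i * κ ≤ h μ c (y i)
  up : ∀ i ≤ k, h μ c (y i) ≤ i * κ + D

lemma pb_le {G : SimpleGraph V} {μ : V → Measure (ℕ → V)} (hP : Pot G μ) {x a b : V}
    (hab : a ≠ b) {N d : ℝ} (hN : h μ x b - h μ x a + h μ b a ≤ N)
    (hd : d ≤ h μ a b + h μ b a) (hd0 : 0 < d) : pb μ x a b ≤ N / d := by
  rw [le_div_iff₀ hd0]
  have h0 : 0 ≤ pb μ x a b := measureReal_nonneg
  have := mul_le_mul_of_nonneg_left hd h0
  rw [hP.pbf x a b hab] at this
  linarith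

lemma pb_ge {G : SimpleGraph V} {μ : V → Measure (ℕ → V)} (hP : Pot G μ) {x a b : V}
    (hab : a ≠ b) {N d : ℝ} (hN : N ≤ h μ x b - h μ x a + h μ b a)
    (hd : h μ a b + h μ b a ≤ d) (hd0 : 0 < d) : N / d ≤ pb μ x a b := by
  rw [div_le_iff₀ hd0]
  have h0 : 0 ≤ pb μ x a b := measureReal_nonneg
  have := mul_le_mul_of_nonneg_left hd h0
  rw [hP.pbf x a b hab] at this
  linarith

lemma phi_le {G : SimpleGraph V} {μ : V → Measure (ℕ → V)} (hP : Pot G μ) (c u v : V) :
    h μ c v - h μ c u ≤ h μ u v := by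
  have := hP.tri c u v
  linarith

section
variable {G : SimpleGraph V} {μ : V → Measure (ℕ → V)} {r c : V} {H : ℝ} {y : ℕ → V} {k : ℕ}
  {κ D : ℝ}

lemma net_lt (hN : Nt μ r c y k κ D) (hDκ : D < κ) {i j : ℕ} (hij : i < j) (hj : j ≤ k) :
    h μ c (y i) + (κ - D) ≤ h μ c (y j) := by
  have h1 := hN.up i (by omega)
  have h2 := hN.lo j hj
  have hκ : (i : ℝ) + 1 ≤ j := by exact_mod_cast hij
  by_cases hk0 : 0 ≤ κ
  · nlinarith
  · -- impossible: D >= 0
    have h3 := hN.lo 0 (by omega)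
    have h4 := hN.up 0 (by omega)
    simp at h3 h4
    linarith

lemma net_inj (hN : Nt μ r c y k κ D) (hDκ : D < κ) : ∀ i j, i ≤ k → j ≤ k → y i = y j → i = j := by
  intro i j hi hj hij
  rcases lt_trichotomy i j with hlt | heq | hgt
  · have := net_lt hN hDκ hlt hj
    rw [hij] at this
    linarith
  · exact heq
  · have := net_lt hN hDκ hgt hi
    rw [hij] at this
    linarith

theorem pts (hP : Pot G μ) (hQ : QLs μ r c H) (hN : Nt μ r c y k κ D)
    (hD0 : 0 ≤ D) (hH0 : 0 ≤ H) (hκ : 0 < κ) (hbig : 16 * k * (D + 12 * H) ≤ κ)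
    {i1 : ℕ} (hi1 : 1 ≤ i1) (hk1 : 1 ≤ k) : Pts μ r y k i1 (48 * H / κ) := by
  have hk1' : (1 : ℝ) ≤ k := by exact_mod_cast hk1
  have hE : 0 ≤ D + 12 * H := by positivity
  have hb1 : 16 * (D + 12 * H) ≤ κ := by nlinarith
  have hDκ : D < κ := by nlinarith
  have hinj := net_inj hN hDκ
  have ne : ∀ {i j : ℕ}, i < j → j ≤ k → y i ≠ y j := fun {i j} hij hj he =>
    absurd (hinj i j (by omega) hj he) (by omega)
  have hD2 : κ / 2 ≤ κ - D := by linarith
  refine ⟨hinj, hi1, by positivity, ?_, ?_, ?_, ?_, ?_⟩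
  · -- up
    intro i _ hik
    have hne : y 0 ≠ y (i + 2) := ne (by omega) hik
    have b1 := hQ.ql (y i) (y (i + 2))
    have l1 := net_lt hN hDκ (show i < i + 2 by omega) hik
    have b2 := hN.up (i + 2) hik
    have b3 := hN.lo i (by omega)
    have b4 := hN.lo (i + 2) hik
    rw [max_eq_left (by linarith)] at b1
    have hc := hQ.hc (y (i + 2))
    push_cast at b2 b4
    rw [← hN.y0] at hc b1 b2 b3 b4 l1
    have h0 := h_nonneg μ (y i) (y 0)
    have h00 := h_nonneg μ (y (i + 2)) (y 0)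
    have hpos : 0 < ((i : ℝ) + 2) * κ := by positivity
    refine (pb_le hP hne (N := 3 * κ) (d := ((i : ℝ) + 2) * κ) ?_ ?_ hpos).trans (le_of_eq ?_)
    · linarith
    · linarith
    · field_simp
  · -- lo
    intro j _ hjk
    have hne : y 0 ≠ y (j + 2) := ne (by omega) hjk
    have l1 := phi_le hP c (y j) (y (j + 2))
    have b2 := hN.up (j + 2) hjk
    have b3 := hN.up j (by omega)
    have b4 := hN.lo (j + 2) hjk
    have hc := hQ.hc (y (j + 2))
    have hc' := hQ.hc (y j)
    push_cast at b2 b4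
    rw [← hN.y0] at hc hc' b2 b3 b4 l1
    have h00 := h_nonneg μ (y (j + 2)) (y 0)
    have hjk' : (j : ℝ) + 2 ≤ k := by exact_mod_cast hjk
    have hpos : 0 < ((j : ℝ) + 2) * κ + D + 2 * H := by positivity
    refine le_trans ?_ (pb_ge hP hne (N := 2 * κ - D - 2 * H)
      (d := ((j : ℝ) + 2) * κ + D + 2 * H) (by linarith) (by linarith) hpos)
    rw [le_div_iff₀ hpos]
    have hj0 : (0 : ℝ) ≤ j := Nat.cast_nonneg j
    have hN2 : 0 < (j : ℝ) + 2 := by positivity
    have hη : 48 * H / κ * ((j : ℝ) + 2) ≤ 1 / 4 := by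
      rw [div_mul_eq_mul_div, div_le_iff₀ hκ]
      have : 12 * H * ((j : ℝ) + 2) ≤ (D + 12 * H) * k := by
        have : 12 * H ≤ D + 12 * H := by linarith
        exact mul_le_mul this hjk' hN2.le hE
      nlinarith
    have hη0 : 0 ≤ 48 * H / κ := by positivity
    have hsm : D + 2 * H ≤ κ / 16 := by linarith
    have hsm0 : 0 ≤ D + 2 * H := by positivity
    -- (1/N + η) (N κ + s) = κ + s/N + η N κ + η s
    have e1 : 1 / ((j : ℝ) + 2) * (((j : ℝ) + 2) * κ + D + 2 * H) =
        κ + (D + 2 * H) / ((j : ℝ) + 2) := by field_simp; ring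
    have e2 : (D + 2 * H) / ((j : ℝ) + 2) ≤ D + 2 * H := by
      rw [div_le_iff₀ hN2]; nlinarith
    have e3 : 48 * H / κ * (((j : ℝ) + 2) * κ + D + 2 * H) ≤
        1 / 4 * κ + 1 / 4 * (D + 2 * H) := by
      have a1 : 48 * H / κ * (((j : ℝ) + 2) * κ) ≤ 1 / 4 * κ := by
        rw [← mul_assoc]; exact mul_le_mul_of_nonneg_right hη hκ.le
      have a2 : 48 * H / κ * (D + 2 * H) ≤ 1 / 4 * (D + 2 * H) := by
        refine mul_le_mul_of_nonneg_right ?_ hsm0
        refine le_trans ?_ hη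
        nlinarith
      nlinarith
    rw [add_mul, e1]
    linarith
  · -- lo2
    intro i j _ hji hik
    have hne : y j ≠ y (i + 2) := ne (by omega) hik
    have l1 := phi_le hP c (y i) (y (i + 2))
    have b2 := hN.up (i + 2) hik
    have b3 := hN.up i (by omega)
    have b4 := hN.lo (i + 2) hik
    have b5 := hN.lo j (by omega)
    have l2 := net_lt hN hDκ hji (by omega)
    have l3 := net_lt hN hDκ (show j < i + 2 by omega) hik
    have q1 := hQ.ql (y i) (y j)
    rw [max_eq_right (by linarith)] at q1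
    have q2 := hQ.ql (y j) (y (i + 2))
    rw [max_eq_left (by linarith)] at q2
    have q3 := hQ.ql (y (i + 2)) (y j)
    rw [max_eq_right (by linarith)] at q3
    have q4 := h_nonneg μ (y (i + 2)) (y j)
    push_cast at b2 b4
    have hji' : (j : ℝ) + 1 ≤ i := by exact_mod_cast hji
    have hm : 0 < (i : ℝ) + 2 - j := by linarith
    have hpos : 0 < ((i : ℝ) + 2 - j) * κ + D + 24 * H := by positivity
    refine le_trans ?_ (pb_ge hP hne (N := 2 * κ - D - 12 * H)
      (d := ((i : ℝ) + 2 - j) * κ + D + 24 * H) (by linarith) (by linarith) hpos)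
    rw [div_le_div_iff₀ hm hpos]
    nlinarith
  · -- j1
    intro i l _ hil hlk
    have hne : y l ≠ y (i + 2) := (ne hil hlk).symm
    have l1 := net_lt hN hDκ hil hlk
    have l2 := net_lt hN hDκ (show i < i + 2 by omega) (by omega)
    have q1 := hQ.ql (y i) (y (i + 2))
    rw [max_eq_left (by linarith)] at q1
    have q2 := phi_le hP c (y i) (y l)
    have q3 := hQ.ql (y (i + 2)) (y l)
    rw [max_eq_left (by linarith)] at q3
    have q4 := phi_le hP c (y (i + 2)) (y l)
    have q5 := h_nonneg μ (y l) (y (i + 2))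
    refine (pb_le hP hne (N := 24 * H) (d := κ / 2) (by linarith) (by linarith)
      (by positivity)).trans (le_of_eq ?_)
    field_simp
    ring
  · -- j2
    intro j i hji hik
    have hne : y j ≠ y i := ne hji hik
    have l1 := net_lt hN hDκ hji hik
    have q1 := hQ.hr (y i)
    have q2 := h_nonneg μ r (y j)
    have q3 := hQ.ql (y i) (y j)
    rw [max_eq_right (by linarith)] at q3
    have q4 := phi_le hP c (y j) (y i)
    have q5 := h_nonneg μ (y i) (y j)
    have := pb_le hP hne (x := r) (N := 24 * H) (d := κ / 2) (by linarith) (by linarith)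
      (by positivity)
    refine this.trans (le_of_eq ?_)
    field_simp
    ring

end

end Pool.Agent.R695.CC.Q
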