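import Pool.Agent.R695.CC.Stm

set_option autoImplicit false

open MeasureTheory ProbabilityTheory Finset
open scoped ENNReal

namespace Pool.Agent.R695.CC.Q

theorem meas_bef {V : Type} [Fintype V] [MeasurableSpace V] [DiscreteMeasurableSpace V]
    (a b : V) : MeasurableSet (bef a b) := by
  have h1 : bef a b = ⋃ n : ℕ, ({ω : ℕ → V | ω n = a} ∩ ⋂ m ∈ Set.Iio n, {ω : ℕ → V | ω m = b}ᶜ) := by
    ext ω
    simp [bef]
  rw [h1]
  have h2 : ∀ (n : ℕ) (v : V), MeasurableSet {ω : ℕ → V | ω n = v} := fun n v => by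
    have hm : Measurable (fun ω : ℕ → V => ω n) := measurable_pi_apply n
    exact hm (MeasurableSet.of_discrete (s := ({v} : Set V)))
  exact MeasurableSet.iUnion fun n => (h2 n a).inter
    (MeasurableSet.biInter (Set.to_countable _) fun m _ => (h2 m b).compl)

theorem det_bef {V : Type} [Fintype V] (a b : V) : Det a (bef a b) := by
  intro ω ω' n hn hω' hE
  obtain ⟨k, hk, hk'⟩ := hE
  have hnk : n ≤ k := by
    by_contra hlt
    push Not at hlt
    exact hn.2 k hlt hk
  refine ⟨n, ?_, fun m hm => ?_⟩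
  · rw [hω' n le_rfl]; exact hn.1
  · rw [hω' m hm.le]; exact hk' m (by omega)

theorem bef_trans {V : Type} [Fintype V] (y y' c : V) :
    bef y y' ∩ aft y (bef c y') ⊆ bef c y' := by
  rintro ω ⟨⟨n, hn, hn'⟩, n', hf, k, hk, hk'⟩
  have hle : n' ≤ n := by
    by_contra hlt
    push Not at hlt
    exact hf.2 n hlt hn
  refine ⟨n' + k, hk, fun m hm => ?_⟩
  by_cases hmn : m < n'
  · exact hn' m (by omega)
  · have := hk' (m - n') (by omega)
    simp only [shf] at this
    rwa [show n' + (m - n') = m by omega] at this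

theorem pb_mul_le {V : Type} [Fintype V] [MeasurableSpace V] [DiscreteMeasurableSpace V]
    (hSM : S_SM) (G : SimpleGraph V) (μ : V → Measure (ℕ → V)) (hF : Fam G μ)
    (r y y' c : V) : pb μ r y y' * pb μ y c y' ≤ pb μ r c y' := by
  have hp := hF.prob r
  have h1 := hSM V G μ hF r y (bef y y') (bef c y') (meas_bef _ _) (det_bef _ _)
  have h2 : bef y y' ∩ hits y = bef y y' := by
    apply Set.inter_eq_left.mpr
    rintro ω ⟨n, hn, _⟩
    exact ⟨n, hn⟩
  rw [h2] at h1
  rw [pb, pb, ← h1, pb]
  exact measureReal_mono (bef_trans _ _ _)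

theorem dg_pos {V : Type} [Fintype V] (G : SimpleGraph V) (hc : G.Connected)
    (h2 : 2 ≤ Fintype.card V) (x : V) : 0 < dg G x := by
  classical
  have : Nontrivial V := Fintype.one_lt_card_iff_nontrivial.mp (by omega)
  obtain ⟨y, hy⟩ := exists_ne x
  obtain ⟨p⟩ := hc.preconnected x y
  cases p with
  | nil => exact absurd rfl hy
  | cons hadj _ =>
    unfold dg
    have : 0 < (Finset.univ.filter fun y => G.Adj x y).card :=
      Finset.card_pos.mpr ⟨_, by simpa using hadj⟩
    exact_mod_cast this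

theorem DD_pos {V : Type} [Fintype V] (G : SimpleGraph V) (hc : G.Connected)
    (h2 : 2 ≤ Fintype.card V) : 0 < DD G := by
  have : Nonempty V := Fintype.card_pos_iff.mp (by omega)
  exact Finset.sum_pos (fun x _ => dg_pos G hc h2 x) Finset.univ_nonempty

theorem h_nonneg {V : Type} [Fintype V] [MeasurableSpace V] (μ : V → Measure (ℕ → V)) (x y : V) :
    0 ≤ h μ x y := tsum_nonneg fun _ => measureReal_nonneg

theorem QL_ok (hSM : S_SM) : S_QL := by
  intro V _ _ _ G μ h2 hc hF hR hP r H hH
  have hD := DD_pos G hc h2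
  have : Nonempty V := ⟨r⟩
  have hH0 : 0 ≤ H := (h_nonneg μ r r).trans (hH r)
  set K : ℝ := ∑ z, dg G z * h μ r z with hK
  have hKH : K ≤ H * DD G := by
    rw [hK, DD, Finset.mul_sum]
    refine Finset.sum_le_sum fun z _ => ?_
    rw [mul_comm H]
    exact mul_le_mul_of_nonneg_left (hH z) (dg_pos G hc h2 z).le
  -- choice of c
  obtain ⟨c, hcK⟩ : ∃ c, ∑ z, dg G z * h μ z c ≤ K := by
    by_contra hcon
    push Not at hcon
    have hlt : ∑ y, dg G y * K < ∑ y, dg G y * ∑ z, dg G z * h μ z y :=
      Finset.sum_lt_sum_of_nonempty Finset.univ_nonempty fun y _ =>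
        mul_lt_mul_of_pos_left (hcon y) (dg_pos G hc h2 y)
    have heq : ∑ y, dg G y * ∑ z, dg G z * h μ z y = ∑ z, dg G z * K := by
      simp_rw [Finset.mul_sum]
      rw [Finset.sum_comm]
      refine Finset.sum_congr rfl fun z _ => ?_
      rw [hK, hP.kem r z, Finset.mul_sum]
      refine Finset.sum_congr rfl fun y _ => by ring
    exact absurd heq (ne_of_gt hlt)
  have hyc : ∀ y, h μ y c ≤ 2 * H := by
    intro y
    have h1 : DD G * h μ y c ≤ DD G * (2 * H) := by
      have e1 : DD G * h μ y c = ∑ z, dg G z * h μ y c := by rw [DD, Finset.sum_mul]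
      have e2 : ∑ z, dg G z * h μ y c ≤ ∑ z, dg G z * (h μ y z + h μ z c) :=
        Finset.sum_le_sum fun z _ =>
          mul_le_mul_of_nonneg_left (hP.tri y z c) (dg_pos G hc h2 z).le
      have e3 : ∑ z, dg G z * (h μ y z + h μ z c) = K + ∑ z, dg G z * h μ z c := by
        simp_rw [mul_add]
        rw [Finset.sum_add_distrib, hK, hP.kem r y]
      rw [e1]
      refine e2.trans ?_
      rw [e3]
      nlinarith
    exact le_of_mul_le_mul_left h1 hD
  refine ⟨c, hyc, ?_⟩
  -- one of the two hitting times is small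
  have key : ∀ y y', y ≠ y' → y' ≠ c → 1 / 2 ≤ pb μ r y y' → h μ y y' ≤ 8 * H := by
    intro y y' hyy hy'c hhalf
    have hm := pb_mul_le hSM G μ hF r y y' c
    have f1 := hP.pbf r c y' (Ne.symm hy'c)
    have f2 := hP.pbf y c y' (Ne.symm hy'c)
    have hpos : 0 < h μ c y' + h μ y' c := by
      have := hR.hge c y' (Ne.symm hy'c)
      have := h_nonneg μ y' c
      linarith
    have hp0 : 0 ≤ pb μ y c y' := measureReal_nonneg
    have h3 : 1 / 2 * pb μ y c y' ≤ pb μ r c y' := le_trans
      (mul_le_mul_of_nonneg_right hhalf hp0) hm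
    have h4 : pb μ y c y' * (h μ c y' + h μ y' c) ≤
        2 * (pb μ r c y' * (h μ c y' + h μ y' c)) := by nlinarith
    rw [f1, f2] at h4
    have g1 := hH y'
    have g2 := h_nonneg μ r c
    have g3 := hyc y'
    have g4 := hyc y
    have g5 := h_nonneg μ y' c
    linarith
  intro y y'
  by_cases hyy : y = y'
  · subst hyy
    rw [hR.hxx]
    have := le_max_right (h μ c y - h μ c y) 0
    linarith
  by_cases hy'c : y' = c
  · subst hy'c
    have := le_max_right (h μ y' y' - h μ y' y) 0
    have := hyc y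
    linarith
  by_cases hyc' : y = c
  · subst hyc'
    have := le_max_left (h μ y y' - h μ y y) 0
    rw [hR.hxx] at this ⊢
    linarith
  have hsum : (pb μ r y y' + pb μ r y' y) * (h μ y y' + h μ y' y) = h μ y y' + h μ y' y := by
    have f1 := hP.pbf r y y' hyy
    have f2 := hP.pbf r y' y (Ne.symm hyy)
    rw [add_mul, f1, add_comm (h μ y y'), f2]
    ring
  have hpos : 0 < h μ y y' + h μ y' y := by
    have := hR.hge y y' hyy
    have := h_nonneg μ y' y
    linarith
  have hone : pb μ r y y' + pb μ r y' y = 1 := by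
    have := mul_right_cancel₀ hpos.ne' (hsum.trans (one_mul _).symm)
    exact this
  have hcyc := hP.cyc c y y'
  -- h c y + h y y' + h y' c = h c y' + h y' y + h y c
  have g3 := hyc y'
  have g4 := hyc y
  have g5 := h_nonneg μ y' c
  have g6 := h_nonneg μ y c
  have m1 := le_max_left (h μ c y' - h μ c y) 0
  have m2 := le_max_right (h μ c y' - h μ c y) 0
  by_cases hhalf : 1 / 2 ≤ pb μ r y y'
  · have := key y y' hyy hy'c hhalf
    linarith
  · have := key y' y (Ne.symm hyy) hyc' (by linarith)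
    linarith

end Pool.Agent.R695.CC.Q
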